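import Pool.Agent.Lib.MP_2c0b9b_co_S3.Defs

/-!
# Large sets of strength three: the coins, 30 points
-/

set_option autoImplicit false

namespace Pool.Agent.LS3

/-- coin number 0, order 4 -/
def D9_0 : List ℕ × List ℕ := (
    [1, 4, 5, 13, 14, 22, 23, 26, 28],
    [10405, 42614, 230113, 262322])

/-- coin number 1, order 4 -/
def D9_1 : List ℕ × List ℕ := (
    [4, 5, 6, 8, 10, 13, 15, 16, 19],
    [40506, 80516, 130510, 190515])

/-- coin number 2, order 3 -/
def D9_2 : List ℕ × List ℕ := (
    [1, 2, 8, 11, 12, 13, 14, 17, 20],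
    [10208, 81120, 201701])

/-- coin number 3, order 3 -/
def D9_3 : List ℕ × List ℕ := (
    [1, 6, 10, 13, 17, 18, 19, 20, 25],
    [10610, 101720, 201301])

/-- coin number 4, order 3 -/
def D9_4 : List ℕ × List ℕ := (
    [1, 2, 8, 12, 15, 22, 24, 25, 26],
    [10208, 22425, 240112])

/-- coin number 5, order 3 -/
def D9_5 : List ℕ × List ℕ := (
    [4, 11, 16, 17, 20, 22, 26, 27, 28],
    [41116, 111604, 160411])

/-- coin number 6, order 6 -/
def D9_6 : List ℕ × List ℕ := (
    [8, 9, 10, 14, 17, 18, 21, 22, 25],
    [80910, 90822, 171810, 181714, 212514, 252122])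

/-- coin number 7, order 6 -/
def D9_7 : List ℕ × List ℕ := (
    [3, 5, 8, 12, 13, 19, 20, 23, 25],
    [30508, 50803, 80305, 121319, 131912, 191213])

/-- coins on 30 points, `k = 9` (orders 4, 4, 3, 3, 3, 3, 6, 6) -/
def D9 : List (List ℕ × List ℕ) := [D9_0, D9_1, D9_2, D9_3, D9_4, D9_5, D9_6, D9_7]

theorem D9_s0 : D9_0.1.length = 9 ∧ chkStab 29 D9_0.1 D9_0.2 = true := by
  decide +kernel

theorem D9_s1 : D9_1.1.length = 9 ∧ chkStab 29 D9_1.1 D9_1.2 = true := by
  decide +kernel

theorem D9_s2 : D9_2.1.length = 9 ∧ chkStab 29 D9_2.1 D9_2.2 = true := by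
  decide +kernel

theorem D9_s3 : D9_3.1.length = 9 ∧ chkStab 29 D9_3.1 D9_3.2 = true := by
  decide +kernel

theorem D9_s4 : D9_4.1.length = 9 ∧ chkStab 29 D9_4.1 D9_4.2 = true := by
  decide +kernel

theorem D9_s5 : D9_5.1.length = 9 ∧ chkStab 29 D9_5.1 D9_5.2 = true := by
  decide +kernel

theorem D9_s6 : D9_6.1.length = 9 ∧ chkStab 29 D9_6.1 D9_6.2 = true := by
  decide +kernel

theorem D9_s7 : D9_7.1.length = 9 ∧ chkStab 29 D9_7.1 D9_7.2 = true := by
  decide +kernel

theorem D9_n0_1 : chkNe 29 D9_0.1 D9_1.1 = true := by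
  decide +kernel

theorem D9_n2_3 : chkNe 29 D9_2.1 D9_3.1 = true := by
  decide +kernel

theorem D9_n2_4 : chkNe 29 D9_2.1 D9_4.1 = true := by
  decide +kernel

theorem D9_n2_5 : chkNe 29 D9_2.1 D9_5.1 = true := by
  decide +kernel

theorem D9_n3_4 : chkNe 29 D9_3.1 D9_4.1 = true := by
  decide +kernel

theorem D9_n3_5 : chkNe 29 D9_3.1 D9_5.1 = true := by
  decide +kernel

theorem D9_n4_5 : chkNe 29 D9_4.1 D9_5.1 = true := by
  decide +kernel

theorem D9_n6_7 : chkNe 29 D9_6.1 D9_7.1 = true := by
  decide +kernel

theorem D9_stab : ∀ c ∈ D9, c.1.length = 9 ∧ chkStab 29 c.1 c.2 = true := by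
  intro c hc
  simp only [D9, List.mem_cons, List.not_mem_nil, or_false] at hc
  rcases hc with rfl | rfl | rfl | rfl | rfl | rfl | rfl | rfl
  exacts [D9_s0, D9_s1, D9_s2, D9_s3, D9_s4, D9_s5, D9_s6, D9_s7]

theorem D9_ne : D9.Pairwise
    (fun c d => c.2.length = d.2.length → chkNe 29 c.1 d.1 = true) := by
  unfold D9
  refine List.Pairwise.cons (fun d hd => ?_) ?_
  · simp only [List.mem_cons, List.not_mem_nil, or_false] at hd
    rcases hd with rfl | rfl | rfl | rfl | rfl | rfl | rfl
    · exact fun _ => D9_n0_1
    · exact fun h => absurd h (by decide)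
    · exact fun h => absurd h (by decide)
    · exact fun h => absurd h (by decide)
    · exact fun h => absurd h (by decide)
    · exact fun h => absurd h (by decide)
    · exact fun h => absurd h (by decide)
  refine List.Pairwise.cons (fun d hd => ?_) ?_
  · simp only [List.mem_cons, List.not_mem_nil, or_false] at hd
    rcases hd with rfl | rfl | rfl | rfl | rfl | rfl
    · exact fun h => absurd h (by decide)
    · exact fun h => absurd h (by decide)
    · exact fun h => absurd h (by decide)
    · exact fun h => absurd h (by decide)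
    · exact fun h => absurd h (by decide)
    · exact fun h => absurd h (by decide)
  refine List.Pairwise.cons (fun d hd => ?_) ?_
  · simp only [List.mem_cons, List.not_mem_nil, or_false] at hd
    rcases hd with rfl | rfl | rfl | rfl | rfl
    · exact fun _ => D9_n2_3
    · exact fun _ => D9_n2_4
    · exact fun _ => D9_n2_5
    · exact fun h => absurd h (by decide)
    · exact fun h => absurd h (by decide)
  refine List.Pairwise.cons (fun d hd => ?_) ?_
  · simp only [List.mem_cons, List.not_mem_nil, or_false] at hd
    rcases hd with rfl | rfl | rfl | rfl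
    · exact fun _ => D9_n3_4
    · exact fun _ => D9_n3_5
    · exact fun h => absurd h (by decide)
    · exact fun h => absurd h (by decide)
  refine List.Pairwise.cons (fun d hd => ?_) ?_
  · simp only [List.mem_cons, List.not_mem_nil, or_false] at hd
    rcases hd with rfl | rfl | rfl
    · exact fun _ => D9_n4_5
    · exact fun h => absurd h (by decide)
    · exact fun h => absurd h (by decide)
  refine List.Pairwise.cons (fun d hd => ?_) ?_
  · simp only [List.mem_cons, List.not_mem_nil, or_false] at hd
    rcases hd with rfl | rfl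
    · exact fun h => absurd h (by decide)
    · exact fun h => absurd h (by decide)
  refine List.Pairwise.cons (fun d hd => ?_) ?_
  · simp only [List.mem_cons, List.not_mem_nil, or_false] at hd
    subst hd
    exact fun _ => D9_n6_7
  exact List.Pairwise.cons (fun d hd => absurd hd List.not_mem_nil) List.Pairwise.nil

/-- coin number 0, order 2 -/
def D10_0 : List ℕ × List ℕ := (
    [4, 7, 10, 12, 19, 20, 21, 22, 24, 27],
    [40710, 102704])

/-- coin number 1, order 2 -/
def D10_1 : List ℕ × List ℕ := (
    [1, 10, 12, 14, 15, 17, 21, 25, 27, 28],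
    [11012, 272117])

/-- coin number 2, order 4 -/
def D10_2 : List ℕ × List ℕ := (
    [1, 2, 3, 4, 15, 17, 19, 20, 23, 24],
    [10203, 20120, 41517, 150424])

/-- coin number 3, order 4 -/
def D10_3 : List ℕ × List ℕ := (
    [1, 6, 9, 13, 16, 17, 20, 23, 25, 28],
    [10609, 11620, 230906, 232016])

/-- coin number 4, order 8 -/
def D10_4 : List ℕ × List ℕ := (
    [1, 4, 10, 12, 13, 18, 19, 22, 26, 28],
    [10410, 41822, 101901, 122218, 182812, 191228, 221004, 280119])

/-- coin number 5, order 8 -/
def D10_5 : List ℕ × List ℕ := (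
    [1, 2, 3, 6, 11, 14, 20, 24, 25, 27],
    [10203, 20111, 62511, 142703, 202411, 242003, 250603, 271411])

/-- coins on 30 points, `k = 10` (orders 2, 2, 4, 4, 8, 8) -/
def D10 : List (List ℕ × List ℕ) := [D10_0, D10_1, D10_2, D10_3, D10_4, D10_5]

theorem D10_s0 : D10_0.1.length = 10 ∧ chkStab 29 D10_0.1 D10_0.2 = true := by
  decide +kernel

theorem D10_s1 : D10_1.1.length = 10 ∧ chkStab 29 D10_1.1 D10_1.2 = true := by
  decide +kernel

theorem D10_s2 : D10_2.1.length = 10 ∧ chkStab 29 D10_2.1 D10_2.2 = true := by
  decide +kernel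

theorem D10_s3 : D10_3.1.length = 10 ∧ chkStab 29 D10_3.1 D10_3.2 = true := by
  decide +kernel

theorem D10_s4 : D10_4.1.length = 10 ∧ chkStab 29 D10_4.1 D10_4.2 = true := by
  decide +kernel

theorem D10_s5 : D10_5.1.length = 10 ∧ chkStab 29 D10_5.1 D10_5.2 = true := by
  decide +kernel

theorem D10_n0_1 : chkNe 29 D10_0.1 D10_1.1 = true := by
  decide +kernel

theorem D10_n2_3 : chkNe 29 D10_2.1 D10_3.1 = true := by
  decide +kernel

theorem D10_n4_5 : chkNe 29 D10_4.1 D10_5.1 = true := by
  decide +kernel

theorem D10_stab : ∀ c ∈ D10, c.1.length = 10 ∧ chkStab 29 c.1 c.2 = true := by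
  intro c hc
  simp only [D10, List.mem_cons, List.not_mem_nil, or_false] at hc
  rcases hc with rfl | rfl | rfl | rfl | rfl | rfl
  exacts [D10_s0, D10_s1, D10_s2, D10_s3, D10_s4, D10_s5]

theorem D10_ne : D10.Pairwise
    (fun c d => c.2.length = d.2.length → chkNe 29 c.1 d.1 = true) := by
  unfold D10
  refine List.Pairwise.cons (fun d hd => ?_) ?_
  · simp only [List.mem_cons, List.not_mem_nil, or_false] at hd
    rcases hd with rfl | rfl | rfl | rfl | rfl
    · exact fun _ => D10_n0_1
    · exact fun h => absurd h (by decide)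
    · exact fun h => absurd h (by decide)
    · exact fun h => absurd h (by decide)
    · exact fun h => absurd h (by decide)
  refine List.Pairwise.cons (fun d hd => ?_) ?_
  · simp only [List.mem_cons, List.not_mem_nil, or_false] at hd
    rcases hd with rfl | rfl | rfl | rfl
    · exact fun h => absurd h (by decide)
    · exact fun h => absurd h (by decide)
    · exact fun h => absurd h (by decide)
    · exact fun h => absurd h (by decide)
  refine List.Pairwise.cons (fun d hd => ?_) ?_
  · simp only [List.mem_cons, List.not_mem_nil, or_false] at hd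
    rcases hd with rfl | rfl | rfl
    · exact fun _ => D10_n2_3
    · exact fun h => absurd h (by decide)
    · exact fun h => absurd h (by decide)
  refine List.Pairwise.cons (fun d hd => ?_) ?_
  · simp only [List.mem_cons, List.not_mem_nil, or_false] at hd
    rcases hd with rfl | rfl
    · exact fun h => absurd h (by decide)
    · exact fun h => absurd h (by decide)
  refine List.Pairwise.cons (fun d hd => ?_) ?_
  · simp only [List.mem_cons, List.not_mem_nil, or_false] at hd
    subst hd
    exact fun _ => D10_n4_5
  exact List.Pairwise.cons (fun d hd => absurd hd List.not_mem_nil) List.Pairwise.nil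

/-- coin number 0, order 2 -/
def D11_0 : List ℕ × List ℕ := (
    [7, 9, 12, 14, 16, 17, 21, 23, 24, 25, 26],
    [70912, 231617])

/-- coin number 1, order 2 -/
def D11_1 : List ℕ × List ℕ := (
    [3, 7, 9, 10, 11, 12, 15, 16, 21, 24, 26],
    [30709, 241226])

/-- coins on 30 points, `k = 11` (orders 2, 2) -/
def D11 : List (List ℕ × List ℕ) := [D11_0, D11_1]

theorem D11_s0 : D11_0.1.length = 11 ∧ chkStab 29 D11_0.1 D11_0.2 = true := by
  decide +kernel

theorem D11_s1 : D11_1.1.length = 11 ∧ chkStab 29 D11_1.1 D11_1.2 = true := by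
  decide +kernel

theorem D11_n0_1 : chkNe 29 D11_0.1 D11_1.1 = true := by
  decide +kernel

theorem D11_stab : ∀ c ∈ D11, c.1.length = 11 ∧ chkStab 29 c.1 c.2 = true := by
  intro c hc
  simp only [D11, List.mem_cons, List.not_mem_nil, or_false] at hc
  rcases hc with rfl | rfl
  exacts [D11_s0, D11_s1]

theorem D11_ne : D11.Pairwise
    (fun c d => c.2.length = d.2.length → chkNe 29 c.1 d.1 = true) := by
  unfold D11
  refine List.Pairwise.cons (fun d hd => ?_) ?_
  · simp only [List.mem_cons, List.not_mem_nil, or_false] at hd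
    subst hd
    exact fun _ => D11_n0_1
  exact List.Pairwise.cons (fun d hd => absurd hd List.not_mem_nil) List.Pairwise.nil

/-- coin number 0, order 8 -/
def D12_0 : List ℕ × List ℕ := (
    [2, 4, 5, 7, 13, 14, 17, 18, 20, 21, 24, 25],
    [20405, 22117, 70504, 71721, 181325, 181424, 202414, 202513])

/-- coin number 1, order 8 -/
def D12_1 : List ℕ × List ℕ := (
    [3, 4, 5, 6, 9, 10, 12, 15, 20, 26, 27, 28],
    [30405, 42827, 52003, 120320, 152728, 201512, 270504, 281215])

/-- coin number 2, order 2 -/
def D12_2 : List ℕ × List ℕ := (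
    [1, 6, 7, 12, 15, 18, 19, 20, 21, 22, 25, 28],
    [10607, 220706])

/-- coin number 3, order 2 -/
def D12_3 : List ℕ × List ℕ := (
    [2, 4, 6, 8, 9, 12, 19, 21, 22, 23, 24, 25],
    [20406, 122122])

/-- coin number 4, order 3 -/
def D12_4 : List ℕ × List ℕ := (
    [4, 5, 7, 9, 10, 12, 16, 21, 23, 25, 27, 28],
    [40507, 92827, 252112])

/-- coin number 5, order 4 -/
def D12_5 : List ℕ × List ℕ := (
    [5, 6, 7, 8, 9, 11, 17, 20, 22, 23, 24, 27],
    [50607, 200706, 220924, 232409])

/-- coin number 6, order 6 -/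
def D12_6 : List ℕ × List ℕ := (
    [2, 4, 5, 6, 7, 8, 9, 15, 16, 18, 19, 24],
    [20405, 40209, 51602, 70916, 90704, 160507])

/-- coin number 7, order 12 -/
def D12_7 : List ℕ × List ℕ := (
    [3, 4, 5, 9, 10, 11, 19, 20, 21, 22, 23, 24],
    [30405, 42419, 52122, 92221, 101924, 111009, 191120, 200504, 212011, 222303, 230910, 240323])

/-- coin number 8, order 12 -/
def D12_8 : List ℕ × List ℕ := (
    [2, 4, 6, 7, 8, 10, 11, 12, 14, 16, 23, 24],
    [20406, 42410, 61024, 71214, 81607, 100211, 110604, 120823, 142308, 161412, 230716, 241102])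

/-- coins on 30 points, `k = 12` (orders 8, 8, 2, 2, 3, 4, 6, 12, 12) -/
def D12 : List (List ℕ × List ℕ) := [D12_0, D12_1, D12_2, D12_3, D12_4, D12_5, D12_6, D12_7, D12_8]

theorem D12_s0 : D12_0.1.length = 12 ∧ chkStab 29 D12_0.1 D12_0.2 = true := by
  decide +kernel

theorem D12_s1 : D12_1.1.length = 12 ∧ chkStab 29 D12_1.1 D12_1.2 = true := by
  decide +kernel

theorem D12_s2 : D12_2.1.length = 12 ∧ chkStab 29 D12_2.1 D12_2.2 = true := by
  decide +kernel

theorem D12_s3 : D12_3.1.length = 12 ∧ chkStab 29 D12_3.1 D12_3.2 = true := by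
  decide +kernel

theorem D12_s4 : D12_4.1.length = 12 ∧ chkStab 29 D12_4.1 D12_4.2 = true := by
  decide +kernel

theorem D12_s5 : D12_5.1.length = 12 ∧ chkStab 29 D12_5.1 D12_5.2 = true := by
  decide +kernel

theorem D12_s6 : D12_6.1.length = 12 ∧ chkStab 29 D12_6.1 D12_6.2 = true := by
  decide +kernel

theorem D12_s7 : D12_7.1.length = 12 ∧ chkStab 29 D12_7.1 D12_7.2 = true := by
  decide +kernel

theorem D12_s8 : D12_8.1.length = 12 ∧ chkStab 29 D12_8.1 D12_8.2 = true := by
  decide +kernel

theorem D12_n0_1 : chkNe 29 D12_0.1 D12_1.1 = true := by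
  decide +kernel

theorem D12_n2_3 : chkNe 29 D12_2.1 D12_3.1 = true := by
  decide +kernel

theorem D12_n7_8 : chkNe 29 D12_7.1 D12_8.1 = true := by
  decide +kernel

theorem D12_stab : ∀ c ∈ D12, c.1.length = 12 ∧ chkStab 29 c.1 c.2 = true := by
  intro c hc
  simp only [D12, List.mem_cons, List.not_mem_nil, or_false] at hc
  rcases hc with rfl | rfl | rfl | rfl | rfl | rfl | rfl | rfl | rfl
  exacts [D12_s0, D12_s1, D12_s2, D12_s3, D12_s4, D12_s5, D12_s6, D12_s7, D12_s8]

theorem D12_ne : D12.Pairwise
    (fun c d => c.2.length = d.2.length → chkNe 29 c.1 d.1 = true) := by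
  unfold D12
  refine List.Pairwise.cons (fun d hd => ?_) ?_
  · simp only [List.mem_cons, List.not_mem_nil, or_false] at hd
    rcases hd with rfl | rfl | rfl | rfl | rfl | rfl | rfl | rfl
    · exact fun _ => D12_n0_1
    · exact fun h => absurd h (by decide)
    · exact fun h => absurd h (by decide)
    · exact fun h => absurd h (by decide)
    · exact fun h => absurd h (by decide)
    · exact fun h => absurd h (by decide)
    · exact fun h => absurd h (by decide)
    · exact fun h => absurd h (by decide)
  refine List.Pairwise.cons (fun d hd => ?_) ?_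
  · simp only [List.mem_cons, List.not_mem_nil, or_false] at hd
    rcases hd with rfl | rfl | rfl | rfl | rfl | rfl | rfl
    · exact fun h => absurd h (by decide)
    · exact fun h => absurd h (by decide)
    · exact fun h => absurd h (by decide)
    · exact fun h => absurd h (by decide)
    · exact fun h => absurd h (by decide)
    · exact fun h => absurd h (by decide)
    · exact fun h => absurd h (by decide)
  refine List.Pairwise.cons (fun d hd => ?_) ?_
  · simp only [List.mem_cons, List.not_mem_nil, or_false] at hd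
    rcases hd with rfl | rfl | rfl | rfl | rfl | rfl
    · exact fun _ => D12_n2_3
    · exact fun h => absurd h (by decide)
    · exact fun h => absurd h (by decide)
    · exact fun h => absurd h (by decide)
    · exact fun h => absurd h (by decide)
    · exact fun h => absurd h (by decide)
  refine List.Pairwise.cons (fun d hd => ?_) ?_
  · simp only [List.mem_cons, List.not_mem_nil, or_false] at hd
    rcases hd with rfl | rfl | rfl | rfl | rfl
    · exact fun h => absurd h (by decide)
    · exact fun h => absurd h (by decide)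
    · exact fun h => absurd h (by decide)
    · exact fun h => absurd h (by decide)
    · exact fun h => absurd h (by decide)
  refine List.Pairwise.cons (fun d hd => ?_) ?_
  · simp only [List.mem_cons, List.not_mem_nil, or_false] at hd
    rcases hd with rfl | rfl | rfl | rfl
    · exact fun h => absurd h (by decide)
    · exact fun h => absurd h (by decide)
    · exact fun h => absurd h (by decide)
    · exact fun h => absurd h (by decide)
  refine List.Pairwise.cons (fun d hd => ?_) ?_
  · simp only [List.mem_cons, List.not_mem_nil, or_false] at hd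
    rcases hd with rfl | rfl | rfl
    · exact fun h => absurd h (by decide)
    · exact fun h => absurd h (by decide)
    · exact fun h => absurd h (by decide)
  refine List.Pairwise.cons (fun d hd => ?_) ?_
  · simp only [List.mem_cons, List.not_mem_nil, or_false] at hd
    rcases hd with rfl | rfl
    · exact fun h => absurd h (by decide)
    · exact fun h => absurd h (by decide)
  refine List.Pairwise.cons (fun d hd => ?_) ?_
  · simp only [List.mem_cons, List.not_mem_nil, or_false] at hd
    subst hd
    exact fun _ => D12_n7_8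
  exact List.Pairwise.cons (fun d hd => absurd hd List.not_mem_nil) List.Pairwise.nil

end Pool.Agent.LS3
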