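import Pool.Agent.Lib.MP_2c0b9b_co_S3.Defs

/-!
# Large sets of strength three: sharply three-transitive groups
-/

set_option autoImplicit false

open Finset
open scoped Pointwise

namespace Pool.Agent.LS3

variable {α : Type*} [DecidableEq α] [Fintype α] {Γ : Subgroup (Equiv.Perm α)}

private def pick (c : ℕ) (x y z : α) : Finset α :=
  if c = 0 then ∅ else if c = 1 then {x} else if c = 2 then {x, y} else {x, y, z}

private lemma exists_new (S : Finset α) (hS : S.card < Fintype.card α) : ∃ y, y ∉ S := by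
  by_contra h
  push Not at h
  have h1 : S = univ := eq_univ_of_forall h
  rw [h1, card_univ] at hS
  exact lt_irrefl _ hS

private lemma exists_pick (h3 : 3 ≤ Fintype.card α) (T : Finset α) (hT : T.card < 4) :
    ∃ x y z : α, x ≠ y ∧ x ≠ z ∧ y ≠ z ∧ T = pick T.card x y z := by
  obtain hc | hc | hc | hc : T.card = 0 ∨ T.card = 1 ∨ T.card = 2 ∨ T.card = 3 := by omega
  · obtain ⟨x, hx⟩ := exists_new (∅ : Finset α) (by rw [card_empty]; omega)
    obtain ⟨y, hy⟩ := exists_new ({x} : Finset α) (by rw [card_singleton]; omega)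
    obtain ⟨z, hz⟩ := exists_new ({x, y} : Finset α) (by
      have := card_le_two (a := x) (b := y); omega)
    simp only [mem_singleton] at hy
    simp only [mem_insert, mem_singleton, not_or] at hz
    refine ⟨x, y, z, fun e => hy e.symm, fun e => hz.1 e.symm, fun e => hz.2 e.symm, ?_⟩
    rw [hc, pick, if_pos rfl]
    exact card_eq_zero.1 hc
  · obtain ⟨x, hx⟩ := card_eq_one.1 hc
    obtain ⟨y, hy⟩ := exists_new ({x} : Finset α) (by rw [card_singleton]; omega)
    obtain ⟨z, hz⟩ := exists_new ({x, y} : Finset α) (by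
      have := card_le_two (a := x) (b := y); omega)
    simp only [mem_singleton] at hy
    simp only [mem_insert, mem_singleton, not_or] at hz
    refine ⟨x, y, z, fun e => hy e.symm, fun e => hz.1 e.symm, fun e => hz.2 e.symm, ?_⟩
    rw [hc, pick, if_neg (by norm_num), if_pos rfl]
    exact hx
  · obtain ⟨x, y, hxy, hT'⟩ := card_eq_two.1 hc
    obtain ⟨z, hz⟩ := exists_new ({x, y} : Finset α) (by
      have := card_le_two (a := x) (b := y); omega)
    simp only [mem_insert, mem_singleton, not_or] at hz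
    refine ⟨x, y, z, hxy, fun e => hz.1 e.symm, fun e => hz.2 e.symm, ?_⟩
    rw [hc, pick, if_neg (by norm_num), if_neg (by norm_num), if_pos rfl]
    exact hT'
  · obtain ⟨x, y, z, hxy, hxz, hyz, hT'⟩ := card_eq_three.1 hc
    refine ⟨x, y, z, hxy, hxz, hyz, ?_⟩
    rw [hc, pick, if_neg (by norm_num), if_neg (by norm_num), if_neg (by norm_num)]
    exact hT'

private lemma smul_pick (g : Γ) (c : ℕ) (x y z : α) :
    g • pick c x y z = pick c (g • x) (g • y) (g • z) := by
  unfold pick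
  split_ifs <;> simp [Finset.smul_finset_insert]

theorem Sharp.htrans (h : Sharp Γ) (h3 : 3 ≤ Fintype.card α) :
    ∀ T T' : Finset α, T.card < 4 → T'.card = T.card → ∃ g : Γ, g • T = T' := by
  intro T T' hT hT'
  obtain ⟨x, y, z, hxy, hxz, hyz, e⟩ := exists_pick h3 T hT
  obtain ⟨x', y', z', hxy', hxz', hyz', e'⟩ := exists_pick h3 T' (hT' ▸ hT)
  obtain ⟨σ, hσ, h1, h2, h4⟩ := h.trans x y z x' y' z' hxy hxz hyz hxy' hxz' hyz'
  refine ⟨⟨σ, hσ⟩, ?_⟩
  rw [e, smul_pick, e', hT']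
  have f1 : (⟨σ, hσ⟩ : Γ) • x = x' := h1
  have f2 : (⟨σ, hσ⟩ : Γ) • y = y' := h2
  have f3 : (⟨σ, hσ⟩ : Γ) • z = z' := h4
  rw [f1, f2, f3]

/-- the triples of distinct points of `B` -/
private def tri (B : Finset α) : Finset ((α × α) × α) :=
  (B.offDiag ×ˢ B).filter (fun p => p.2 ≠ p.1.1 ∧ p.2 ≠ p.1.2)

private lemma mem_tri {B : Finset α} {p : (α × α) × α} : p ∈ tri B ↔
    (p.1.1 ∈ B ∧ p.1.2 ∈ B ∧ p.2 ∈ B) ∧ p.1.1 ≠ p.1.2 ∧ p.1.1 ≠ p.2 ∧ p.1.2 ≠ p.2 := by
  unfold tri
  rw [mem_filter, mem_product, mem_offDiag]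
  constructor
  · rintro ⟨⟨⟨h1, h2, h3⟩, h4⟩, h5, h6⟩
    exact ⟨⟨h1, h2, h4⟩, h3, h5.symm, h6.symm⟩
  · rintro ⟨⟨h1, h2, h4⟩, h3, h5, h6⟩
    exact ⟨⟨⟨h1, h2, h3⟩, h4⟩, h5.symm, h6.symm⟩

private lemma card_offDiag' (B : Finset α) : B.offDiag.card = B.card * (B.card - 1) := by
  rw [offDiag_card, Nat.mul_sub_one]

private lemma card_tri (B : Finset α) : (tri B).card = B.card * (B.card - 1) * (B.card - 2) := by
  unfold tri
  rw [card_filter, sum_product]
  have h1 : ∀ q ∈ B.offDiag, (∑ z ∈ B, if (q, z).2 ≠ (q, z).1.1 ∧ (q, z).2 ≠ (q, z).1.2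
      then 1 else 0) = B.card - 2 := by
    intro q hq
    rw [mem_offDiag] at hq
    rw [← card_filter]
    have h2 : B.filter (fun z => (q, z).2 ≠ (q, z).1.1 ∧ (q, z).2 ≠ (q, z).1.2) =
        (B.erase q.1).erase q.2 := by
      ext z
      simp only [mem_filter, mem_erase]
      tauto
    rw [h2, card_erase_of_mem (mem_erase.2 ⟨hq.2.2.symm, hq.2.1⟩), card_erase_of_mem hq.1]
    omega
  rw [sum_const_nat h1, card_offDiag']

theorem Sharp.card (h : Sharp Γ) (h3 : 3 ≤ Fintype.card α) :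
    Nat.card Γ = Fintype.card α * (Fintype.card α - 1) * (Fintype.card α - 2) := by
  classical
  obtain ⟨x, y, z, hxy, hxz, hyz, -⟩ := exists_pick h3 (∅ : Finset α) (by simp)
  have hf : Fintype Γ := Fintype.ofFinite Γ
  rw [Nat.card_eq_fintype_card, ← card_univ, ← card_univ, ← card_tri]
  refine Finset.card_nbij (fun g : Γ => (((g : Equiv.Perm α) x, (g : Equiv.Perm α) y),
    (g : Equiv.Perm α) z)) ?_ ?_ ?_
  · intro g _
    simp only [mem_coe, mem_tri, mem_univ, true_and, and_self]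
    exact ⟨fun e => hxy ((g : Equiv.Perm α).injective e),
      fun e => hxz ((g : Equiv.Perm α).injective e),
      fun e => hyz ((g : Equiv.Perm α).injective e)⟩
  · intro g _ g' _ e
    simp only [Prod.mk.injEq] at e
    obtain ⟨⟨e1, e2⟩, e3⟩ := e
    have h1 : ((g'⁻¹ * g : Γ) : Equiv.Perm α) = 1 := by
      refine h.free _ (g'⁻¹ * g : Γ).2 x y z hxy hxz hyz ?_ ?_ ?_
      · simp only [Subgroup.coe_mul, Subgroup.coe_inv, Equiv.Perm.mul_apply]
        rw [e1, Equiv.Perm.inv_eq_iff_eq]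
      · simp only [Subgroup.coe_mul, Subgroup.coe_inv, Equiv.Perm.mul_apply]
        rw [e2, Equiv.Perm.inv_eq_iff_eq]
      · simp only [Subgroup.coe_mul, Subgroup.coe_inv, Equiv.Perm.mul_apply]
        rw [e3, Equiv.Perm.inv_eq_iff_eq]
    have h2 : g'⁻¹ * g = 1 := Subtype.ext h1
    exact (inv_mul_eq_one.1 h2).symm
  · intro p hp
    simp only [mem_coe, mem_tri] at hp
    obtain ⟨-, h1, h2, h4⟩ := hp
    obtain ⟨σ, hσ, f1, f2, f3⟩ := h.trans x y z p.1.1 p.1.2 p.2 hxy hxz hyz h1 h2 h4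
    refine ⟨⟨σ, hσ⟩, by simp, ?_⟩
    simp only [f1, f2, f3]

private lemma dvd_of_free {H X : Type*} [Group H] [Finite H] [MulAction H X] [DecidableEq X]
    (n : ℕ) : ∀ Y : Finset X, Y.card = n → (∀ (h : H), ∀ y ∈ Y, h • y ∈ Y) →
    (∀ (h : H), ∀ y ∈ Y, h • y = y → h = 1) → Nat.card H ∣ Y.card := by
  classical
  have hf : Fintype H := Fintype.ofFinite H
  induction n using Nat.strong_induction_on with
  | _ n ih =>
    intro Y hY hinv hfree
    rcases Y.eq_empty_or_nonempty with rfl | ⟨y, hy⟩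
    · simp
    set O : Finset X := (univ : Finset H).image (fun h => h • y) with hO
    have hOY : O ⊆ Y := by
      intro x hx
      rw [hO, mem_image] at hx
      obtain ⟨h, -, rfl⟩ := hx
      exact hinv h y hy
    have hOc : O.card = Nat.card H := by
      rw [hO, card_image_of_injective, card_univ, Nat.card_eq_fintype_card]
      intro h h' e
      have e' : h • y = h' • y := e
      have h1 : (h'⁻¹ * h) • y = y := by rw [mul_smul, e', inv_smul_smul]
      exact (inv_mul_eq_one.1 (hfree _ y hy h1)).symm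
    have hyO : y ∈ O := by
      rw [hO, mem_image]
      exact ⟨1, mem_univ _, one_smul _ _⟩
    have hsum : (Y \ O).card + O.card = Y.card := card_sdiff_add_card_eq_card hOY
    have hpos : 0 < O.card := card_pos.2 ⟨y, hyO⟩
    have hd := ih (Y \ O).card (by omega) (Y \ O) rfl (fun h x hx => by
      rw [mem_sdiff] at hx ⊢
      refine ⟨hinv h x hx.1, fun hxO => hx.2 ?_⟩
      rw [hO, mem_image] at hxO ⊢
      obtain ⟨h', -, e⟩ := hxO
      refine ⟨h⁻¹ * h', mem_univ _, ?_⟩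
      rw [mul_smul, e, inv_smul_smul]) (fun h x hx => hfree h x (mem_sdiff.1 hx).1)
    rw [← hsum]
    exact dvd_add hd (by rw [hOc])

/-- the stabiliser of a `k`-set acts freely on the ordered triples of points of given type -/
theorem Sharp.stc_dvd (h : Sharp Γ) {B : Finset α} {k c : ℕ} (hk : B.card = k)
    (hc : Fintype.card α = k + c) :
    stc Γ B ∣ k * (k - 1) * (k - 2) ∧ stc Γ B ∣ c * (c - 1) * (c - 2) ∧
      stc Γ B ∣ k * (k - 1) * c ∧ stc Γ B ∣ k * (c * (c - 1)) ∧ stc Γ B ∣ Nat.card Γ := by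
  classical
  have hBc : (Bᶜ).card = c := by rw [card_compl, hk, hc]; omega
  have hfree : ∀ (g : MulAction.stabilizer Γ B) (x y z : α), x ≠ y → x ≠ z → y ≠ z →
      g • x = x → g • y = y → g • z = z → g = 1 := by
    intro g x y z hxy hxz hyz e1 e2 e3
    have h1 := h.free _ (g : Γ).2 x y z hxy hxz hyz e1 e2 e3
    exact Subtype.ext (Subtype.ext h1)
  have hB : ∀ (g : MulAction.stabilizer Γ B) (x : α), x ∈ B → g • x ∈ B := by
    intro g x hx
    have h1 : (g : Γ) • B = B := g.2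
    have h2 : (g : Γ) • x ∈ (g : Γ) • B := smul_mem_smul_finset hx
    rw [h1] at h2
    exact h2
  have hB' : ∀ (g : MulAction.stabilizer Γ B) (x : α), x ∈ Bᶜ → g • x ∈ Bᶜ := by
    intro g x hx
    rw [mem_compl] at hx ⊢
    intro hgx
    have h1 := hB g⁻¹ _ hgx
    rw [inv_smul_smul] at h1
    exact hx h1
  have hne : ∀ (g : MulAction.stabilizer Γ B) {x y : α}, x ≠ y → g • x ≠ g • y := by
    intro g x y hxy e
    exact hxy (MulAction.injective g e)
  have htri : ∀ A : Finset α, (∀ (g : MulAction.stabilizer Γ B) (x : α), x ∈ A → g • x ∈ A) →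
      stc Γ B ∣ A.card * (A.card - 1) * (A.card - 2) := by
    intro A hA
    rw [← card_tri]
    refine dvd_of_free (H := MulAction.stabilizer Γ B) _ (tri A) rfl ?_ ?_
    · intro g p hp
      rw [mem_tri] at hp ⊢
      obtain ⟨⟨h1, h2, h3⟩, h4, h5, h6⟩ := hp
      exact ⟨⟨hA g _ h1, hA g _ h2, hA g _ h3⟩, hne g h4, hne g h5, hne g h6⟩
    · intro g p hp e
      rw [mem_tri] at hp
      obtain ⟨-, h4, h5, h6⟩ := hp
      exact hfree g _ _ _ h4 h5 h6 (congrArg (fun q => q.1.1) e) (congrArg (fun q => q.1.2) e)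
        (congrArg (fun q => q.2) e)
  refine ⟨?_, ?_, ?_, ?_, Subgroup.card_subgroup_dvd_card _⟩
  · have := htri B hB
    rwa [hk] at this
  · have := htri Bᶜ hB'
    rwa [hBc] at this
  · have h1 : (B.offDiag ×ˢ Bᶜ).card = k * (k - 1) * c := by
      rw [card_product, card_offDiag', hk, hBc]
    rw [← h1]
    refine dvd_of_free (H := MulAction.stabilizer Γ B) _ (B.offDiag ×ˢ Bᶜ) rfl ?_ ?_
    · intro g p hp
      rw [mem_product, mem_offDiag] at hp ⊢
      exact ⟨⟨hB g _ hp.1.1, hB g _ hp.1.2.1, hne g hp.1.2.2⟩, hB' g _ hp.2⟩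
    · intro g p hp e
      rw [mem_product, mem_offDiag, mem_compl] at hp
      have n1 : p.1.1 ≠ p.2 := fun e => hp.2 (e ▸ hp.1.1)
      have n2 : p.1.2 ≠ p.2 := fun e => hp.2 (e ▸ hp.1.2.1)
      exact hfree g _ _ _ hp.1.2.2 n1 n2
        (congrArg (fun q => q.1.1) e) (congrArg (fun q => q.1.2) e) (congrArg (fun q => q.2) e)
  · have h1 : (B ×ˢ (Bᶜ).offDiag).card = k * (c * (c - 1)) := by
      rw [card_product, card_offDiag', hk, hBc]
    rw [← h1]
    refine dvd_of_free (H := MulAction.stabilizer Γ B) _ (B ×ˢ (Bᶜ).offDiag) rfl ?_ ?_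
    · intro g p hp
      rw [mem_product, mem_offDiag] at hp ⊢
      exact ⟨hB g _ hp.1, hB' g _ hp.2.1, hB' g _ hp.2.2.1, hne g hp.2.2.2⟩
    · intro g p hp e
      rw [mem_product, mem_offDiag, mem_compl, mem_compl] at hp
      have n1 : p.1 ≠ p.2.1 := fun e => hp.2.1 (e ▸ hp.1)
      have n2 : p.1 ≠ p.2.2 := fun e => hp.2.2.1 (e ▸ hp.1)
      exact hfree g _ _ _ n1 n2 hp.2.2.2
        (congrArg (fun q => q.1) e) (congrArg (fun q => q.2.1) e) (congrArg (fun q => q.2.2) e)

end Pool.Agent.LS3
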