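import Pool.Agent.Lib.MP_2c0b9b_co_S3.Defs
import Pool.Agent.Lib.MP_2c0b9b_co_S3.Shp
import Pool.Agent.Lib.MP_2c0b9b_co.Calc1

/-!
# Large sets of strength three: the group `PGL(2, q)` on the projective line
-/

set_option autoImplicit false

open Finset
open scoped Pointwise

namespace Pool.Agent.LS3

variable (q : ℕ) [Fact q.Prime]

theorem card_PL : Fintype.card (PL q) = q + 1 := by
  have h : Fintype.card (PL q) = Fintype.card (Option (ZMod q)) :=
    Fintype.card_congr (Equiv.refl _)
  rw [h, Fintype.card_option, ZMod.card]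

/-- the permutation of the projective line given by a matrix -/
theorem PG_mk (a b c d : ZMod q) (h : a * d - b * c ≠ 0) : ∃ σ ∈ PG q,
    (∀ x : ZMod q, c * x + d ≠ 0 → σ (x : PL q) = (((a * x + b) / (c * x + d) : ZMod q) : PL q)) ∧
    (∀ x : ZMod q, c * x + d = 0 → σ (x : PL q) = OnePoint.infty) ∧
    (c ≠ 0 → σ OnePoint.infty = ((a / c : ZMod q) : PL q)) ∧
    (c = 0 → σ OnePoint.infty = OnePoint.infty) := by
  have hdet : Matrix.det !![a, b; c, d] ≠ 0 := by
    rw [Matrix.det_fin_two_of]
    exact h
  let g : Matrix.GeneralLinearGroup (Fin 2) (ZMod q) :=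
    Matrix.GeneralLinearGroup.mkOfDetNeZero !![a, b; c, d] hdet
  have e00 : g 0 0 = a := rfl
  have e01 : g 0 1 = b := rfl
  have e10 : g 1 0 = c := rfl
  have e11 : g 1 1 = d := rfl
  refine ⟨MulAction.toPermHom _ (PL q) g, ⟨g, rfl⟩, ?_, ?_, ?_, ?_⟩
  · intro x hx
    show g • (x : OnePoint (ZMod q)) = _
    rw [OnePoint.smul_some_eq_ite, e00, e01, e10, e11, if_neg hx]
  · intro x hx
    show g • (x : OnePoint (ZMod q)) = _
    rw [OnePoint.smul_some_eq_ite, e10, e11, if_pos hx]
  · intro hc
    show g • (OnePoint.infty : OnePoint (ZMod q)) = _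
    rw [OnePoint.smul_infty_eq_ite, e00, e10, if_neg hc]
  · intro hc
    show g • (OnePoint.infty : OnePoint (ZMod q)) = _
    rw [OnePoint.smul_infty_eq_ite, e10, if_pos hc]

theorem PG_out {σ : Equiv.Perm (PL q)} (hσ : σ ∈ PG q) : ∃ a b c d : ZMod q, a * d - b * c ≠ 0 ∧
    (∀ x : ZMod q, c * x + d ≠ 0 → σ (x : PL q) = (((a * x + b) / (c * x + d) : ZMod q) : PL q)) ∧
    (∀ x : ZMod q, c * x + d = 0 → σ (x : PL q) = OnePoint.infty) ∧
    (c ≠ 0 → σ OnePoint.infty = ((a / c : ZMod q) : PL q)) ∧
    (c = 0 → σ OnePoint.infty = OnePoint.infty) := by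
  obtain ⟨g, rfl⟩ := hσ
  refine ⟨g 0 0, g 0 1, g 1 0, g 1 1, ?_, ?_, ?_, ?_, ?_⟩
  · have h := g.det_ne_zero
    rw [Matrix.det_fin_two] at h
    exact h
  · intro x hx
    show g • (x : OnePoint (ZMod q)) = _
    rw [OnePoint.smul_some_eq_ite, if_neg hx]
  · intro x hx
    show g • (x : OnePoint (ZMod q)) = _
    rw [OnePoint.smul_some_eq_ite, if_pos hx]
  · intro hc
    show g • (OnePoint.infty : OnePoint (ZMod q)) = _
    rw [OnePoint.smul_infty_eq_ite, if_neg hc]
  · intro hc
    show g • (OnePoint.infty : OnePoint (ZMod q)) = _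
    rw [OnePoint.smul_infty_eq_ite, if_pos hc]

/-- every triple of distinct points is the image of `(∞, 0, 1)` -/
private theorem Pgl_base (x y z : PL q) (hxy : x ≠ y) (hxz : x ≠ z) (hyz : y ≠ z) :
    ∃ σ ∈ PG q, σ OnePoint.infty = x ∧ σ ((0 : ZMod q) : PL q) = y ∧
      σ ((1 : ZMod q) : PL q) = z := by
  induction x using OnePoint.rec with
  | infty =>
    induction y using OnePoint.rec with
    | infty => exact (hxy rfl).elim
    | coe y =>
      induction z using OnePoint.rec with
      | infty => exact (hxz rfl).elim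
      | coe z =>
        have hne : y ≠ z := fun h => hyz (by rw [h])
        obtain ⟨σ, hσ, h1, h2, h3, h4⟩ := PG_mk q (z - y) y 0 1 (by
          rw [mul_one, mul_zero, sub_zero]
          exact sub_ne_zero.2 hne.symm)
        refine ⟨σ, hσ, h4 rfl, ?_, ?_⟩
        · rw [h1 0 (by simp)]
          simp
        · rw [h1 1 (by simp)]
          simp
  | coe x =>
    induction y using OnePoint.rec with
    | infty =>
      induction z using OnePoint.rec with
      | infty => exact (hyz rfl).elim
      | coe z =>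
        have hne : x ≠ z := fun h => hxz (by rw [h])
        obtain ⟨σ, hσ, h1, h2, h3, h4⟩ := PG_mk q x (z - x) 1 0 (by
          rw [mul_zero, zero_sub, mul_one, neg_ne_zero]
          exact sub_ne_zero.2 hne.symm)
        refine ⟨σ, hσ, ?_, ?_, ?_⟩
        · rw [h3 one_ne_zero, div_one]
        · exact h2 0 (by simp)
        · rw [h1 1 (by simp)]
          simp
    | coe y =>
      have hne : x ≠ y := fun h => hxy (by rw [h])
      induction z using OnePoint.rec with
      | infty =>
        obtain ⟨σ, hσ, h1, h2, h3, h4⟩ := PG_mk q x (-y) 1 (-1) (by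
          have h5 : x * -1 - -y * 1 = y - x := by ring
          rw [h5]
          exact sub_ne_zero.2 hne.symm)
        refine ⟨σ, hσ, ?_, ?_, ?_⟩
        · rw [h3 one_ne_zero, div_one]
        · rw [h1 0 (by simp)]
          simp
        · exact h2 1 (by simp)
      | coe z =>
        have hne2 : x ≠ z := fun h => hxz (by rw [h])
        have hne3 : y ≠ z := fun h => hyz (by rw [h])
        have k1 : x - y ≠ 0 := sub_ne_zero.2 hne
        have k2 : x - z ≠ 0 := sub_ne_zero.2 hne2
        have k3 : z - y ≠ 0 := sub_ne_zero.2 hne3.symm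
        obtain ⟨σ, hσ, h1, h2, h3, h4⟩ := PG_mk q (x * (z - y)) (y * (x - z)) (z - y) (x - z) (by
          have h5 : x * (z - y) * (x - z) - y * (x - z) * (z - y) =
            (x - y) * ((z - y) * (x - z)) := by ring
          rw [h5]
          exact mul_ne_zero k1 (mul_ne_zero k3 k2))
        refine ⟨σ, hσ, ?_, ?_, ?_⟩
        · rw [h3 k3, mul_div_assoc, div_self k3, mul_one]
        · rw [h1 0 (by rw [mul_zero, zero_add]; exact k2), mul_zero, zero_add, mul_zero, zero_add,
            mul_div_assoc, div_self k2, mul_one]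
        · have h6 : (z - y) * 1 + (x - z) = x - y := by ring
          have h7 : x * (z - y) * 1 + y * (x - z) = z * (x - y) := by ring
          rw [h1 1 (by rw [h6]; exact k1), h6, h7, mul_div_assoc, div_self k1, mul_one]

/-- the scalar matrices act trivially -/
private theorem Pgl_one {σ : Equiv.Perm (PL q)} {a b c d : ZMod q} (hdet : a * d - b * c ≠ 0)
    (h1 : ∀ x : ZMod q, c * x + d ≠ 0 → σ (x : PL q) = (((a * x + b) / (c * x + d) : ZMod q) : PL q))
    (h4 : c = 0 → σ OnePoint.infty = OnePoint.infty)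
    (hc : c = 0) (hb : b = 0) (hd : d = a) : σ = 1 := by
  subst hc hb hd
  have ha : d ≠ 0 := by
    intro h
    apply hdet
    rw [h]
    ring
  ext x
  induction x using OnePoint.rec with
  | infty =>
    rw [h4 rfl]
    rfl
  | coe x =>
    have e1 : (0 : ZMod q) * x + d = d := by ring
    rw [h1 x (by rw [e1]; exact ha), e1, add_zero, mul_comm d x, mul_div_assoc, div_self ha,
      mul_one]
    rfl

/-- the equation of a finite fixed point -/
private theorem Pgl_fix {σ : Equiv.Perm (PL q)} {a b c d : ZMod q}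
    (h1 : ∀ x : ZMod q, c * x + d ≠ 0 → σ (x : PL q) = (((a * x + b) / (c * x + d) : ZMod q) : PL q))
    (h2 : ∀ x : ZMod q, c * x + d = 0 → σ (x : PL q) = OnePoint.infty)
    {x : ZMod q} (hx : σ (x : PL q) = x) : a * x + b = x * (c * x + d) := by
  by_cases h : c * x + d = 0
  · rw [h2 x h] at hx
    exact (OnePoint.infty_ne_coe _ hx).elim
  · rw [h1 x h] at hx
    have h3 := OnePoint.coe_injective hx
    rw [div_eq_iff h] at h3
    exact h3

private theorem Pgl_inf {σ : Equiv.Perm (PL q)} {a c : ZMod q}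
    (h3 : c ≠ 0 → σ OnePoint.infty = ((a / c : ZMod q) : PL q))
    (hx : σ OnePoint.infty = OnePoint.infty) : c = 0 := by
  by_contra h
  rw [h3 h] at hx
  exact OnePoint.infty_ne_coe _ hx.symm

private theorem Pgl_two {σ : Equiv.Perm (PL q)} {a b c d : ZMod q} (hdet : a * d - b * c ≠ 0)
    (h1 : ∀ x : ZMod q, c * x + d ≠ 0 → σ (x : PL q) = (((a * x + b) / (c * x + d) : ZMod q) : PL q))
    (h2 : ∀ x : ZMod q, c * x + d = 0 → σ (x : PL q) = OnePoint.infty)
    (h3 : c ≠ 0 → σ OnePoint.infty = ((a / c : ZMod q) : PL q))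
    (h4 : c = 0 → σ OnePoint.infty = OnePoint.infty)
    (hi : σ OnePoint.infty = OnePoint.infty) {x y : ZMod q} (hxy : x ≠ y)
    (hx : σ (x : PL q) = x) (hy : σ (y : PL q) = y) : σ = 1 := by
  have hc := Pgl_inf q h3 hi
  have ex := Pgl_fix q h1 h2 hx
  have ey := Pgl_fix q h1 h2 hy
  rw [hc] at ex ey
  have e1 : (d - a) * (x - y) = 0 := by linear_combination ey - ex
  have e2 : d - a = 0 := (mul_eq_zero.1 e1).resolve_right (sub_ne_zero.2 hxy)
  have hd : d = a := sub_eq_zero.1 e2
  have hb : b = 0 := by
    rw [hd] at ex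
    linear_combination ex
  exact Pgl_one q hdet h1 h4 hc hb hd

theorem sharp_PG : Sharp (PG q) := by
  constructor
  · intro x y z x' y' z' hxy hxz hyz hxy' hxz' hyz'
    obtain ⟨σ, hσ, h1, h2, h3⟩ := Pgl_base q x y z hxy hxz hyz
    obtain ⟨τ, hτ, k1, k2, k3⟩ := Pgl_base q x' y' z' hxy' hxz' hyz'
    refine ⟨τ * σ⁻¹, (PG q).mul_mem hτ ((PG q).inv_mem hσ), ?_, ?_, ?_⟩
    · rw [Equiv.Perm.mul_apply, Equiv.Perm.inv_eq_iff_eq.2 h1.symm, k1]
    · rw [Equiv.Perm.mul_apply, Equiv.Perm.inv_eq_iff_eq.2 h2.symm, k2]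
    · rw [Equiv.Perm.mul_apply, Equiv.Perm.inv_eq_iff_eq.2 h3.symm, k3]
  · intro σ hσ x y z hxy hxz hyz hx hy hz
    obtain ⟨a, b, c, d, hdet, h1, h2, h3, h4⟩ := PG_out q hσ
    induction x using OnePoint.rec with
    | infty =>
      induction y using OnePoint.rec with
      | infty => exact (hxy rfl).elim
      | coe y =>
        induction z using OnePoint.rec with
        | infty => exact (hxz rfl).elim
        | coe z =>
          exact Pgl_two q hdet h1 h2 h3 h4 hx (fun h => hyz (by rw [h])) hy hz
    | coe x =>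
      induction y using OnePoint.rec with
      | infty =>
        induction z using OnePoint.rec with
        | infty => exact (hyz rfl).elim
        | coe z =>
          exact Pgl_two q hdet h1 h2 h3 h4 hy (fun h => hxz (by rw [h])) hx hz
      | coe y =>
        have n1 : x ≠ y := fun h => hxy (by rw [h])
        induction z using OnePoint.rec with
        | infty => exact Pgl_two q hdet h1 h2 h3 h4 hz n1 hx hy
        | coe z =>
          have n2 : x ≠ z := fun h => hxz (by rw [h])
          have n3 : y ≠ z := fun h => hyz (by rw [h])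
          have ex := Pgl_fix q h1 h2 hx
          have ey := Pgl_fix q h1 h2 hy
          have ez := Pgl_fix q h1 h2 hz
          have f1 : (x - y) * (c * (x + y) + (d - a)) = 0 := by linear_combination ey - ex
          have f2 : (x - z) * (c * (x + z) + (d - a)) = 0 := by linear_combination ez - ex
          have g1 := (mul_eq_zero.1 f1).resolve_left (sub_ne_zero.2 n1)
          have g2 := (mul_eq_zero.1 f2).resolve_left (sub_ne_zero.2 n2)
          have g3 : c * (y - z) = 0 := by linear_combination g1 - g2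
          have hc : c = 0 := (mul_eq_zero.1 g3).resolve_right (sub_ne_zero.2 n3)
          have hd : d = a := by
            rw [hc] at g1
            linear_combination g1
          have hb : b = 0 := by
            rw [hc, hd] at ex
            linear_combination ex
          exact Pgl_one q hdet h1 h4 hc hb hd

theorem card_PG : Nat.card (PG q) = (q + 1) * q * (q - 1) := by
  have h2 : 2 ≤ q := (Fact.out : q.Prime).two_le
  have h := (sharp_PG q).card (by rw [card_PL]; omega)
  rw [card_PL] at h
  rw [h]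
  congr 1

theorem G_of_good {r k : ℕ} (h : Good r (powersetCard k (univ : Finset (PL q)))) :
    G r k (q + 1) := by
  have h1 := (good_powersetCard_iff (r := r) (k := k) (univ : Finset (PL q))).1 h
  rwa [Finset.card_univ, card_PL] at h1

end Pool.Agent.LS3
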