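import Pool.Agent.Lib.MP_2c0b9b_co_S3.OrbW
import Pool.Agent.Lib.MP_2c0b9b_co_S3.Pgl
import Pool.Agent.Lib.MP_2c0b9b_co_S3.Shp

/-!
# Large sets of strength three: large sets from the orbits of `PGL(2, q)`
-/

set_option autoImplicit false

open Finset
open scoped Pointwise

namespace Pool.Agent.LS3

variable {q : ℕ} [Fact q.Prime]

/-- the representatives of the coins -/
noncomputable def crep (q : ℕ) [Fact q.Prime] (C : List (List ℕ × ℕ)) : List (Finset (PL q)) :=
  C.map fun c => orep (PG q) (St q c.1)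

theorem crep_spec {k : ℕ} {C : List (List ℕ × ℕ)} (hC : IsCoins q k C) :
    (crep q C).Nodup ∧ (∀ R ∈ crep q C, R ∈ reps (PG q) k) ∧
      (crep q C).map (fun R => stc (PG q) R) = C.map fun c => c.2 := by
  refine ⟨?_, ?_, ?_⟩
  · unfold crep
    rw [List.Nodup, List.pairwise_map]
    refine List.Pairwise.imp_of_mem ?_ hC.ne
    intro c d hc hd hne heq
    have h1 : stc (PG q) (St q c.1) = stc (PG q) (St q d.1) := by
      rw [← stc_orep (Γ := PG q) (St q c.1), ← stc_orep (Γ := PG q) (St q d.1), heq]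
    rw [hC.stab c hc, hC.stab d hd] at h1
    obtain ⟨g, hg⟩ := orep_eq_iff.1 heq
    refine hne h1 g⁻¹ ?_
    rw [← hg]
    exact inv_smul_smul g _
  · intro R hR
    obtain ⟨c, hc, rfl⟩ := List.mem_map.1 hR
    exact orep_mem_reps (hC.card c hc)
  · unfold crep
    rw [List.map_map]
    refine List.map_congr_left fun c hc => ?_
    show stc (PG q) (orep (PG q) (St q c.1)) = c.2
    rw [stc_orep, hC.stab c hc]

/-- the order of the stabiliser of a `k`-set divides `g` -/
theorem stc_dvd_of_gcd {k g : ℕ} (hk : k ≤ q + 1)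
    (hg : Nat.gcd (k * (k - 1) * (k - 2)) (Nat.gcd ((q + 1 - k) * (q + 1 - k - 1) * (q + 1 - k - 2))
      (Nat.gcd (k * (k - 1) * (q + 1 - k)) (Nat.gcd (k * ((q + 1 - k) * (q + 1 - k - 1)))
        ((q + 1) * q * (q - 1))))) = g) (B : Finset (PL q)) (hB : B.card = k) :
    stc (PG q) B ∣ g := by
  have hc : Fintype.card (PL q) = k + (q + 1 - k) := by
    rw [card_PL]
    omega
  obtain ⟨h1, h2, h3, h4, h5⟩ := (sharp_PG q).stc_dvd hB hc
  rw [card_PG] at h5
  rw [← hg]
  exact Nat.dvd_gcd h1 (Nat.dvd_gcd h2 (Nat.dvd_gcd h3 (Nat.dvd_gcd h4 h5)))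

end Pool.Agent.LS3
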