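import Pool.Agent.Lib.MP_2c0b9b_co_S3.DistB
import Pool.Agent.Lib.MP_2c0b9b_co_S3.GenA

/-!
# Large sets of strength three: large sets from the orbits of `PGL(2, q)`, three cases
-/

set_option autoImplicit false

open Finset
open scoped Pointwise

namespace Pool.Agent.LS3

variable {q : ℕ} [Fact q.Prime]

private theorem GenB_map {C : List (List ℕ × ℕ)} (g : ℕ)
    (h : (crep q C).map (fun R => stc (PG q) R) = C.map fun c => c.2) :
    (crep q C).map (fun R => g / stc (PG q) R) = C.map fun c => g / c.2 := by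
  have h2 := congrArg (List.map (fun s => g / s)) h
  rw [List.map_map, List.map_map] at h2
  exact h2

private theorem GenB_even {C : List (List ℕ × ℕ)} {g : ℕ} (hC2 : ∀ c ∈ C, Even (g / c.2))
    (h : (crep q C).map (fun R => g / stc (PG q) R) = C.map fun c => g / c.2) :
    ∀ R ∈ crep q C, Even (g / stc (PG q) R) := by
  intro R hR
  have h1 : g / stc (PG q) R ∈ C.map fun c => g / c.2 := by
    rw [← h]
    exact List.mem_map_of_mem hR
  obtain ⟨c, hc, hc2⟩ := List.mem_map.1 h1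
  rw [← hc2]
  exact hC2 c hc

private theorem GenB_half {g : ℕ} (hg2 : Even g) (R : Finset (PL q)) :
    (Even (g / stc (PG q) R) ∧ g / stc (PG q) R ≤ g) ∨ 2 * (g / stc (PG q) R) ≤ g := by
  have hs := stc_pos (Γ := PG q) R
  rcases Nat.lt_or_ge 1 (stc (PG q) R) with h | h
  · right
    have h1 : g / stc (PG q) R ≤ g / 2 := Nat.div_le_div_left h (by norm_num)
    omega
  · left
    have h1 : stc (PG q) R = 1 := by omega
    rw [h1, Nat.div_one]
    exact ⟨hg2, le_rfl⟩

private theorem GenB_core {k g u N : ℕ} (hg : 0 < g)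
    (hdv : ∀ B : Finset (PL q), B.card = k → stc (PG q) B ∣ g)
    (hu : u * g = (q + 1) * q * (q - 1)) (hN : (q + 1).choose k = 3 * (u * N)) :
    ∑ R ∈ reps (α := PL q) (PG q) k, g / stc (PG q) R = 3 * N ∧
    ∀ f : Finset (PL q) → ZMod 3,
      (∀ i, ∑ R ∈ (reps (α := PL q) (PG q) k).filter (fun R => f R = i),
        g / stc (PG q) R = N) →
      G 4 k (q + 1) := by
  have hq : 2 ≤ q := (Fact.out : q.Prime).two_le
  have hcard := card_PG q
  have hup : 0 < u := by
    rcases Nat.eq_zero_or_pos u with h | h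
    · exfalso
      rw [h, zero_mul] at hu
      have h1 : 0 < (q + 1) * q * (q - 1) := by
        have : 0 < q - 1 := by omega
        positivity
      omega
    · exact h
  have hosz : ∀ R ∈ reps (α := PL q) (PG q) k, osz (PG q) R = u * (g / stc (PG q) R) := by
    intro R hR
    have hs := stc_pos (Γ := PG q) R
    have h1 := osz_mul_stc (Γ := PG q) R
    rw [hcard, ← hu] at h1
    have h2 := Nat.div_mul_cancel (hdv R (of_mem_reps hR).1)
    refine Nat.eq_of_mul_eq_mul_right hs ?_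
    rw [h1, mul_assoc, h2]
  have hcl : 3 ≤ Fintype.card (PL q) := by
    rw [card_PL]
    omega
  refine ⟨?_, ?_⟩
  · have h1 := sum_osz (α := PL q) (Γ := PG q) k
    rw [card_PL, hN, sum_congr rfl hosz, ← mul_sum] at h1
    refine Nat.eq_of_mul_eq_mul_left hup ?_
    rw [h1]
    ring
  · intro f hf
    refine G_of_good q ?_
    refine good_of_reps (Γ := PG q) (N := u * N) ((sharp_PG q).htrans hcl) f fun i => ?_
    rw [sum_congr rfl fun R hR => hosz R (mem_filter.1 hR).1, ← mul_sum, hf i]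

private theorem GenB_sum (N : ℕ) : ∑ _i : ZMod 3, N = 3 * N := by
  rw [sum_const, card_univ, ZMod.card, smul_eq_mul]

theorem good_simple {k g u N : ℕ} (hg : 0 < g)
    (hdv : ∀ B : Finset (PL q), B.card = k → stc (PG q) B ∣ g)
    (hu : u * g = (q + 1) * q * (q - 1)) (hN : (q + 1).choose k = 3 * (u * N))
    (C : List (List ℕ × ℕ)) (hC : IsCoins q k C)
    (hT : tailOK 2 (C.map fun c => g / c.2) = true)
    (hX : 2 * g ≤ 2 + (C.map fun c => g / c.2).sum) : G 4 k (q + 1) := by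
  obtain ⟨hs, hf⟩ := GenB_core hg hdv hu hN
  obtain ⟨c1, c2, c3⟩ := crep_spec hC
  have c4 := GenB_map (q := q) g c3
  obtain ⟨f, h⟩ := dist_core 1 one_pos (reps (α := PL q) (PG q) k)
    (fun R => g / stc (PG q) R) (fun _ => N)
    (crep q C) c1 c2 (by rw [c4]; exact hT) g (fun R _ => Nat.div_le_self _ _)
    (by rw [c4]; exact hX) (fun _ _ => one_dvd _) (fun _ => one_dvd _) (by rw [GenB_sum, hs])
  exact hf f h

theorem good_even {k g u N : ℕ} (hg : 0 < g) (hg2 : Even g) (hN2 : Even N) (hgN : g * g ≤ N)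
    (hdv : ∀ B : Finset (PL q), B.card = k → stc (PG q) B ∣ g)
    (hu : u * g = (q + 1) * q * (q - 1)) (hN : (q + 1).choose k = 3 * (u * N))
    (C : List (List ℕ × ℕ)) (hC : IsCoins q k C) (hC2 : ∀ c ∈ C, Even (g / c.2))
    (hT : tailOK 4 (C.map fun c => g / c.2) = true)
    (hX : 2 * g ≤ 4 + (C.map fun c => g / c.2).sum) : G 4 k (q + 1) := by
  obtain ⟨hs, hf⟩ := GenB_core hg hdv hu hN
  obtain ⟨c1, c2, c3⟩ := crep_spec hC
  have c4 := GenB_map (q := q) g c3
  obtain ⟨f, h⟩ := dist_parity (reps (α := PL q) (PG q) k)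
    (fun R => g / stc (PG q) R) (fun _ => N)
    (crep q C) c1 c2 (by rw [c4]; exact hT) (GenB_even hC2 c4) g
    (by rw [c4]; exact hX) (fun R _ => GenB_half hg2 R) hN2 hN2 hgN (by rw [GenB_sum, hs])
  exact hf f h

theorem good_odd {k g u N : ℕ} (hg : 0 < g) (hg2 : Even g) (hN2 : Odd N) (hgN : g * g ≤ N)
    (hdv : ∀ B : Finset (PL q), B.card = k → stc (PG q) B ∣ g)
    (hu : u * g = (q + 1) * q * (q - 1)) (hN : (q + 1).choose k = 3 * (u * N))
    (o₁ o₂ : List ℕ × ℕ) (C : List (List ℕ × ℕ)) (hC : IsCoins q k (o₁ :: o₂ :: C))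
    (ho1 : Odd (g / o₁.2)) (ho2 : Odd (g / o₂.2)) (hC2 : ∀ c ∈ C, Even (g / c.2))
    (hT : tailOK 4 (C.map fun c => g / c.2) = true)
    (hX : 2 * g ≤ 4 + (C.map fun c => g / c.2).sum) : G 4 k (q + 1) := by
  obtain ⟨hs, hf⟩ := GenB_core hg hdv hu hN
  obtain ⟨c1, c2, c3⟩ := crep_spec hC
  have e : crep q (o₁ :: o₂ :: C) = orep (PG q) (St q o₁.1) :: orep (PG q) (St q o₂.1) ::
      crep q C := rfl
  rw [e] at c1 c2 c3
  simp only [List.map_cons, List.cons.injEq] at c3
  obtain ⟨s1, s2, c3⟩ := c3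
  have c4 := GenB_map (q := q) g c3
  have hgg : g ≤ N := le_trans (Nat.le_mul_self g) hgN
  obtain ⟨f, h⟩ := dist_parity2 (reps (α := PL q) (PG q) k)
    (fun R => g / stc (PG q) R) (fun _ => N)
    (orep (PG q) (St q o₁.1)) (orep (PG q) (St q o₂.1)) (crep q C) c1 c2
    (by simp only [s1]; exact ho1) (by simp only [s2]; exact ho2)
    (by rw [c4]; exact hT) (GenB_even hC2 c4) g
    (by rw [c4]; exact hX) (fun R _ => GenB_half hg2 R) hN2 hN2
    ((Nat.div_le_self _ _).trans hgg) ((Nat.div_le_self _ _).trans hgg) hgN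
    (by rw [GenB_sum, hs])
  exact hf f h

end Pool.Agent.LS3
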