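import Pool.Agent.Lib.MP_2c0b9b_co_S3.Shp

/-!
# Large sets of strength three: sets whose stabiliser has order divisible by `p`
-/

set_option autoImplicit false

open Finset
open scoped Pointwise

namespace Pool.Agent.LS3

variable {α : Type*} [DecidableEq α] [Fintype α] {Γ : Subgroup (Equiv.Perm α)}

omit [Fintype α] in
private theorem PPart_zpow {σ : Equiv.Perm α} {B : Finset α} (hB : σ • B = B) (i : ℤ) {x : α}
    (hx : x ∈ B) : (σ ^ i) x ∈ B := by
  have h1 : σ ∈ MulAction.stabilizer (Equiv.Perm α) B := hB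
  have h2 : (σ ^ i) • B = B := Subgroup.zpow_mem _ h1 i
  have h3 := Finset.smul_mem_smul_finset (a := σ ^ i) hx
  rw [h2] at h3
  exact h3

private theorem PPart_support {σ : Equiv.Perm α} {B : Finset α} (hB : σ • B = B) {x : α}
    (hx : x ∈ B) : (σ.cycleOf x).support ⊆ B := by
  intro y hy
  rw [Equiv.Perm.mem_support_cycleOf_iff] at hy
  obtain ⟨⟨i, hi⟩, -⟩ := hy
  rw [← hi]
  exact PPart_zpow hB i hx

private theorem PPart_sub {σ : Equiv.Perm α} {B B' : Finset α} (hB : σ • B = B)
    (h1 : (univ.filter fun x => σ x = x) ∩ B ⊆ B')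
    (h2 : (σ.cycleFactorsFinset.filter fun c => c.support ⊆ B) ⊆
      σ.cycleFactorsFinset.filter fun c => c.support ⊆ B') : B ⊆ B' := by
  intro x hx
  by_cases hfx : σ x = x
  · exact h1 (Finset.mem_inter.2 ⟨Finset.mem_filter.2 ⟨Finset.mem_univ _, hfx⟩, hx⟩)
  · have hs : x ∈ σ.support := Equiv.Perm.mem_support.2 hfx
    have h3 : σ.cycleOf x ∈ σ.cycleFactorsFinset.filter fun c => c.support ⊆ B :=
      Finset.mem_filter.2 ⟨Equiv.Perm.cycleOf_mem_cycleFactorsFinset_iff.2 hs,
        PPart_support hB hx⟩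
    exact (Finset.mem_filter.1 (h2 h3)).2
      (Equiv.Perm.mem_support_cycleOf_iff.2 ⟨Equiv.Perm.SameCycle.refl _ _, hs⟩)

private theorem PPart_cyc (σ : Equiv.Perm α) {p : ℕ} (hp : p.Prime) (hσ : orderOf σ = p) :
    σ.cycleFactorsFinset.card ≤ Fintype.card α / p := by
  rw [Nat.le_div_iff_mul_le hp.pos]
  obtain ⟨n, hn⟩ := Equiv.Perm.cycleType_prime_order (σ := σ) (by rw [hσ]; exact hp)
  have h1 := Equiv.Perm.sum_cycleType σ
  have h2 : Multiset.card σ.cycleType = σ.cycleFactorsFinset.card := by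
    rw [Equiv.Perm.cycleType_def, Multiset.card_map]
    rfl
  rw [hn, Multiset.card_replicate] at h2
  rw [hn, Multiset.sum_replicate, hσ, smul_eq_mul, h2] at h1
  rw [h1]
  exact Finset.card_le_univ _

/-- a permutation with at most two fixed points and of order `p` has few invariant sets -/
theorem card_invariant_le (σ : Equiv.Perm α) {p : ℕ} (hp : p.Prime) (hσ : orderOf σ = p)
    (hfix : (univ.filter fun x => σ x = x).card ≤ 2) :
    ((univ : Finset (Finset α)).filter fun B => σ • B = B).card ≤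
      2 ^ (2 + Fintype.card α / p) := by
  set F := univ.filter fun x => σ x = x with hF
  have h1 : ((univ : Finset (Finset α)).filter fun B => σ • B = B).card ≤
      (F.powerset ×ˢ σ.cycleFactorsFinset.powerset).card := by
    refine Finset.card_le_card_of_injOn
      (fun B => (F ∩ B, σ.cycleFactorsFinset.filter fun c => c.support ⊆ B)) ?_ ?_
    · intro B _
      exact Finset.mem_coe.2 (Finset.mem_product.2 ⟨Finset.mem_powerset.2 Finset.inter_subset_left,
        Finset.mem_powerset.2 (Finset.filter_subset _ _)⟩)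
    · intro B hB B' hB' he
      have hB1 := (Finset.mem_filter.1 (Finset.mem_coe.1 hB)).2
      have hB2 := (Finset.mem_filter.1 (Finset.mem_coe.1 hB')).2
      obtain ⟨e1, e2⟩ := Prod.mk.inj he
      refine Finset.Subset.antisymm ?_ ?_
      · refine PPart_sub hB1 ?_ e2.le
        rw [← hF, e1]
        exact Finset.inter_subset_right
      · refine PPart_sub hB2 ?_ e2.ge
        rw [← hF, ← e1]
        exact Finset.inter_subset_right
  refine h1.trans ?_
  rw [Finset.card_product, Finset.card_powerset, Finset.card_powerset, ← pow_add]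
  exact Nat.pow_le_pow_right (by norm_num) (Nat.add_le_add hfix (PPart_cyc σ hp hσ))

theorem card_ppart (h : Sharp Γ) {p : ℕ} (hp : p.Prime) (k : ℕ) :
    ((powersetCard k (univ : Finset α)).filter fun B => p ∣ stc Γ B).card ≤
      Nat.card Γ * 2 ^ (2 + Fintype.card α / p) := by
  classical
  have hpf : Fact p.Prime := ⟨hp⟩
  set S : Finset (Equiv.Perm α) := univ.filter fun σ => σ ∈ Γ ∧ orderOf σ = p with hS
  have hsub : ((powersetCard k (univ : Finset α)).filter fun B => p ∣ stc Γ B) ⊆
      S.biUnion fun σ => (univ : Finset (Finset α)).filter fun B => σ • B = B := by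
    intro B hB
    have hd := (Finset.mem_filter.1 hB).2
    obtain ⟨x, hx⟩ := exists_prime_orderOf_dvd_card' (G := MulAction.stabilizer Γ B) p hd
    refine Finset.mem_biUnion.2 ⟨((x : Γ) : Equiv.Perm α), ?_, ?_⟩
    · refine Finset.mem_filter.2 ⟨Finset.mem_univ _, (x : Γ).2, ?_⟩
      rw [Subgroup.orderOf_coe, Subgroup.orderOf_coe]
      exact hx
    · refine Finset.mem_filter.2 ⟨Finset.mem_univ _, ?_⟩
      exact x.2
  have hcard : S.card ≤ Nat.card Γ := by
    rw [Nat.card_eq_fintype_card, Fintype.card_subtype]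
    exact Finset.card_le_card fun σ hσ =>
      Finset.mem_filter.2 ⟨Finset.mem_univ _, (Finset.mem_filter.1 hσ).2.1⟩
  refine (Finset.card_le_card hsub).trans ((Finset.card_biUnion_le_card_mul S _
    (2 ^ (2 + Fintype.card α / p)) fun σ hσ => ?_).trans (Nat.mul_le_mul_right _ hcard))
  obtain ⟨hσ1, hσ2⟩ := (Finset.mem_filter.1 hσ).2
  have hfix : (univ.filter fun x => σ x = x).card ≤ 2 := by
    by_contra hcon
    rw [not_le, Finset.two_lt_card] at hcon
    obtain ⟨a, ha, b, hb, c, hc, hab, hac, hbc⟩ := hcon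
    have h1 := h.free σ hσ1 a b c hab hac hbc (Finset.mem_filter.1 ha).2
      (Finset.mem_filter.1 hb).2 (Finset.mem_filter.1 hc).2
    rw [h1, orderOf_one] at hσ2
    exact hp.one_lt.ne hσ2
  have h2 := card_invariant_le σ hp hσ2 hfix
  convert h2 using 2

end Pool.Agent.LS3
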