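import Pool.Agent.Lib.MP_2c0b9b_co_S3.DistA
import Pool.Agent.Lib.MP_2c0b9b_co_S3.PPart
import Pool.Agent.Lib.MP_2c0b9b_co_S3.GenA

/-!
# Large sets of strength three: large sets from the orbits of `PGL(2, q)`, a prime divisor of the orders of stabilisers
-/

set_option autoImplicit false

open Finset
open scoped Pointwise

namespace Pool.Agent.LS3

variable {q : ℕ} [Fact q.Prime]

private theorem GenC_coins {k : ℕ} {A B : List (List ℕ × ℕ)} (h : IsCoins q k (A ++ B)) :
    IsCoins q k A ∧ IsCoins q k B := by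
  have h3 := List.pairwise_append.1 h.ne
  exact ⟨⟨fun c hc => h.card c (List.mem_append_left _ hc),
      fun c hc => h.stab c (List.mem_append_left _ hc), h3.1⟩,
    ⟨fun c hc => h.card c (List.mem_append_right _ hc),
      fun c hc => h.stab c (List.mem_append_right _ hc), h3.2.1⟩⟩

private theorem GenC_stc {k : ℕ} {C : List (List ℕ × ℕ)} (hC : IsCoins q k C) {R : Finset (PL q)}
    (hR : R ∈ crep q C) : ∃ c ∈ C, stc (PG q) R = c.2 := by
  obtain ⟨c, hc, rfl⟩ := List.mem_map.1 hR
  exact ⟨c, hc, by rw [stc_orep, hC.stab c hc]⟩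

private theorem GenC_map {C : List (List ℕ × ℕ)} (F : ℕ → ℕ)
    (h : (crep q C).map (fun R => stc (PG q) R) = C.map fun c => c.2) :
    (crep q C).map (fun R => F (stc (PG q) R)) = C.map fun c => F c.2 := by
  have h2 := congrArg (List.map F) h
  rw [List.map_map, List.map_map] at h2
  exact h2

private theorem GenC_sum_list {ι : Type*} (l : List ι) (u : ℕ) (w : ι → ℕ) :
    (l.map fun x => u * w x).sum = u * (l.map w).sum := by
  induction l with
  | nil => simp
  | cons x l ih => rw [List.map_cons, List.sum_cons, List.map_cons, List.sum_cons, ih, mul_add]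

/-- the orbits whose stabiliser has order divisible by the prime number `p` are in the class `0`,
except those of the lists `P₁` and `P₂` -/
theorem good_p {k p g a u m N : ℕ} (hp : p.Prime) (hg : 0 < g) (hpg : ¬ p ∣ g)
    (hdv : ∀ B : Finset (PL q), B.card = k → stc (PG q) B ∣ p * g)
    (hu : u * (p * g) = (q + 1) * q * (q - 1)) (hN : (q + 1).choose k = 3 * (u * N))
    (hm : N = a + p * m) (hpp : (q + 1) * q * (q - 1) * 2 ^ (2 + (q + 1) / p) ≤ u * N)
    (C P₁ P₂ : List (List ℕ × ℕ)) (hC : IsCoins q k (C ++ P₁ ++ P₂))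
    (hCp : ∀ c ∈ C, ¬ p ∣ c.2) (hP1 : ∀ c ∈ P₁, p ∣ c.2) (hP2 : ∀ c ∈ P₂, p ∣ c.2)
    (ha1 : (P₁.map fun c => p * g / c.2).sum = a) (ha2 : (P₂.map fun c => p * g / c.2).sum = a)
    (hT : tailOK 2 (C.map fun c => g / c.2) = true)
    (hX : 2 * g ≤ 2 + (C.map fun c => g / c.2).sum) : G 4 k (q + 1) := by
  classical
  have hq : 2 ≤ q := (Fact.out : q.Prime).two_le
  have hcard := card_PG q
  have hup : 0 < u := by
    rcases Nat.eq_zero_or_pos u with h | h
    · exfalso
      rw [h, zero_mul] at hu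
      have h1 : 0 < (q + 1) * q * (q - 1) := by
        have : 0 < q - 1 := by omega
        positivity
      omega
    · exact h
  have hcl : 3 ≤ Fintype.card (PL q) := by
    rw [card_PL]
    omega
  obtain ⟨hCC, hC2⟩ := GenC_coins hC
  obtain ⟨hC0, hC1⟩ := GenC_coins hCC
  obtain ⟨n0, -, -⟩ := crep_spec hC
  obtain ⟨a1, a2, a3⟩ := crep_spec hC0
  obtain ⟨b1, b2, b3⟩ := crep_spec hC1
  obtain ⟨c1, c2, c3⟩ := crep_spec hC2
  have happ : crep q (C ++ P₁ ++ P₂) = crep q C ++ crep q P₁ ++ crep q P₂ := by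
    unfold crep
    rw [List.map_append, List.map_append]
  rw [happ] at n0
  have hdisj : ∀ R, R ∈ crep q P₁ → R ∉ crep q P₂ := by
    intro R h1 h2
    have h3 := (List.nodup_append.1 n0).2.2 R (List.mem_append_right _ h1) R h2
    exact h3 rfl
  -- the representatives
  obtain ⟨Rs, hRs⟩ : ∃ Rs, Rs = reps (α := PL q) (PG q) k := ⟨_, rfl⟩
  rw [← hRs] at a2 b2 c2
  have hosz : ∀ R ∈ Rs, osz (PG q) R = u * (p * g / stc (PG q) R) := by
    intro R hR
    rw [hRs] at hR
    have hs := stc_pos (Γ := PG q) R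
    have h1 := osz_mul_stc (Γ := PG q) R
    rw [hcard, ← hu] at h1
    have h2 := Nat.div_mul_cancel (hdv R (of_mem_reps hR).1)
    refine Nat.eq_of_mul_eq_mul_right hs ?_
    rw [h1, mul_assoc, h2]
  have hoszS : ∀ R ∈ Rs, ¬ p ∣ stc (PG q) R → osz (PG q) R = u * p * (g / stc (PG q) R) := by
    intro R hR hpR
    have h1 := hdv R (of_mem_reps (hRs ▸ hR)).1
    have h2 : stc (PG q) R ∣ g :=
      (Nat.Coprime.dvd_mul_left (((Nat.Prime.coprime_iff_not_dvd hp).2 hpR).symm)).1 h1
    rw [hosz R hR, Nat.mul_div_assoc _ h2, mul_assoc]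
  have htot : ∑ R ∈ Rs, osz (PG q) R = 3 * (u * N) := by
    rw [hRs, sum_osz, card_PL, hN]
  -- the part with `p` dividing the order
  have hA : ∑ R ∈ Rs.filter (fun R => p ∣ stc (PG q) R), osz (PG q) R ≤ u * N := by
    rw [hRs, ← card_cls (Γ := PG q) k (fun R => p ∣ stc (PG q) R)]
    have h1 := card_ppart (sharp_PG q) hp k
    rw [hcard, card_PL] at h1
    refine le_trans (le_of_eq ?_) (h1.trans hpp)
    unfold cls
    congr 1
    refine filter_congr fun B _ => ?_
    show p ∣ stc (PG q) (orep (PG q) B) ↔ p ∣ stc (PG q) B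
    rw [stc_orep]
  have hsplit : ∑ R ∈ Rs.filter (fun R => p ∣ stc (PG q) R), osz (PG q) R +
      ∑ R ∈ Rs.filter (fun R => ¬ p ∣ stc (PG q) R), osz (PG q) R = 3 * (u * N) := by
    rw [sum_filter_add_sum_filter_not, htot]
  have hSsum : ∑ R ∈ Rs.filter (fun R => ¬ p ∣ stc (PG q) R), osz (PG q) R =
      u * p * ∑ R ∈ Rs.filter (fun R => ¬ p ∣ stc (PG q) R), g / stc (PG q) R := by
    rw [mul_sum]
    refine sum_congr rfl fun R hR => ?_
    rw [mem_filter] at hR
    exact hoszS R hR.1 hR.2
  obtain ⟨W, hW⟩ : ∃ W, W = ∑ R ∈ Rs.filter (fun R => ¬ p ∣ stc (PG q) R),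
    g / stc (PG q) R := ⟨_, rfl⟩
  rw [← hW] at hSsum
  have hpos : 0 < u * p := Nat.mul_pos hup hp.pos
  have hmW : 2 * m ≤ W := by
    refine Nat.le_of_mul_le_mul_left ?_ hpos
    have e1 : u * N = u * a + u * p * m := by
      rw [hm]
      ring
    have e2 : u * p * (2 * m) = 2 * (u * p * m) := by ring
    rw [hSsum] at hsplit
    rw [e2]
    omega
  -- the distribution
  have hz3 : ∀ i : ZMod 3, i = 0 ∨ i = 1 ∨ i = 2 := by decide
  obtain ⟨f', hf'⟩ := dist_core 1 one_pos (Rs.filter (fun R => ¬ p ∣ stc (PG q) R))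
    (fun R => g / stc (PG q) R) (fun i => if i = 0 then W - 2 * m else m)
    (crep q C) a1 (by
      intro R hR
      refine mem_filter.2 ⟨a2 R hR, ?_⟩
      obtain ⟨c, hc, hc2⟩ := GenC_stc hC0 hR
      rw [hc2]
      exact hCp c hc)
    (by rw [GenC_map (fun s => g / s) a3]; exact hT) g (fun R _ => Nat.div_le_self _ _)
    (by rw [GenC_map (fun s => g / s) a3]; exact hX) (fun _ _ => one_dvd _) (fun _ => one_dvd _)
    (by
      have h1 : ∑ i : ZMod 3, (if i = 0 then W - 2 * m else m) = (W - 2 * m) + m + m :=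
        Fin.sum_univ_three _
      rw [h1, ← hW]
      omega)
  obtain ⟨f, hf⟩ : ∃ f : Finset (PL q) → ZMod 3, f = fun R => if p ∣ stc (PG q) R then
    (if R ∈ crep q P₁ then 1 else if R ∈ crep q P₂ then 2 else 0) else f' R := ⟨_, rfl⟩
  have hf1 : ∀ i, ∑ R ∈ Rs.filter (fun R => f R = i), osz (PG q) R =
      ∑ R ∈ (Rs.filter (fun R => p ∣ stc (PG q) R)).filter (fun R => f R = i), osz (PG q) R +
      u * p * (if i = 0 then W - 2 * m else m) := by
    intro i
    rw [← hf' i, mul_sum]
    rw [← sum_filter_add_sum_filter_not (Rs.filter (fun R => f R = i))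
      (fun R => p ∣ stc (PG q) R)]
    rw [filter_filter, filter_filter, filter_filter]
    congr 1
    · refine sum_congr (filter_congr fun R _ => and_comm) fun _ _ => rfl
    · rw [filter_filter]
      refine sum_congr (filter_congr fun R _ => ?_) fun R hR => ?_
      · constructor
        · rintro ⟨h1, h2⟩
          refine ⟨h2, ?_⟩
          rw [hf] at h1
          simp only [if_neg h2] at h1
          exact h1
        · rintro ⟨h1, h2⟩
          refine ⟨?_, h1⟩
          rw [hf]
          simp only [if_neg h1]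
          exact h2
      · rw [mem_filter] at hR
        exact hoszS R hR.1 hR.2.1
  -- the sums over the lists
  have hlist : ∀ (P : List (List ℕ × ℕ)), IsCoins q k P →
      (P.map fun c => p * g / c.2).sum = a → ∑ R ∈ (crep q P).toFinset, osz (PG q) R = u * a := by
    intro P hP hPa
    obtain ⟨d1, d2, d3⟩ := crep_spec hP
    rw [List.sum_toFinset _ d1]
    have h1 : (crep q P).map (fun R => osz (PG q) R) =
        (crep q P).map (fun R => u * (p * g / stc (PG q) R)) := by
      refine List.map_congr_left fun R hR => ?_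
      exact hosz R (by rw [hRs]; exact d2 R hR)
    rw [h1, GenC_sum_list, GenC_map (fun s => p * g / s) d3, hPa]
  have hF1 : (Rs.filter (fun R => p ∣ stc (PG q) R)).filter (fun R => f R = 1) =
      (crep q P₁).toFinset := by
    ext R
    rw [mem_filter, mem_filter, List.mem_toFinset, hf]
    constructor
    · rintro ⟨⟨h1, h2⟩, h3⟩
      simp only [if_pos h2] at h3
      by_contra h4
      rw [if_neg h4] at h3
      by_cases h5 : R ∈ crep q P₂
      · rw [if_pos h5] at h3
        exact absurd h3 (by decide)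
      · rw [if_neg h5] at h3
        exact absurd h3 (by decide)
    · intro h1
      obtain ⟨c, hc, hc2⟩ := GenC_stc hC1 h1
      have h2 : p ∣ stc (PG q) R := by
        rw [hc2]
        exact hP1 c hc
      refine ⟨⟨b2 R h1, h2⟩, ?_⟩
      simp only [if_pos h2, if_pos h1]
  have hF2 : (Rs.filter (fun R => p ∣ stc (PG q) R)).filter (fun R => f R = 2) =
      (crep q P₂).toFinset := by
    ext R
    rw [mem_filter, mem_filter, List.mem_toFinset, hf]
    constructor
    · rintro ⟨⟨h1, h2⟩, h3⟩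
      simp only [if_pos h2] at h3
      by_cases h4 : R ∈ crep q P₁
      · rw [if_pos h4] at h3
        exact absurd h3 (by decide)
      · rw [if_neg h4] at h3
        by_contra h5
        rw [if_neg h5] at h3
        exact absurd h3 (by decide)
    · intro h1
      obtain ⟨c, hc, hc2⟩ := GenC_stc hC2 h1
      have h2 : p ∣ stc (PG q) R := by
        rw [hc2]
        exact hP2 c hc
      have h3 : R ∉ crep q P₁ := fun h4 => hdisj R h4 h1
      refine ⟨⟨c2 R h1, h2⟩, ?_⟩
      simp only [if_pos h2, if_neg h3, if_pos h1]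
  have e1 : u * N = u * a + u * p * m := by
    rw [hm]
    ring
  have s1 : ∑ R ∈ Rs.filter (fun R => f R = 1), osz (PG q) R = u * N := by
    rw [hf1 1, hF1, hlist P₁ hC1 ha1, if_neg (by decide), e1]
  have s2 : ∑ R ∈ Rs.filter (fun R => f R = 2), osz (PG q) R = u * N := by
    rw [hf1 2, hF2, hlist P₂ hC2 ha2, if_neg (by decide), e1]
  have s3 : ∑ i : ZMod 3, ∑ R ∈ Rs.filter (fun R => f R = i), osz (PG q) R = 3 * (u * N) := by
    rw [← htot]
    exact sum_fiberwise Rs f fun R => osz (PG q) R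
  have s4 : ∑ i : ZMod 3, ∑ R ∈ Rs.filter (fun R => f R = i), osz (PG q) R =
      ∑ R ∈ Rs.filter (fun R => f R = 0), osz (PG q) R +
      ∑ R ∈ Rs.filter (fun R => f R = 1), osz (PG q) R +
      ∑ R ∈ Rs.filter (fun R => f R = 2), osz (PG q) R := Fin.sum_univ_three _
  have s0 : ∑ R ∈ Rs.filter (fun R => f R = 0), osz (PG q) R = u * N := by
    rw [s3, s1, s2] at s4
    omega
  refine G_of_good q ?_
  refine good_of_reps (Γ := PG q) (N := u * N) ((sharp_PG q).htrans hcl) f fun i => ?_
  rw [← hRs]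
  rcases hz3 i with rfl | rfl | rfl
  · exact s0
  · exact s1
  · exact s2

end Pool.Agent.LS3
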