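import Pool.Agent.Lib.MP_2c0b9b_co_S3.ChkB
import Pool.Agent.Lib.MP_2c0b9b_co_S3.GenB
import Pool.Agent.Lib.MP_2c0b9b_co_S3.GenC
import Pool.Agent.Lib.MP_2c0b9b_co_S3.CoinsA
import Pool.Agent.Lib.MP_2c0b9b_co_S3.K9Data

/-!
# Large sets of strength three on 30 points, `k = 10, 11, 12`
-/

set_option autoImplicit false

namespace Pool.Agent.LS3

theorem base_10_30 : G 4 10 30 := by
  have hC := isCoins_of (q := 29) (by norm_num) D10 D10_stab D10_ne
  refine good_p (q := 29) (k := 10) (p := 5) (g := 8) (a := 0) (u := 609) (m := 3289)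
    (N := 16445) (by norm_num) (by norm_num) (by norm_num)
    (fun B hB => stc_dvd_of_gcd (q := 29) (k := 10) (by norm_num) (by decide +kernel) B hB)
    (by norm_num) (by decide +kernel) (by norm_num) (by norm_num)
    (D10.map fun c => (c.1, c.2.length)) [] [] ?_ ?_ ?_ ?_ ?_ ?_ ?_ ?_
  · rw [List.append_nil, List.append_nil]
    exact hC
  · decide +kernel
  · intro c hc
    exact absurd hc (List.not_mem_nil)
  · intro c hc
    exact absurd hc (List.not_mem_nil)
  · rfl
  · rfl
  · decide +kernel
  · decide +kernel

theorem base_11_30 : G 4 11 30 := by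
  have hC := isCoins_of (q := 29) (by norm_num) D11 D11_stab D11_ne
  exact good_simple (q := 29) (k := 11) (g := 2) (u := 12180) (N := 1495) (by norm_num)
    (fun B hB => stc_dvd_of_gcd (q := 29) (k := 11) (by norm_num) (by decide +kernel) B hB)
    (by norm_num) (by decide +kernel) _ hC (by decide +kernel) (by decide +kernel)

theorem base_12_30 : G 4 12 30 := by
  have hC := isCoins_of (q := 29) (by norm_num) D12 D12_stab D12_ne
  have e : (D12.map fun c => (c.1, c.2.length)) =
      (D12.map fun c => (c.1, c.2.length)).getD 0 ([], 0) ::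
      (D12.map fun c => (c.1, c.2.length)).getD 1 ([], 0) ::
      (D12.map fun c => (c.1, c.2.length)).drop 2 := rfl
  rw [e] at hC
  exact good_odd (q := 29) (k := 12) (g := 24) (u := 1015) (N := 28405) (by norm_num)
    (by decide) (by decide +kernel) (by norm_num)
    (fun B hB => stc_dvd_of_gcd (q := 29) (k := 12) (by norm_num) (by decide +kernel) B hB)
    (by norm_num) (by decide +kernel) _ _ _ hC (by decide +kernel) (by decide +kernel)
    (by decide +kernel) (by decide +kernel) (by decide +kernel)

end Pool.Agent.LS3
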