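import Pool.Agent.Lib.MP_2c0b9b_co_S3.Defs

/-!
# Large sets of strength three: the coins, 84 points, `k = 27`
-/

set_option autoImplicit false

namespace Pool.Agent.LS3

/-- coin number 0, order 2 -/
def D27_0 : List ℕ × List ℕ := (
    [1, 3, 10, 11, 12, 15, 16, 19, 20, 23, 30, 31, 33, 39, 41, 46, 52, 54, 56, 61, 63, 64, 65, 66,
    71, 75, 78],
    [10310, 665654])

/-- coin number 1, order 2 -/
def D27_1 : List ℕ × List ℕ := (
    [1, 2, 3, 7, 9, 13, 18, 19, 21, 22, 23, 25, 26, 31, 35, 37, 41, 42, 43, 47, 51, 53, 63, 64,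
    74, 76, 80],
    [10203, 434241])

/-- coin number 2, order 3 -/
def D27_2 : List ℕ × List ℕ := (
    [2, 6, 13, 14, 15, 23, 24, 30, 32, 34, 38, 39, 43, 44, 46, 50, 52, 56, 62, 63, 65, 66, 69, 74,
    76, 78, 80],
    [20613, 64346, 430274])

/-- coin number 3, order 6 -/
def D27_3 : List ℕ × List ℕ := (
    [6, 9, 10, 14, 15, 17, 19, 28, 29, 35, 36, 41, 43, 44, 51, 53, 55, 56, 59, 65, 66, 68, 73, 74,
    78, 79, 80],
    [60910, 356810, 434429, 665619, 735129, 791519])

/-- coin number 4, order 6 -/
def D27_4 : List ℕ × List ℕ := (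
    [1, 5, 7, 9, 12, 16, 17, 18, 20, 26, 28, 30, 32, 34, 35, 37, 40, 43, 52, 53, 57, 58, 62, 70,
    79, 80, 81],
    [10507, 128016, 175728, 356218, 435209, 793270])

/-- coins on 84 points, `k = 27` (orders 2, 2, 3, 6, 6) -/
def D27 : List (List ℕ × List ℕ) := [D27_0, D27_1, D27_2, D27_3, D27_4]

theorem D27_s0 : D27_0.1.length = 27 ∧ chkStab 83 D27_0.1 D27_0.2 = true := by
  decide +kernel

theorem D27_s1 : D27_1.1.length = 27 ∧ chkStab 83 D27_1.1 D27_1.2 = true := by
  decide +kernel

theorem D27_s2 : D27_2.1.length = 27 ∧ chkStab 83 D27_2.1 D27_2.2 = true := by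
  decide +kernel

theorem D27_s3 : D27_3.1.length = 27 ∧ chkStab 83 D27_3.1 D27_3.2 = true := by
  decide +kernel

theorem D27_s4 : D27_4.1.length = 27 ∧ chkStab 83 D27_4.1 D27_4.2 = true := by
  decide +kernel

theorem D27_n0_1 : chkNe 83 D27_0.1 D27_1.1 = true := by
  decide +kernel

theorem D27_n3_4 : chkNe 83 D27_3.1 D27_4.1 = true := by
  decide +kernel

theorem D27_stab : ∀ c ∈ D27, c.1.length = 27 ∧ chkStab 83 c.1 c.2 = true := by
  intro c hc
  simp only [D27, List.mem_cons, List.not_mem_nil, or_false] at hc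
  rcases hc with rfl | rfl | rfl | rfl | rfl
  exacts [D27_s0, D27_s1, D27_s2, D27_s3, D27_s4]

theorem D27_ne : D27.Pairwise
    (fun c d => c.2.length = d.2.length → chkNe 83 c.1 d.1 = true) := by
  unfold D27
  refine List.Pairwise.cons (fun d hd => ?_) ?_
  · simp only [List.mem_cons, List.not_mem_nil, or_false] at hd
    rcases hd with rfl | rfl | rfl | rfl
    · exact fun _ => D27_n0_1
    · exact fun h => absurd h (by decide)
    · exact fun h => absurd h (by decide)
    · exact fun h => absurd h (by decide)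
  refine List.Pairwise.cons (fun d hd => ?_) ?_
  · simp only [List.mem_cons, List.not_mem_nil, or_false] at hd
    rcases hd with rfl | rfl | rfl
    · exact fun h => absurd h (by decide)
    · exact fun h => absurd h (by decide)
    · exact fun h => absurd h (by decide)
  refine List.Pairwise.cons (fun d hd => ?_) ?_
  · simp only [List.mem_cons, List.not_mem_nil, or_false] at hd
    rcases hd with rfl | rfl
    · exact fun h => absurd h (by decide)
    · exact fun h => absurd h (by decide)
  refine List.Pairwise.cons (fun d hd => ?_) ?_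
  · simp only [List.mem_cons, List.not_mem_nil, or_false] at hd
    subst hd
    exact fun _ => D27_n3_4
  exact List.Pairwise.cons (fun d hd => absurd hd List.not_mem_nil) List.Pairwise.nil

end Pool.Agent.LS3
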