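import Pool.Agent.Lib.MP_2c0b9b_co_S3.Defs

/-!
# Large sets of strength three: the coins, 84 points, `k = 28`
-/

set_option autoImplicit false

namespace Pool.Agent.LS3

/-- coin number 0, order 2 -/
def D28_0 : List ℕ × List ℕ := (
    [7, 9, 16, 22, 26, 28, 29, 30, 34, 35, 37, 40, 42, 45, 46, 47, 55, 58, 62, 63, 64, 68, 71, 72,
    74, 75, 77, 82],
    [70916, 727546])

/-- coin number 1, order 2 -/
def D28_1 : List ℕ × List ℕ := (
    [1, 2, 5, 8, 9, 12, 15, 18, 24, 28, 33, 37, 38, 39, 41, 44, 46, 49, 51, 55, 58, 61, 64, 69,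
    71, 72, 74, 82],
    [10205, 465505])

/-- coin number 2, order 4 -/
def D28_2 : List ℕ × List ℕ := (
    [3, 5, 9, 11, 12, 20, 21, 22, 23, 26, 27, 28, 29, 30, 31, 34, 38, 42, 43, 44, 46, 51, 53, 56,
    58, 59, 61, 63],
    [30509, 203158, 275653, 592943])

/-- coin number 3, order 4 -/
def D28_3 : List ℕ × List ℕ := (
    [3, 6, 25, 26, 27, 28, 31, 32, 33, 34, 37, 42, 45, 46, 47, 50, 53, 56, 57, 58, 62, 66, 69, 71,
    75, 78, 81, 82],
    [30625, 63426, 346946, 690337])

/-- coin number 4, order 8 -/
def D28_4 : List ℕ × List ℕ := (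
    [3, 5, 7, 10, 13, 16, 18, 22, 23, 25, 27, 29, 31, 32, 37, 41, 44, 45, 50, 54, 61, 63, 65, 70,
    71, 72, 73, 81],
    [30507, 237245, 377245, 440705, 504572, 610507, 650705, 814572])

/-- coin number 5, order 8 -/
def D28_5 : List ℕ × List ℕ := (
    [1, 2, 4, 5, 7, 9, 13, 14, 18, 25, 27, 29, 31, 33, 34, 38, 39, 40, 45, 49, 55, 58, 59, 64, 72,
    78, 81, 82],
    [10204, 274034, 290538, 493972, 585533, 590725, 641409, 813145])

/-- coin number 6, order 14 -/
def D28_6 : List ℕ × List ℕ := (
    [8, 13, 22, 25, 27, 31, 34, 35, 38, 40, 42, 43, 44, 46, 47, 48, 51, 53, 57, 61, 62, 64, 65,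
    68, 72, 74, 77, 80],
    [81322, 228072, 274777, 314051, 354327, 426265, 514753, 534342, 611331, 646235, 654474,
    724464, 748061, 774008])

/-- coin number 7, order 28 -/
def D28_7 : List ℕ × List ℕ := (
    [1, 2, 5, 10, 11, 16, 19, 31, 33, 35, 37, 39, 40, 42, 46, 52, 53, 56, 57, 60, 68, 70, 72, 73,
    74, 75, 79, 82],
    [10205, 20139, 53901, 106831, 118260, 163168, 197952, 311610, 337253, 355279, 377056, 390502,
    405670, 424673, 464275, 523519, 537433, 564037, 576082, 605711, 681016, 703740, 723374,
    737542, 745372, 757346, 791935, 821157])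

/-- coin number 8, order 14 -/
def D28_8 : List ℕ × List ℕ := (
    [3, 4, 7, 10, 14, 18, 19, 21, 22, 23, 24, 37, 42, 44, 47, 50, 56, 59, 61, 63, 65, 66, 68, 70,
    75, 78, 79, 82],
    [30407, 40356, 78203, 105659, 246678, 377865, 427566, 561004, 596510, 655937, 662442, 754282,
    783724, 820775])

/-- coin number 9, order 28 -/
def D28_9 : List ℕ × List ℕ := (
    [7, 9, 10, 13, 14, 18, 19, 22, 25, 27, 30, 31, 35, 40, 41, 43, 45, 49, 52, 54, 58, 65, 67, 71,
    72, 78, 79, 82],
    [70910, 94030, 103072, 134143, 144913, 187207, 193179, 226740, 254314, 270765, 307122, 317858,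
    351325, 405271, 414519, 431949, 455431, 497941, 526582, 542578, 583554, 651018, 672752,
    718267, 722209, 781435, 795845, 821827])

/-- coins on 84 points, `k = 28` (orders 2, 2, 4, 4, 8, 8, 14, 28, 14, 28) -/
def D28 : List (List ℕ × List ℕ) := [D28_0, D28_1, D28_2, D28_3, D28_4, D28_5, D28_6, D28_7, D28_8, D28_9]

theorem D28_s0 : D28_0.1.length = 28 ∧ chkStab 83 D28_0.1 D28_0.2 = true := by
  decide +kernel

theorem D28_s1 : D28_1.1.length = 28 ∧ chkStab 83 D28_1.1 D28_1.2 = true := by
  decide +kernel

theorem D28_s2 : D28_2.1.length = 28 ∧ chkStab 83 D28_2.1 D28_2.2 = true := by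
  decide +kernel

theorem D28_s3 : D28_3.1.length = 28 ∧ chkStab 83 D28_3.1 D28_3.2 = true := by
  decide +kernel

theorem D28_s4 : D28_4.1.length = 28 ∧ chkStab 83 D28_4.1 D28_4.2 = true := by
  decide +kernel

theorem D28_s5 : D28_5.1.length = 28 ∧ chkStab 83 D28_5.1 D28_5.2 = true := by
  decide +kernel

theorem D28_s6 : D28_6.1.length = 28 ∧ chkStab 83 D28_6.1 D28_6.2 = true := by
  decide +kernel

theorem D28_s7 : D28_7.1.length = 28 ∧ chkStab 83 D28_7.1 D28_7.2 = true := by
  decide +kernel

theorem D28_s8 : D28_8.1.length = 28 ∧ chkStab 83 D28_8.1 D28_8.2 = true := by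
  decide +kernel

theorem D28_s9 : D28_9.1.length = 28 ∧ chkStab 83 D28_9.1 D28_9.2 = true := by
  decide +kernel

theorem D28_n0_1 : chkNe 83 D28_0.1 D28_1.1 = true := by
  decide +kernel

theorem D28_n2_3 : chkNe 83 D28_2.1 D28_3.1 = true := by
  decide +kernel

theorem D28_n4_5 : chkNe 83 D28_4.1 D28_5.1 = true := by
  decide +kernel

theorem D28_n6_8 : chkNe 83 D28_6.1 D28_8.1 = true := by
  decide +kernel

theorem D28_n7_9 : chkNe 83 D28_7.1 D28_9.1 = true := by
  decide +kernel

theorem D28_stab : ∀ c ∈ D28, c.1.length = 28 ∧ chkStab 83 c.1 c.2 = true := by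
  intro c hc
  simp only [D28, List.mem_cons, List.not_mem_nil, or_false] at hc
  rcases hc with rfl | rfl | rfl | rfl | rfl | rfl | rfl | rfl | rfl | rfl
  exacts [D28_s0, D28_s1, D28_s2, D28_s3, D28_s4, D28_s5, D28_s6, D28_s7, D28_s8, D28_s9]

theorem D28_ne : D28.Pairwise
    (fun c d => c.2.length = d.2.length → chkNe 83 c.1 d.1 = true) := by
  unfold D28
  refine List.Pairwise.cons (fun d hd => ?_) ?_
  · simp only [List.mem_cons, List.not_mem_nil, or_false] at hd
    rcases hd with rfl | rfl | rfl | rfl | rfl | rfl | rfl | rfl | rfl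
    · exact fun _ => D28_n0_1
    · exact fun h => absurd h (by decide)
    · exact fun h => absurd h (by decide)
    · exact fun h => absurd h (by decide)
    · exact fun h => absurd h (by decide)
    · exact fun h => absurd h (by decide)
    · exact fun h => absurd h (by decide)
    · exact fun h => absurd h (by decide)
    · exact fun h => absurd h (by decide)
  refine List.Pairwise.cons (fun d hd => ?_) ?_
  · simp only [List.mem_cons, List.not_mem_nil, or_false] at hd
    rcases hd with rfl | rfl | rfl | rfl | rfl | rfl | rfl | rfl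
    · exact fun h => absurd h (by decide)
    · exact fun h => absurd h (by decide)
    · exact fun h => absurd h (by decide)
    · exact fun h => absurd h (by decide)
    · exact fun h => absurd h (by decide)
    · exact fun h => absurd h (by decide)
    · exact fun h => absurd h (by decide)
    · exact fun h => absurd h (by decide)
  refine List.Pairwise.cons (fun d hd => ?_) ?_
  · simp only [List.mem_cons, List.not_mem_nil, or_false] at hd
    rcases hd with rfl | rfl | rfl | rfl | rfl | rfl | rfl
    · exact fun _ => D28_n2_3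
    · exact fun h => absurd h (by decide)
    · exact fun h => absurd h (by decide)
    · exact fun h => absurd h (by decide)
    · exact fun h => absurd h (by decide)
    · exact fun h => absurd h (by decide)
    · exact fun h => absurd h (by decide)
  refine List.Pairwise.cons (fun d hd => ?_) ?_
  · simp only [List.mem_cons, List.not_mem_nil, or_false] at hd
    rcases hd with rfl | rfl | rfl | rfl | rfl | rfl
    · exact fun h => absurd h (by decide)
    · exact fun h => absurd h (by decide)
    · exact fun h => absurd h (by decide)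
    · exact fun h => absurd h (by decide)
    · exact fun h => absurd h (by decide)
    · exact fun h => absurd h (by decide)
  refine List.Pairwise.cons (fun d hd => ?_) ?_
  · simp only [List.mem_cons, List.not_mem_nil, or_false] at hd
    rcases hd with rfl | rfl | rfl | rfl | rfl
    · exact fun _ => D28_n4_5
    · exact fun h => absurd h (by decide)
    · exact fun h => absurd h (by decide)
    · exact fun h => absurd h (by decide)
    · exact fun h => absurd h (by decide)
  refine List.Pairwise.cons (fun d hd => ?_) ?_
  · simp only [List.mem_cons, List.not_mem_nil, or_false] at hd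
    rcases hd with rfl | rfl | rfl | rfl
    · exact fun h => absurd h (by decide)
    · exact fun h => absurd h (by decide)
    · exact fun h => absurd h (by decide)
    · exact fun h => absurd h (by decide)
  refine List.Pairwise.cons (fun d hd => ?_) ?_
  · simp only [List.mem_cons, List.not_mem_nil, or_false] at hd
    rcases hd with rfl | rfl | rfl
    · exact fun h => absurd h (by decide)
    · exact fun _ => D28_n6_8
    · exact fun h => absurd h (by decide)
  refine List.Pairwise.cons (fun d hd => ?_) ?_
  · simp only [List.mem_cons, List.not_mem_nil, or_false] at hd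
    rcases hd with rfl | rfl
    · exact fun h => absurd h (by decide)
    · exact fun _ => D28_n7_9
  refine List.Pairwise.cons (fun d hd => ?_) ?_
  · simp only [List.mem_cons, List.not_mem_nil, or_false] at hd
    subst hd
    exact fun h => absurd h (by decide)
  exact List.Pairwise.cons (fun d hd => absurd hd List.not_mem_nil) List.Pairwise.nil

end Pool.Agent.LS3
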