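import Pool.Agent.Lib.MP_2c0b9b_co_S3.Defs

/-!
# Large sets of strength three: the coins, 84 points, `k = 30`
-/

set_option autoImplicit false

namespace Pool.Agent.LS3

/-- coin number 0, order 2 -/
def D30_0 : List ℕ × List ℕ := (
    [3, 6, 10, 18, 22, 24, 28, 31, 32, 37, 38, 40, 41, 44, 47, 48, 50, 52, 55, 56, 57, 61, 63, 64,
    67, 74, 75, 76, 79, 82],
    [30610, 416432])

/-- coin number 1, order 2 -/
def D30_1 : List ℕ × List ℕ := (
    [8, 14, 16, 20, 26, 32, 34, 35, 38, 39, 49, 50, 53, 54, 59, 62, 63, 64, 65, 67, 68, 69, 70,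
    71, 72, 74, 75, 76, 79, 82],
    [81416, 140868])

/-- coin number 2, order 3 -/
def D30_2 : List ℕ × List ℕ := (
    [4, 7, 10, 14, 18, 19, 20, 22, 23, 24, 25, 30, 31, 32, 36, 39, 40, 50, 54, 56, 59, 61, 63, 64,
    70, 74, 75, 76, 78, 79],
    [40710, 366375, 792070])

/-- coin number 3, order 6 -/
def D30_3 : List ℕ × List ℕ := (
    [3, 6, 12, 13, 14, 16, 17, 18, 20, 21, 30, 31, 33, 34, 35, 38, 39, 44, 45, 52, 58, 61, 62, 70,
    72, 73, 76, 77, 81, 82],
    [30612, 141217, 447231, 701372, 773106, 811713])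

/-- coin number 4, order 6 -/
def D30_4 : List ℕ × List ℕ := (
    [1, 4, 5, 20, 22, 23, 30, 33, 34, 35, 36, 41, 43, 44, 45, 51, 54, 56, 58, 64, 67, 68, 69, 70,
    72, 73, 74, 75, 80, 81],
    [10405, 437375, 643480, 695620, 723341, 742381])

/-- coins on 84 points, `k = 30` (orders 2, 2, 3, 6, 6) -/
def D30 : List (List ℕ × List ℕ) := [D30_0, D30_1, D30_2, D30_3, D30_4]

theorem D30_s0 : D30_0.1.length = 30 ∧ chkStab 83 D30_0.1 D30_0.2 = true := by
  decide +kernel

theorem D30_s1 : D30_1.1.length = 30 ∧ chkStab 83 D30_1.1 D30_1.2 = true := by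
  decide +kernel

theorem D30_s2 : D30_2.1.length = 30 ∧ chkStab 83 D30_2.1 D30_2.2 = true := by
  decide +kernel

theorem D30_s3 : D30_3.1.length = 30 ∧ chkStab 83 D30_3.1 D30_3.2 = true := by
  decide +kernel

theorem D30_s4 : D30_4.1.length = 30 ∧ chkStab 83 D30_4.1 D30_4.2 = true := by
  decide +kernel

theorem D30_n0_1 : chkNe 83 D30_0.1 D30_1.1 = true := by
  decide +kernel

theorem D30_n3_4 : chkNe 83 D30_3.1 D30_4.1 = true := by
  decide +kernel

theorem D30_stab : ∀ c ∈ D30, c.1.length = 30 ∧ chkStab 83 c.1 c.2 = true := by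
  intro c hc
  simp only [D30, List.mem_cons, List.not_mem_nil, or_false] at hc
  rcases hc with rfl | rfl | rfl | rfl | rfl
  exacts [D30_s0, D30_s1, D30_s2, D30_s3, D30_s4]

theorem D30_ne : D30.Pairwise
    (fun c d => c.2.length = d.2.length → chkNe 83 c.1 d.1 = true) := by
  unfold D30
  refine List.Pairwise.cons (fun d hd => ?_) ?_
  · simp only [List.mem_cons, List.not_mem_nil, or_false] at hd
    rcases hd with rfl | rfl | rfl | rfl
    · exact fun _ => D30_n0_1
    · exact fun h => absurd h (by decide)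
    · exact fun h => absurd h (by decide)
    · exact fun h => absurd h (by decide)
  refine List.Pairwise.cons (fun d hd => ?_) ?_
  · simp only [List.mem_cons, List.not_mem_nil, or_false] at hd
    rcases hd with rfl | rfl | rfl
    · exact fun h => absurd h (by decide)
    · exact fun h => absurd h (by decide)
    · exact fun h => absurd h (by decide)
  refine List.Pairwise.cons (fun d hd => ?_) ?_
  · simp only [List.mem_cons, List.not_mem_nil, or_false] at hd
    rcases hd with rfl | rfl
    · exact fun h => absurd h (by decide)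
    · exact fun h => absurd h (by decide)
  refine List.Pairwise.cons (fun d hd => ?_) ?_
  · simp only [List.mem_cons, List.not_mem_nil, or_false] at hd
    subst hd
    exact fun _ => D30_n3_4
  exact List.Pairwise.cons (fun d hd => absurd hd List.not_mem_nil) List.Pairwise.nil

end Pool.Agent.LS3
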