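import Pool.Agent.Lib.MP_2c0b9b_co_S3.ChkB
import Pool.Agent.Lib.MP_2c0b9b_co_S3.GenB
import Pool.Agent.Lib.MP_2c0b9b_co_S3.GenC
import Pool.Agent.Lib.MP_2c0b9b_co_S3.CoinsB
import Pool.Agent.Lib.MP_2c0b9b_co_S3.CoinsC
import Pool.Agent.Lib.MP_2c0b9b_co_S3.CoinsD

/-!
# Large sets of strength three on 84 points
-/

set_option autoImplicit false

namespace Pool.Agent.LS3

theorem base_27_84 : G 4 27 84 := by
  have hC := isCoins_of (q := 83) (by norm_num) D27 D27_stab D27_ne
  exact good_simple (q := 83) (k := 27) (g := 6) (u := 95284) (N := 26273404505603224) (by norm_num)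
    (fun B hB => stc_dvd_of_gcd (q := 83) (k := 27) (by norm_num) (by decide +kernel) B hB)
    (by norm_num) (by decide +kernel) _ hC (by decide +kernel) (by decide +kernel)

theorem base_28_84 : G 4 28 84 := by
  have hC := isCoins_of (q := 83) (by norm_num) D28 D28_stab D28_ne
  have e : (D28.map fun c => (c.1, c.2.length)) =
      (D28.map fun c => (c.1, c.2.length)).take 6 ++
      ((D28.map fun c => (c.1, c.2.length)).drop 6).take 2 ++
      (D28.map fun c => (c.1, c.2.length)).drop 8 := rfl
  rw [e] at hC
  exact good_p (q := 83) (k := 28) (p := 7) (g := 8) (a := 6) (u := 10209) (m := 71313526515208750)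
    (N := 499194685606461256) (by norm_num) (by norm_num) (by norm_num)
    (fun B hB => stc_dvd_of_gcd (q := 83) (k := 28) (by norm_num) (by decide +kernel) B hB)
    (by norm_num) (by decide +kernel) (by norm_num) (by norm_num)
    _ _ _ hC (by decide +kernel) (by decide +kernel) (by decide +kernel) (by decide +kernel)
    (by decide +kernel) (by decide +kernel) (by decide +kernel)

theorem base_29_84 : G 4 29 84 := by
  refine good_even (q := 83) (k := 29) (g := 2) (u := 285852) (N := 34427219696997328) (by norm_num)
    (by decide) (by decide +kernel) (by norm_num)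
    (fun B hB => stc_dvd_of_gcd (q := 83) (k := 29) (by norm_num) (by decide +kernel) B hB)
    (by norm_num) (by decide +kernel) [] ?_ ?_ ?_ ?_
  · exact ⟨fun c hc => absurd hc List.not_mem_nil, fun c hc => absurd hc List.not_mem_nil,
      List.Pairwise.nil⟩
  · exact fun c hc => absurd hc List.not_mem_nil
  · rfl
  · decide

theorem base_30_84 : G 4 30 84 := by
  have hC := isCoins_of (q := 83) (by norm_num) D30 D30_stab D30_ne
  exact good_even (q := 83) (k := 30) (g := 12) (u := 47642) (N := 378699416666970608) (by norm_num)
    (by decide) (by decide +kernel) (by norm_num)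
    (fun B hB => stc_dvd_of_gcd (q := 83) (k := 30) (by norm_num) (by decide +kernel) B hB)
    (by norm_num) (by decide +kernel) _ hC (by decide +kernel) (by decide +kernel)
    (by decide +kernel)

end Pool.Agent.LS3
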