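import Pool.Agent.Lib.MP_2c0b9b_co_S3.ChkA

/-!
# Large sets of strength three: soundness of the tests, stabilisers and orbits
-/

set_option autoImplicit false

open Finset
open scoped Pointwise

namespace Pool.Agent.LS3

private theorem ChkB_allL (p : ℕ → Bool) : ∀ l : List ℕ,
    allL p l = true ↔ ∀ a ∈ l, p a = true
  | [] => by simp [allL]
  | a :: l => by
    rw [allL, List.forall_mem_cons, ← ChkB_allL p l]
    cases h : p a <;> simp

private theorem ChkB_ok (q : ℕ) : ∀ l : List ℕ, okList q l = true →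
    (∀ a ∈ l, 0 < a ∧ a < q) ∧ l.Nodup
  | [], _ => by simp
  | a :: l, h => by
    rw [okList] at h
    simp only [Bool.and_eq_true] at h
    obtain ⟨⟨h1, h2⟩, h3, h4⟩ := h
    obtain ⟨h5, h6⟩ := ChkB_ok q l h4
    rw [ChkB_allL] at h3
    refine ⟨?_, ?_⟩
    · intro b hb
      rcases List.mem_cons.1 hb with rfl | hb
      · exact ⟨by simpa [Nat.blt_eq] using h1, by simpa [Nat.blt_eq] using h2⟩
      · exact h5 b hb
    · rw [List.nodup_cons]
      refine ⟨fun ha => ?_, h6⟩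
      have h7 := h3 a ha
      simp at h7

private theorem ChkB_all {q m : ℕ} {W l P : List ℕ} (h : chkAll q m W l P = true) {x y z : ℕ}
    (hx : x ∈ l) (hy : y ∈ l) (hz : z ∈ l) (hxy : x ≠ y) (hxz : x ≠ z) (hyz : y ≠ z)
    (ht : tst q m W (Nat.sub (Nat.add y q) x) x y z = true) : (x * 100 + y) * 100 + z ∈ P := by
  have h1 := (ChkB_allL _ _).1 ((ChkB_allL _ _).1 h x hx) y hy
  rw [Bool.or_eq_true, Nat.beq_eq] at h1
  rcases h1 with h1 | h1
  · exact absurd h1 hxy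
  · have h2 := (ChkB_allL _ _).1 h1 z hz
    rw [Bool.or_eq_true, Bool.or_eq_true, Bool.or_eq_true, Nat.beq_eq, Nat.beq_eq] at h2
    rcases h2 with (h2 | h2) | h2 | h2
    · exact absurd h2 hxz
    · exact absurd h2 hyz
    · rw [ht] at h2
      simp at h2
    · exact List.elem_iff.1 h2

private theorem ChkB_one {q m : ℕ} {W l : List ℕ} {c : ℕ} (h : chkOne q m W l c = true) :
    ∃ x ∈ l, ∃ y ∈ l, ∃ z ∈ l, x ≠ y ∧ x ≠ z ∧ y ≠ z ∧
      tst q m W (Nat.sub (Nat.add y q) x) x y z = true ∧ c = (x * 100 + y) * 100 + z := by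
  unfold chkOne at h
  simp only [Bool.and_eq_true, Bool.not_eq_true'] at h
  obtain ⟨⟨h1, h2, h3⟩, ⟨h4, h5, h6⟩, h7⟩ := h
  refine ⟨Nat.div c 10000, List.elem_iff.1 h1, Nat.mod (Nat.div c 100) 100, List.elem_iff.1 h2,
    Nat.mod c 100, List.elem_iff.1 h3, ?_, ?_, ?_, h7, ?_⟩
  · intro h
    rw [h] at h4
    simp at h4
  · intro h
    rw [h] at h5
    simp at h5
  · intro h
    rw [h] at h6
    simp at h6
  · change c = (c / 10000 * 100 + (c / 100) % 100) * 100 + c % 100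
    omega

variable {q : ℕ} [Fact q.Prime]

private theorem ChkB_inj {a b : ℕ} (ha : a < q) (hb : b < q) (h : ptc q a = ptc q b) : a = b := by
  have h1 : (a : ZMod q) = (b : ZMod q) := OnePoint.coe_injective h
  rw [ZMod.natCast_eq_natCast_iff'] at h1
  rwa [Nat.mod_eq_of_lt ha, Nat.mod_eq_of_lt hb] at h1

private theorem ChkB_mem {l : List ℕ} {p : PL q} : p ∈ St q l ↔ ∃ b ∈ l, ptc q b = p := by
  unfold St
  rw [List.mem_toFinset, List.mem_map]

/-- the images of the first three points, and the test -/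
private theorem ChkB_img {x₀ y₀ z₀ : ℕ} {l l' : List ℕ}
    (h : okList q (x₀ :: y₀ :: z₀ :: l) = true) (h' : okList q l' = true) (g : PG q)
    (hg : g • St q (x₀ :: y₀ :: z₀ :: l) = St q l') :
    ∃ x ∈ l', ∃ y ∈ l', ∃ z ∈ l', (x ≠ y ∧ x ≠ z ∧ y ≠ z) ∧
      ((g : Equiv.Perm (PL q)) (ptc q x₀) = ptc q x ∧ (g : Equiv.Perm (PL q)) (ptc q y₀) = ptc q y ∧
      (g : Equiv.Perm (PL q)) (ptc q z₀) = ptc q z) ∧
      tst q (mask l') (wl q (x₀ :: y₀ :: z₀ :: l)) (Nat.sub (Nat.add y q) x) x y z = true := by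
  have hmap : ∀ b ∈ x₀ :: y₀ :: z₀ :: l, (g : Equiv.Perm (PL q)) (ptc q b) ∈ St q l' := by
    intro b hb
    rw [← hg]
    exact Finset.smul_mem_smul_finset (ChkB_mem.2 ⟨b, hb, rfl⟩)
  obtain ⟨hok, hnd⟩ := ChkB_ok q _ h
  obtain ⟨x, hx, hx'⟩ := ChkB_mem.1 (hmap x₀ (by simp))
  obtain ⟨y, hy, hy'⟩ := ChkB_mem.1 (hmap y₀ (by simp))
  obtain ⟨z, hz, hz'⟩ := ChkB_mem.1 (hmap z₀ (by simp))
  have hne : ∀ a ∈ x₀ :: y₀ :: z₀ :: l, ∀ b ∈ x₀ :: y₀ :: z₀ :: l, a ≠ b → ∀ a' b' : ℕ,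
      ptc q a' = (g : Equiv.Perm (PL q)) (ptc q a) → ptc q b' = (g : Equiv.Perm (PL q)) (ptc q b) →
      a' ≠ b' := by
    intro a ha b hb hab a' b' h1 h2 h3
    apply hab
    rw [h3, h2] at h1
    exact (ChkB_inj (hok b hb).2 (hok a ha).2 ((g : Equiv.Perm (PL q)).injective h1)).symm
  simp only [List.nodup_cons, List.mem_cons, not_or] at hnd
  have hxy : x ≠ y := hne x₀ (by simp) y₀ (by simp) hnd.1.1 x y hx' hy'
  have hxz : x ≠ z := hne x₀ (by simp) z₀ (by simp) hnd.1.2.1 x z hx' hz'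
  have hyz : y ≠ z := hne y₀ (by simp) z₀ (by simp) hnd.2.1.1 y z hy' hz'
  refine ⟨x, hx, y, hy, z, hz, ⟨hxy, hxz, hyz⟩, ⟨hx'.symm, hy'.symm, hz'.symm⟩, ?_⟩
  rw [tst_iff h h' hx hy hz hxy hxz hyz g.2 hx'.symm hy'.symm hz'.symm]
  intro b hb
  exact hmap b (by simp [hb])

theorem chkStab_sound (hq : q < 100) {l P : List ℕ} (h : chkStab q l P = true) :
    stc (PG q) (St q l) = P.length := by
  unfold chkStab at h
  simp only [Bool.and_eq_true, Nat.blt_eq] at h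
  obtain ⟨⟨hlen, hokl⟩, hokP, hall, hone⟩ := h
  obtain ⟨x₀, y₀, z₀, l1, rfl⟩ : ∃ x₀ y₀ z₀ l1, l = x₀ :: y₀ :: z₀ :: l1 := by
    match l, hlen with
    | x₀ :: y₀ :: z₀ :: l1, _ => exact ⟨x₀, y₀, z₀, l1, rfl⟩
  obtain ⟨hok, hnd⟩ := ChkB_ok q _ hokl
  have hPnd : P.Nodup := (ChkB_ok _ _ hokP).2
  rw [ChkB_allL] at hone
  have hst : ∀ g : MulAction.stabilizer (PG q) (St q (x₀ :: y₀ :: z₀ :: l1)),
      (g : PG q) • St q (x₀ :: y₀ :: z₀ :: l1) = St q (x₀ :: y₀ :: z₀ :: l1) :=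
    fun g => MulAction.mem_stabilizer_iff.1 g.2
  choose X hX Y hY Z hZ hXYZ hgXYZ htst using fun
    g : MulAction.stabilizer (PG q) (St q (x₀ :: y₀ :: z₀ :: l1)) =>
      ChkB_img hokl hokl (g : PG q) (hst g)
  have hbij : Function.Bijective
      (fun g : MulAction.stabilizer (PG q) (St q (x₀ :: y₀ :: z₀ :: l1)) =>
        (⟨(X g * 100 + Y g) * 100 + Z g, List.mem_toFinset.2
          (ChkB_all hall (hX g) (hY g) (hZ g) (hXYZ g).1 (hXYZ g).2.1 (hXYZ g).2.2 (htst g))⟩ :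
          {c // c ∈ P.toFinset})) := by
    refine ⟨fun g g' hgg => ?_, fun c => ?_⟩
    · have h1 : (X g * 100 + Y g) * 100 + Z g = (X g' * 100 + Y g') * 100 + Z g' :=
        congrArg Subtype.val hgg
      have b1 := (hok _ (hY g)).2
      have b2 := (hok _ (hZ g)).2
      have b3 := (hok _ (hY g')).2
      have b4 := (hok _ (hZ g')).2
      have e1 : X g = X g' := by omega
      have e2 : Y g = Y g' := by omega
      have e3 : Z g = Z g' := by omega
      have a1 := (hgXYZ g).1.trans ((congrArg (ptc q) e1).trans (hgXYZ g').1.symm)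
      have a2 := (hgXYZ g).2.1.trans ((congrArg (ptc q) e2).trans (hgXYZ g').2.1.symm)
      have a3 := (hgXYZ g).2.2.trans ((congrArg (ptc q) e3).trans (hgXYZ g').2.2.symm)
      have hinj : ∀ a ∈ x₀ :: y₀ :: z₀ :: l1, ∀ b ∈ x₀ :: y₀ :: z₀ :: l1, a ≠ b →
          ptc q a ≠ ptc q b := fun a ha b hb hab he =>
        hab (ChkB_inj (hok a ha).2 (hok b hb).2 he)
      simp only [List.nodup_cons, List.mem_cons, not_or] at hnd
      have h2 := (sharp_PG q).free _ (((g : PG q)⁻¹ * (g' : PG q)).2) (ptc q x₀) (ptc q y₀)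
        (ptc q z₀) (hinj _ (by simp) _ (by simp) hnd.1.1)
        (hinj _ (by simp) _ (by simp) hnd.1.2.1) (hinj _ (by simp) _ (by simp) hnd.2.1.1)
        (by
          rw [Subgroup.coe_mul, Subgroup.coe_inv, Equiv.Perm.mul_apply, ← a1]
          exact Equiv.symm_apply_apply _ _)
        (by
          rw [Subgroup.coe_mul, Subgroup.coe_inv, Equiv.Perm.mul_apply, ← a2]
          exact Equiv.symm_apply_apply _ _)
        (by
          rw [Subgroup.coe_mul, Subgroup.coe_inv, Equiv.Perm.mul_apply, ← a3]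
          exact Equiv.symm_apply_apply _ _)
      have h3 : ((g : PG q)⁻¹ * (g' : PG q)) = 1 := Subtype.ext h2
      exact Subtype.ext (inv_mul_eq_one.1 h3)
    · obtain ⟨c, hc⟩ := c
      obtain ⟨x, hx, y, hy, z, hz, hxy, hxz, hyz, ht, hcc⟩ :=
        ChkB_one (hone c (List.mem_toFinset.1 hc))
      have hinj : ∀ a ∈ x₀ :: y₀ :: z₀ :: l1, ∀ b ∈ x₀ :: y₀ :: z₀ :: l1, a ≠ b →
          ptc q a ≠ ptc q b := fun a ha b hb hab he =>
        hab (ChkB_inj (hok a ha).2 (hok b hb).2 he)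
      have hnd' := hnd
      simp only [List.nodup_cons, List.mem_cons, not_or] at hnd'
      obtain ⟨σ, hσ, hσ1, hσ2, hσ3⟩ := (sharp_PG q).trans (ptc q x₀) (ptc q y₀) (ptc q z₀)
        (ptc q x) (ptc q y) (ptc q z) (hinj _ (by simp) _ (by simp) hnd'.1.1)
        (hinj _ (by simp) _ (by simp) hnd'.1.2.1) (hinj _ (by simp) _ (by simp) hnd'.2.1.1)
        (hinj _ hx _ hy hxy) (hinj _ hx _ hz hxz) (hinj _ hy _ hz hyz)
      rw [tst_iff hokl hokl hx hy hz hxy hxz hyz hσ hσ1 hσ2 hσ3] at ht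
      have hsub : (⟨σ, hσ⟩ : PG q) • St q (x₀ :: y₀ :: z₀ :: l1) ⊆
          St q (x₀ :: y₀ :: z₀ :: l1) := by
        intro p hp
        obtain ⟨p', hp', rfl⟩ := Finset.mem_smul_finset.1 hp
        obtain ⟨b, hb, rfl⟩ := ChkB_mem.1 hp'
        change σ (ptc q b) ∈ _
        rcases List.mem_cons.1 hb with rfl | hb
        · rw [hσ1]
          exact ChkB_mem.2 ⟨x, hx, rfl⟩
        rcases List.mem_cons.1 hb with rfl | hb
        · rw [hσ2]
          exact ChkB_mem.2 ⟨y, hy, rfl⟩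
        rcases List.mem_cons.1 hb with rfl | hb
        · rw [hσ3]
          exact ChkB_mem.2 ⟨z, hz, rfl⟩
        exact ht b hb
      have heq := Finset.eq_of_subset_of_card_le hsub (Finset.card_smul_finset _ _).ge
      refine ⟨⟨⟨σ, hσ⟩, MulAction.mem_stabilizer_iff.2 heq⟩, Subtype.ext ?_⟩
      set g : MulAction.stabilizer (PG q) (St q (x₀ :: y₀ :: z₀ :: l1)) :=
        ⟨⟨σ, hσ⟩, MulAction.mem_stabilizer_iff.2 heq⟩ with hgdef
      have e1 : X g = x := ChkB_inj (hok _ (hX g)).2 (hok _ hx).2 ((hgXYZ g).1.symm.trans hσ1)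
      have e2 : Y g = y := ChkB_inj (hok _ (hY g)).2 (hok _ hy).2 ((hgXYZ g).2.1.symm.trans hσ2)
      have e3 : Z g = z := ChkB_inj (hok _ (hZ g)).2 (hok _ hz).2 ((hgXYZ g).2.2.symm.trans hσ3)
      change (X g * 100 + Y g) * 100 + Z g = c
      rw [e1, e2, e3, hcc]
  unfold stc
  rw [Nat.card_congr (Equiv.ofBijective _ hbij), Nat.card_eq_fintype_card, Fintype.card_coe,
    List.toFinset_card_of_nodup hPnd]

theorem chkNe_sound (hq : q < 100) {l l' : List ℕ} (h : chkNe q l l' = true) :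
    ∀ g : PG q, g • St q l ≠ St q l' := by
  intro g hg
  unfold chkNe at h
  simp only [Bool.and_eq_true, Nat.blt_eq] at h
  obtain ⟨⟨hlen, hokl, hokl'⟩, hall⟩ := h
  obtain ⟨x₀, y₀, z₀, l1, rfl⟩ : ∃ x₀ y₀ z₀ l1, l = x₀ :: y₀ :: z₀ :: l1 := by
    match l, hlen with
    | x₀ :: y₀ :: z₀ :: l1, _ => exact ⟨x₀, y₀, z₀, l1, rfl⟩
  obtain ⟨x, hx, y, hy, z, hz, ⟨hxy, hxz, hyz⟩, -, ht⟩ := ChkB_img hokl hokl' g hg
  have h1 := ChkB_all hall hx hy hz hxy hxz hyz ht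
  simp at h1

theorem isCoins_of (hq : q < 100) {k : ℕ} (C : List (List ℕ × List ℕ))
    (h1 : ∀ c ∈ C, c.1.length = k ∧ chkStab q c.1 c.2 = true)
    (h2 : C.Pairwise (fun c d => c.2.length = d.2.length → chkNe q c.1 d.1 = true)) :
    IsCoins q k (C.map fun c => (c.1, c.2.length)) := by
  refine ⟨?_, ?_, ?_⟩
  · intro c hc
    obtain ⟨d, hd, rfl⟩ := List.mem_map.1 hc
    have h3 := (h1 d hd).2
    unfold chkStab at h3
    simp only [Bool.and_eq_true] at h3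
    rw [← (h1 d hd).1]
    exact card_St h3.1.2
  · intro c hc
    obtain ⟨d, hd, rfl⟩ := List.mem_map.1 hc
    exact chkStab_sound hq (h1 d hd).2
  · rw [List.pairwise_map]
    exact h2.imp fun h he => chkNe_sound hq (h he)

end Pool.Agent.LS3
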