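import Pool.Agent.Lib.MP_2c0b9b_co_S3.Defs

/-!
# Large sets of strength three: designs
-/

set_option autoImplicit false

open Finset
open scoped Pointwise

namespace Pool.Agent.LS3

variable {α : Type*} [DecidableEq α]

theorem Des.union {r : ℕ} {D E : Finset (Finset α)} (h1 : Des r D) (h2 : Des r E)
    (hd : Disjoint D E) : Des r (D ∪ E) := by
  intro T T' hT hTT
  rw [filter_union, filter_union,
    card_union_of_disjoint (disjoint_filter_filter hd),
    card_union_of_disjoint (disjoint_filter_filter hd), h1 T T' hT hTT, h2 T T' hT hTT]

theorem Des.sdiff {r : ℕ} {D E : Finset (Finset α)} (h1 : Des r D) (h2 : Des r E)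
    (hs : E ⊆ D) : Des r (D \ E) := by
  intro T T' hT hTT
  have key : ∀ U : Finset α, ((D \ E).filter (fun B => U ⊆ B)).card +
      (E.filter (fun B => U ⊆ B)).card = (D.filter (fun B => U ⊆ B)).card := by
    intro U
    rw [← card_union_of_disjoint (disjoint_filter_filter sdiff_disjoint), ← filter_union,
      sdiff_union_of_subset hs]
  have e1 := key T
  have e2 := key T'
  rw [h1 T T' hT hTT, h2 T T' hT hTT] at e1
  omega

theorem Des.image {r : ℕ} {D : Finset (Finset α)} (h : Des r D) (σ : Equiv.Perm α) :
    Des r (D.image fun B => σ • B) := by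
  intro T T' hT hTT
  have key : ∀ U : Finset α, ((D.image fun B => σ • B).filter (fun B => U ⊆ B)).card =
      (D.filter (fun B => σ⁻¹ • U ⊆ B)).card := by
    intro U
    rw [filter_image, card_image_of_injective _ (MulAction.injective σ)]
    congr 1
    refine filter_congr fun B _ => ?_
    rw [Finset.subset_smul_finset_iff]
  rw [key, key]
  exact h _ _ (by rw [card_smul_finset]; exact hT)
    (by rw [card_smul_finset, card_smul_finset]; exact hTT)

/-- a family that is invariant under a group which is transitive on small sets -/
theorem des_of_invariant {Γ : Type*} [Group Γ] [MulAction Γ α] {r : ℕ}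
    (htrans : ∀ T T' : Finset α, T.card < r → T'.card = T.card → ∃ g : Γ, g • T = T')
    (D : Finset (Finset α)) (hD : ∀ (g : Γ), ∀ B ∈ D, g • B ∈ D) : Des r D := by
  intro T T' hT hTT
  obtain ⟨g, rfl⟩ := htrans T T' hT hTT.symm
  refine Finset.card_nbij' (fun B => g • B) (fun B => g⁻¹ • B) ?_ ?_ ?_ ?_
  · intro B hB
    simp only [coe_filter, Set.mem_ofPred_eq] at hB ⊢
    exact ⟨hD g B hB.1, Finset.smul_finset_subset_smul_finset_iff.2 hB.2⟩
  · intro B hB
    simp only [coe_filter, Set.mem_ofPred_eq] at hB ⊢
    exact ⟨hD g⁻¹ B hB.1, (Finset.subset_smul_finset_iff).2 (by simpa using hB.2)⟩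
  · intro B _
    simp
  · intro B _
    simp

/-- three designs of the same size that partition the `k`-sets -/
theorem good_of_des [Fintype α] {r k N : ℕ} (χ : Finset α → ZMod 3)
    (hdes : ∀ i, Des r ((powersetCard k (univ : Finset α)).filter fun B => χ B = i))
    (hN : ∀ i, ((powersetCard k (univ : Finset α)).filter fun B => χ B = i).card = N) :
    Good r (powersetCard k (univ : Finset α)) := by
  refine ⟨χ, ?_⟩
  intro T hT i
  -- the number of blocks of colour `j` that contain `T`
  have key : ∀ j : ZMod 3, (Fintype.card α).choose T.card *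
      ((powersetCard k (univ : Finset α)).filter (fun B => T ⊆ B ∧ χ B = j)).card =
        N * k.choose T.card := by
    intro j
    have h1 : ∑ T' ∈ powersetCard T.card (univ : Finset α),
        ((powersetCard k (univ : Finset α)).filter (fun B => T' ⊆ B ∧ χ B = j)).card =
        (Fintype.card α).choose T.card *
        ((powersetCard k (univ : Finset α)).filter (fun B => T ⊆ B ∧ χ B = j)).card := by
      rw [Finset.sum_const_nat (m := ((powersetCard k (univ : Finset α)).filter
        (fun B => T ⊆ B ∧ χ B = j)).card), card_powersetCard, card_univ]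
      intro T' hT'
      rw [mem_powersetCard_univ] at hT'
      have e := hdes j T' T (by rw [hT']; exact hT) hT'
      rw [filter_filter, filter_filter] at e
      have e3 : ∀ U : Finset α, ((powersetCard k (univ : Finset α)).filter
          (fun B => U ⊆ B ∧ χ B = j)) = ((powersetCard k (univ : Finset α)).filter
          (fun B => χ B = j ∧ U ⊆ B)) := fun U => filter_congr fun B _ => and_comm
      rw [e3, e3]
      exact e
    have h2 : ∑ T' ∈ powersetCard T.card (univ : Finset α),
        ((powersetCard k (univ : Finset α)).filter (fun B => T' ⊆ B ∧ χ B = j)).card =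
        ∑ B ∈ (powersetCard k (univ : Finset α)).filter (fun B => χ B = j),
          ((powersetCard T.card (univ : Finset α)).filter (fun T' => T' ⊆ B)).card := by
      simp only [card_filter, Finset.sum_filter]
      rw [Finset.sum_comm]
      refine Finset.sum_congr rfl fun B _ => ?_
      by_cases hB : χ B = j
      · simp [hB]
      · simp [hB]
    have h3 : ∀ B ∈ (powersetCard k (univ : Finset α)).filter (fun B => χ B = j),
        ((powersetCard T.card (univ : Finset α)).filter (fun T' => T' ⊆ B)).card =
          k.choose T.card := by
      intro B hB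
      rw [mem_filter, mem_powersetCard_univ] at hB
      rw [← hB.1, ← card_powersetCard]
      congr 1
      ext T'
      simp only [mem_filter, mem_powersetCard, subset_univ, true_and]
      tauto
    rw [← h1, h2, Finset.sum_const_nat h3, hN]
  have hpos : 0 < (Fintype.card α).choose T.card := Nat.choose_pos (card_le_univ T)
  have hsame : ∀ j : ZMod 3,
      ((powersetCard k (univ : Finset α)).filter (fun B => T ⊆ B ∧ χ B = j)).card =
      ((powersetCard k (univ : Finset α)).filter (fun B => T ⊆ B ∧ χ B = i)).card := by
    intro j
    exact Nat.eq_of_mul_eq_mul_left hpos ((key j).trans (key i).symm)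
  have hsum : ((powersetCard k (univ : Finset α)).filter (fun B => T ⊆ B)).card =
      ∑ j : ZMod 3,
        ((powersetCard k (univ : Finset α)).filter (fun B => T ⊆ B ∧ χ B = j)).card := by
    rw [Finset.card_eq_sum_card_fiberwise (f := χ) (t := univ) (fun _ _ => mem_coe.2 (mem_univ _))]
    refine Finset.sum_congr rfl fun j _ => ?_
    rw [filter_filter]
  rw [hsum, Finset.sum_congr rfl fun j _ => hsame j, Finset.sum_const, card_univ, ZMod.card]
  simp

end Pool.Agent.LS3
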