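import Pool.Agent.Lib.MP_2c0b9b_co_S3.K9Orb
import Pool.Agent.Lib.MP_2c0b9b_co_S3.ChkB
import Pool.Agent.Lib.MP_2c0b9b_co_S3.Des
import Pool.Agent.Lib.MP_2c0b9b_co_S3.Shp

/-!
# Large sets of strength three, `k = 9`: a design with ten disjoint images
-/

set_option autoImplicit false

open Finset
open scoped Pointwise

namespace Pool.Agent.LS3

private theorem K9D_smul {σ : Equiv.Perm (PL 29)} {F : ℕ → ℕ} (h : ∀ j, σ (tp j) = tp (F j))
    (B : List ℕ) : σ • tS B = tS (B.map F) := by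
  ext x
  simp only [tS, Finset.mem_smul_finset, List.mem_toFinset, List.mem_map]
  constructor
  · rintro ⟨y, ⟨j, hj, rfl⟩, rfl⟩
    exact ⟨F j, ⟨j, hj, rfl⟩, (h j).symm⟩
  · rintro ⟨y, ⟨j, hj, rfl⟩, rfl⟩
    exact ⟨tp j, ⟨j, hj, rfl⟩, h j⟩

private theorem K9D_congr {B : List ℕ} {F F' : ℕ → ℕ} (h : ∀ j ∈ B, tp (F j) = tp (F' j)) :
    tS (B.map F) = tS (B.map F') := by
  unfold tS
  rw [List.map_map, List.map_map]
  congr 1
  exact List.map_congr_left h

private theorem K9D_pow {T : Equiv.Perm (PL 29)} (hT : ∀ j, T (tp j) = tp (j + 1)) (i : ℕ) :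
    ∀ j, (T ^ i) (tp j) = tp (j + i) := by
  induction i with
  | zero => intro j; rfl
  | succ i ih =>
    intro j
    rw [pow_succ', Equiv.Perm.mul_apply, ih, hT]
    rfl

private theorem K9D_base : ∀ B ∈ k9base, B.Nodup ∧ (∀ j ∈ B, 0 < j ∧ j < 30) ∧
    ∃ c ∈ k9base.zip k9st, c.1 = B := by
  decide +kernel

private theorem K9D_E : ∀ j < 4, ∀ b < 29, (k9E j b).Nodup ∧ (∀ x ∈ k9E j b, x < 30) ∧
    (k9base.getD (k9tab.getD (29 * j + b) (0, 0)).1 []) ∈ k9base := by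
  decide +kernel

private theorem K9D_t : ∀ t ∈ k9ht, (∀ j < 30, gt t j < 30) ∧
    ∀ i < 30, ∀ j < 30, gt t i = gt t j → i = j := by
  decide +kernel

private theorem K9D_head : ∀ j < 30, gt (List.range 30) j = j := by
  decide +kernel

private theorem K9D_range : List.range 30 ∈ k9ht := by
  decide +kernel

private theorem K9D_tl : ∀ l < 6, 1 ≤ l → k9ht.getD l [] ∈ k9ht.tail ∧ k9ht.getD l [] ∈ k9ht := by
  decide +kernel

private theorem K9D_St {B : List ℕ} (h : ∀ j ∈ B, 0 < j ∧ j < 30) :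
    St 29 (B.map (gt k9pt)) = tS B := by
  unfold St tS
  rw [List.map_map]
  congr 1
  refine List.map_congr_left fun j hj => ?_
  have h1 := h j hj
  have h2 : j % 30 = j := Nat.mod_eq_of_lt h1.2
  unfold tp
  rw [if_neg (by omega), h2]
  rfl

private theorem K9D_nodup {t : List ℕ} (ht : t ∈ k9ht) {B : List ℕ} (hB : B ∈ k9base) (i : ℕ) :
    (B.map fun j => gt t (Nat.mod (Nat.add j i) 30)).Nodup := by
  have h1 := K9D_base B hB
  refine List.Nodup.map_on ?_ h1.1
  intro x hx y hy hxy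
  have h2 := (K9D_t t ht).2 _ (Nat.mod_lt _ (by norm_num)) _ (Nat.mod_lt _ (by norm_num)) hxy
  have h3 := (h1.2.1 x hx).2
  have h4 := (h1.2.1 y hy).2
  have h5 : (x + i) % 30 = (y + i) % 30 := h2
  omega

private theorem K9D_lt {t : List ℕ} (ht : t ∈ k9ht) (B : List ℕ) (i : ℕ) :
    ∀ j ∈ (B.map fun j => gt t (Nat.mod (Nat.add j i) 30)), j < 30 := by
  intro j hj
  obtain ⟨x, -, rfl⟩ := List.mem_map.1 hj
  exact (K9D_t t ht).1 _ (Nat.mod_lt _ (by norm_num))

private theorem K9D_img (t : List ℕ) (i : ℕ) (B : List ℕ) :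
    mask (B.map fun j => gt t (Nat.mod (Nat.add j i) 30)) = k9img t (i % 30) B := by
  unfold k9img
  congr 1
  refine List.map_congr_left fun j _ => ?_
  have : Nat.mod (Nat.add j i) 30 = Nat.mod (Nat.add j (i % 30)) 30 := by
    show (j + i) % 30 = (j + i % 30) % 30
    omega
  rw [this]

private theorem K9D_r7 : ∀ j ∈ k9r7, 0 < j ∧ j < 30 := by
  decide +kernel

/-- a block in coordinates -/
private theorem K9D_rot {T : Equiv.Perm (PL 29)} (hT : ∀ j, T (tp j) = tp (j + 1)) (i : ℕ)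
    (B : List ℕ) :
    T ^ i • tS B = tS (B.map fun j => gt (List.range 30) (Nat.mod (Nat.add j i) 30)) := by
  rw [K9D_smul (K9D_pow hT i)]
  refine K9D_congr fun j _ => ?_
  have h1 : gt (List.range 30) (Nat.mod (Nat.add j i) 30) = (j + i) % 30 :=
    K9D_head _ (Nat.mod_lt _ (by norm_num))
  rw [h1]
  exact (tp_mod _).symm

private theorem K9D_stc_smul (g : PG 29) (B : Finset (PL 29)) :
    stc (PG 29) (g • B) = stc (PG 29) B := by
  rw [← stc_orep (g • B), orep_smul, stc_orep]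

theorem exists_D : ∃ (D : Finset (Finset (PL 29))) (h : Equiv.Perm (PL 29))
    (R : Finset (Finset (PL 29))), h ∈ PG 29 ∧ h ^ 10 = 1 ∧ Des 4 D ∧ D.card = 1740 ∧
    (∀ B ∈ D, B.card = 9 ∧ stc (PG 29) B ≤ 2 ∧ orep (PG 29) B ∈ R) ∧ R.card ≤ 116 ∧
    ∀ l, 1 ≤ l → l ≤ 5 → Disjoint D (D.image fun B => h ^ l • B) := by
  classical
  obtain ⟨T, hT, hTp⟩ := exists_T
  obtain ⟨h, hh, hh10, hhp⟩ := exists_h
  obtain ⟨π, hπ⟩ := exists_pi
  obtain ⟨B7, hB7⟩ : ∃ B, B = tS ([29, 0, 1, 7, 16, 20, 23, 24, 25].map (gt k9lab)) := ⟨_, rfl⟩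
  obtain ⟨O, hO⟩ : ∃ O : Finset (Finset (PL 29)),
    O = univ.filter (fun B => B ∈ MulAction.orbit (PG 29) B7) := ⟨_, rfl⟩
  have hmemO : ∀ B, B ∈ O ↔ B ∈ MulAction.orbit (PG 29) B7 := by
    intro B
    rw [hO, mem_filter]
    exact ⟨fun h => h.2, fun h => ⟨mem_univ _, h⟩⟩
  -- the rotation as an element of the group
  obtain ⟨T', hT'⟩ : ∃ T' : PG 29, (T' : Equiv.Perm (PL 29)) = T := ⟨⟨T, hT⟩, rfl⟩
  have hTs : ∀ (i : ℕ) (B : Finset (PL 29)), T' ^ i • B = T ^ i • B := by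
    intro i B
    rw [← hT']
    rfl
  -- the stabiliser of `B7`
  have hstc7 : stc (PG 29) B7 = 14 := by
    have h1 : T' ^ 2 • B7 = St 29 (k9r7.map (gt k9pt)) := by
      rw [hTs, hB7, K9D_smul (K9D_pow hTp 2), K9D_St K9D_r7]
      unfold k9r7
      exact K9D_congr fun j _ => (tp_mod _).symm
    rw [← K9D_stc_smul (T' ^ 2), h1, chkStab_sound (by norm_num) k9_b7.1, k9_b7.2.1]
  have hOcard : O.card = 1740 := by
    have h1 : O.card = osz (PG 29) B7 := by
      unfold osz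
      rw [← Set.ncard_coe_finset]
      have : (O : Set (Finset (PL 29))) = MulAction.orbit (PG 29) B7 := by
        ext B
        exact hmemO B
      rw [this]
      rfl
    have h2 := osz_mul_stc (Γ := PG 29) B7
    rw [hstc7, card_PG, ← h1] at h2
    omega
  -- the blocks
  have hblock : ∀ B ∈ O.image (fun B => π • B), ∃ i, ∃ B0 ∈ k9base, B = T ^ i • tS B0 := by
    intro B hB
    obtain ⟨B', hB', rfl⟩ := mem_image.1 hB
    obtain ⟨g, rfl⟩ := (hmemO _).1 hB'
    obtain ⟨i, hi, j, hj, b, hb, hg⟩ := orbit_B7 hT hTp g.2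
    have h1 : g • B7 = (g : Equiv.Perm (PL 29)) • B7 := rfl
    obtain ⟨hE1, hE2, hE3⟩ := K9D_E j hj b hb
    obtain ⟨s, hs⟩ : ∃ s, s = (k9tab.getD (29 * j + b) (0, 0)).2 := ⟨_, rfl⟩
    obtain ⟨B0, hB0⟩ : ∃ B0, B0 = k9base.getD (k9tab.getD (29 * j + b) (0, 0)).1 [] := ⟨_, rfl⟩
    have h2 : tS (k9E j b) = T ^ s • tS B0 := by
      rw [K9D_rot hTp]
      refine tS_eq_of_mask hE1 (K9D_nodup K9D_range (by rw [hB0]; exact hE3) s) hE2
        (K9D_lt K9D_range B0 s) ?_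
      rw [hB0, hs]
      exact k9_c1 j hj b hb
    refine ⟨11 * i + s, B0, by rw [hB0]; exact hE3, ?_⟩
    rw [pow_add, mul_smul, ← h2]
    simp only
    rw [h1, hB7, hg, K9D_smul (K9D_pow hTp i), K9D_smul hπ, K9D_smul (K9D_pow hTp (11 * i))]
    unfold k9E
    rw [List.map_map, List.map_map, List.map_map]
    unfold tS
    rw [List.map_map, List.map_map]
    congr 1
    refine List.map_congr_left fun x _ => ?_
    show tp (11 * (gt k9lab x + i)) = tp ((11 * gt k9lab x) % 30 + 11 * i)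
    rw [← tp_mod, ← tp_mod ((11 * gt k9lab x) % 30 + 11 * i)]
    congr 1
    omega
  refine ⟨O.image (fun B => π • B), h,
    (k9base.map fun B => orep (PG 29) (tS B)).toFinset, hh, hh10, ?_, ?_, ?_, ?_, ?_⟩
  · refine Des.image (des_of_invariant (Γ := PG 29) ?_ O ?_) π
    · exact Sharp.htrans (sharp_PG 29) (by rw [card_PL]; norm_num)
    · intro g B hB
      rw [hmemO] at hB ⊢
      exact MulAction.mem_orbit_of_mem_orbit g hB
  · rw [card_image_of_injective _ (MulAction.injective π), hOcard]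
  · intro B hB
    obtain ⟨i, B0, hB0, rfl⟩ := hblock B hB
    obtain ⟨h1, h2, c, hc, rfl⟩ := K9D_base B0 hB0
    have h3 := k9_st c hc
    have h4 : okList 29 (c.1.map (gt k9pt)) = true := by
      have h5 := h3.1
      unfold chkStab at h5
      simp only [Bool.and_eq_true] at h5
      exact h5.1.2
    rw [← hTs, ← K9D_St h2]
    refine ⟨?_, ?_, ?_⟩
    · rw [card_smul_finset, card_St h4, List.length_map, h3.2.2]
    · rw [K9D_stc_smul, chkStab_sound (by norm_num) h3.1]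
      exact h3.2.1
    · rw [orep_smul, K9D_St h2]
      exact List.mem_toFinset.2 (List.mem_map.2 ⟨c.1, hB0, rfl⟩)
  · refine (List.toFinset_card_le _).trans ?_
    rw [List.length_map]
    decide
  · intro l hl1 hl5
    rw [disjoint_left]
    intro B hB hB'
    obtain ⟨B', hB'1, hB'2⟩ := mem_image.1 hB'
    obtain ⟨i, B0, hB0, h1⟩ := hblock B hB
    obtain ⟨i', B1, hB1, h2⟩ := hblock B' hB'1
    obtain ⟨ht1, ht2⟩ := K9D_tl l (by omega) hl1
    rw [K9D_rot hTp] at h1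
    rw [h2, K9D_smul (K9D_pow hTp i'), K9D_smul (hhp l hl1 hl5)] at hB'2
    have h3 : tS (B1.map fun j => gt (k9ht.getD l []) (Nat.mod (Nat.add j i') 30)) =
        tS (B0.map fun j => gt (List.range 30) (Nat.mod (Nat.add j i) 30)) := by
      rw [← h1, ← hB'2, List.map_map]
      rfl
    have h4 := mask_eq_of_tS (K9D_nodup ht2 hB1 i') (K9D_nodup K9D_range hB0 i)
      (K9D_lt ht2 B1 i') (K9D_lt K9D_range B0 i) h3
    rw [K9D_img, K9D_img] at h4
    have h5 := k9_c2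
    have h6 := k9_c3 _ ht1
    unfold k9c2 at h5
    unfold k9c3 at h6
    rw [List.all_eq_true] at h5 h6
    have h7 := h5 (i % 30) (List.mem_range.2 (Nat.mod_lt _ (by norm_num)))
    have h8 := h6 (i' % 30) (List.mem_range.2 (Nat.mod_lt _ (by norm_num)))
    rw [List.all_eq_true] at h7 h8
    have h9 := h7 B0 hB0
    have h10 := h8 B1 hB1
    rw [h4, h9] at h10
    exact absurd h10 (by decide)

end Pool.Agent.LS3
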