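import Pool.Agent.Lib.MP_2c0b9b_co_S3.Col9
import Pool.Agent.Lib.MP_2c0b9b_co_S3.K9D

/-!
# Large sets of strength three on 30 points, `k = 9`
-/

set_option autoImplicit false

open Finset
open scoped Pointwise

namespace Pool.Agent.LS3

private theorem Base9_union {α : Type*} [DecidableEq α] {r n c : ℕ}
    {A : ℕ → Finset (Finset α)} (hA : ∀ l, Des r (A l)) (hc : ∀ l, (A l).card = c)
    (hd : ∀ i j, i < j → j < n → Disjoint (A i) (A j)) (s : Finset ℕ) :
    (∀ x ∈ s, x < n) → Des r (s.biUnion A) ∧ (s.biUnion A).card = c * s.card := by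
  induction s using Finset.induction_on with
  | empty =>
    intro _
    refine ⟨fun T T' _ _ => by simp, by simp⟩
  | insert a s ha ih =>
    intro hs
    obtain ⟨i1, i2⟩ := ih fun x hx => hs x (mem_insert_of_mem hx)
    have hdis : Disjoint (A a) (s.biUnion A) := by
      rw [disjoint_biUnion_right]
      intro x hx
      have hxn := hs x (mem_insert_of_mem hx)
      have han := hs a (mem_insert_self a s)
      rcases lt_trichotomy a x with h | h | h
      · exact hd a x h hxn
      · exact absurd (h ▸ hx) ha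
      · exact (hd x a h han).symm
    rw [biUnion_insert]
    refine ⟨(hA a).union i1 hdis, ?_⟩
    rw [card_union_of_disjoint hdis, hc, i2, card_insert_of_notMem ha]
    ring

theorem base_9_30 : G 4 9 30 := by
  obtain ⟨D, h, R0, hh, h10, hDes, hDc, hDB, hR0, hdisj⟩ := exists_D
  have hRsub : D.image (orep (PG 29)) ⊆ R0 := by
    intro x hx
    obtain ⟨B, hB, rfl⟩ := mem_image.1 hx
    exact (hDB B hB).2.2
  obtain ⟨f, hf0, s0, s1, s2⟩ := exists_col9 (D.image (orep (PG 29)))
    ((card_le_card hRsub).trans hR0) (by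
      intro x hx
      obtain ⟨B, hB, rfl⟩ := mem_image.1 hx
      rw [stc_orep]
      exact (hDB B hB).2.1)
  have htrans := (sharp_PG 29).htrans (by rw [card_PL]; norm_num)
  have hcls : ∀ i : ZMod 3, Des 4 (cls (PG 29) 9 fun R => f R = i) := fun i =>
    des_cls htrans _
  have c0 : (cls (PG 29) 9 fun R => f R = 0).card = 290 * 16505 := by rw [card_cls, s0]
  have c1 : (cls (PG 29) 9 fun R => f R = 1).card = 290 * 16415 := by rw [card_cls, s1]
  have c2 : (cls (PG 29) 9 fun R => f R = 2).card = 290 * 16415 := by rw [card_cls, s2]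
  -- the images
  set A : ℕ → Finset (Finset (PL 29)) := fun l => D.image fun B => h ^ l • B with hA
  have hinj : ∀ l : ℕ, Function.Injective fun B : Finset (PL 29) => h ^ l • B := fun l =>
    MulAction.injective (h ^ l)
  have hAdes : ∀ l, Des 4 (A l) := fun l => hDes.image (h ^ l)
  have hAc : ∀ l, (A l).card = 1740 := fun l => by
    rw [hA]
    simp only
    rw [card_image_of_injective _ (hinj l), hDc]
  have hAadd : ∀ i l, A (i + l) = (A l).image fun B => h ^ i • B := by
    intro i l
    rw [hA]
    simp only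
    rw [image_image]
    refine image_congr fun B _ => ?_
    simp only [Function.comp_apply]
    rw [pow_add, mul_smul]
  have hA10 : ∀ i, A (i + 10) = A i := by
    intro i
    rw [hA]
    simp only
    rw [pow_add, h10, mul_one]
  have hA0 : ∀ i, A i = D.image fun B => h ^ i • B := fun i => rfl
  have hstep : ∀ i l, 1 ≤ l → l ≤ 5 → Disjoint (A i) (A (i + l)) := by
    intro i l h1 h2
    rw [hAadd, hA0 i, disjoint_image (hinj i)]
    exact hdisj l h1 h2
  have hAd : ∀ i j, i < j → j < 10 → Disjoint (A i) (A j) := by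
    intro i j h1 h2
    by_cases h3 : j - i ≤ 5
    · have := hstep i (j - i) (by omega) h3
      rwa [show i + (j - i) = j by omega] at this
    · have := hstep j (10 - (j - i)) (by omega) (by omega)
      rw [show j + (10 - (j - i)) = i + 10 by omega, hA10] at this
      exact this.symm
  have hAcls : ∀ l, A l ⊆ cls (PG 29) 9 fun R => f R = 0 := by
    intro l x hx
    obtain ⟨B, hB, rfl⟩ := mem_image.1 hx
    have e1 : orep (PG 29) (h ^ l • B) = orep (PG 29) B :=
      orep_smul (⟨h ^ l, pow_mem hh l⟩ : PG 29) B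
    refine mem_filter.2 ⟨?_, ?_⟩
    · rw [mem_powersetCard_univ, card_smul_finset]
      exact (hDB B hB).1
    · rw [e1]
      exact hf0 _ (mem_image_of_mem _ hB)
  obtain ⟨d1, k1⟩ := Base9_union hAdes hAc hAd (range 5) (fun x hx => by
    have := mem_range.1 hx
    omega)
  obtain ⟨d2, k2⟩ := Base9_union hAdes hAc hAd (Ico 5 10) (fun x hx => (mem_Ico.1 hx).2)
  set E1 := (range 5).biUnion A with hE1
  set E2 := (Ico 5 10).biUnion A with hE2
  rw [card_range] at k1
  rw [Nat.card_Ico] at k2
  have hE12 : Disjoint E1 E2 := by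
    rw [hE1, hE2, disjoint_biUnion_left]
    intro i hi
    rw [disjoint_biUnion_right]
    intro j hj
    have := mem_range.1 hi
    have := mem_Ico.1 hj
    exact hAd i j (by omega) (by omega)
  have hE1s : E1 ⊆ cls (PG 29) 9 fun R => f R = 0 := biUnion_subset.2 fun l _ => hAcls l
  have hE2s : E2 ⊆ cls (PG 29) 9 fun R => f R = 0 := biUnion_subset.2 fun l _ => hAcls l
  have hdd : ∀ (i : ZMod 3), i ≠ 0 → ∀ E : Finset (Finset (PL 29)),
      E ⊆ (cls (PG 29) 9 fun R => f R = 0) → Disjoint (cls (PG 29) 9 fun R => f R = i) E := by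
    intro i hi E hE
    rw [disjoint_left]
    intro B hB hB2
    have e1 : f (orep (PG 29) B) = i := (mem_filter.1 hB).2
    have e2 : f (orep (PG 29) B) = 0 := (mem_filter.1 (hE hB2)).2
    exact hi (e1.symm.trans e2)
  have n10 : (1 : ZMod 3) ≠ 0 := by decide
  have n20 : (2 : ZMod 3) ≠ 0 := by decide
  have n21 : (2 : ZMod 3) ≠ 1 := by decide
  -- the new colouring
  set χ : Finset (PL 29) → ZMod 3 := fun B =>
    if B ∈ E1 then 1 else if B ∈ E2 then 2 else f (orep (PG 29) B) with hχ
  have f0 : (powersetCard 9 (univ : Finset (PL 29))).filter (fun B => χ B = 0) =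
      (cls (PG 29) 9 fun R => f R = 0) \ (E1 ∪ E2) := by
    ext B
    rw [mem_filter, mem_sdiff, mem_union]
    unfold cls
    rw [mem_filter]
    simp only [hχ]
    by_cases b1 : B ∈ E1
    · simp [b1, n10]
    · by_cases b2 : B ∈ E2
      · simp [b1, b2, n20]
      · simp [b1, b2]
  have f1 : (powersetCard 9 (univ : Finset (PL 29))).filter (fun B => χ B = 1) =
      (cls (PG 29) 9 fun R => f R = 1) ∪ E1 := by
    ext B
    rw [mem_filter, mem_union]
    by_cases b1 : B ∈ E1
    · have e1 := mem_filter.1 (hE1s b1)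
      simp only [hχ, b1, if_true, or_true, and_true, iff_true]
      exact e1.1
    · by_cases b2 : B ∈ E2
      · have e1 := disjoint_right.1 (hdd 1 n10 E2 hE2s) b2
        simp only [hχ, b1, b2, if_true, if_false, or_false, n21, and_false, false_iff]
        exact e1
      · unfold cls
        rw [mem_filter]
        simp [hχ, b1, b2]
  have f2 : (powersetCard 9 (univ : Finset (PL 29))).filter (fun B => χ B = 2) =
      (cls (PG 29) 9 fun R => f R = 2) ∪ E2 := by
    ext B
    rw [mem_filter, mem_union]
    by_cases b1 : B ∈ E1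
    · have e1 := disjoint_right.1 (hdd 2 n20 E1 hE1s) b1
      have e2 := disjoint_left.1 hE12 b1
      simp only [hχ, b1, e2, if_true, or_false, n21.symm, and_false, false_iff]
      exact e1
    · by_cases b2 : B ∈ E2
      · have e1 := mem_filter.1 (hE2s b2)
        simp only [hχ, b1, b2, if_true, if_false, or_true, and_true, iff_true]
        exact e1.1
      · unfold cls
        rw [mem_filter]
        simp [hχ, b1, b2]
  have hz : ∀ i : ZMod 3, i = 0 ∨ i = 1 ∨ i = 2 := by decide
  refine G_of_good 29 (good_of_des (N := 4769050) χ ?_ ?_)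
  · intro i
    rcases hz i with rfl | rfl | rfl
    · rw [f0]
      exact (hcls 0).sdiff (d1.union d2 hE12) (union_subset hE1s hE2s)
    · rw [f1]
      exact (hcls 1).union d1 (hdd 1 n10 E1 hE1s)
    · rw [f2]
      exact (hcls 2).union d2 (hdd 2 n20 E2 hE2s)
  · intro i
    rcases hz i with rfl | rfl | rfl
    · rw [f0, card_sdiff_of_subset (union_subset hE1s hE2s), card_union_of_disjoint hE12, c0, k1,
        k2]
    · rw [f1, card_union_of_disjoint (hdd 1 n10 E1 hE1s), c1, k1]
    · rw [f2, card_union_of_disjoint (hdd 2 n20 E2 hE2s), c2, k2]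

end Pool.Agent.LS3
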