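import Pool.Agent.Lib.MP_2c0b9b_co_S3.Des

/-!
# Large sets of strength three: orbits on the `k`-sets and their sizes
-/

set_option autoImplicit false

open Finset
open scoped Pointwise

namespace Pool.Agent.LS3

variable {α : Type*} [DecidableEq α] [Fintype α] {Γ : Type*} [Group Γ] [MulAction Γ α] [Finite Γ]

theorem osz_mul_stc (B : Finset α) : osz Γ B * stc Γ B = Nat.card Γ := by
  unfold osz stc
  rw [Nat.card_coe_set_eq, ← MulAction.index_stabilizer, Subgroup.index_mul_card]

theorem stc_pos (B : Finset α) : 0 < stc Γ B := Nat.card_pos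

theorem stc_orep (B : Finset α) : stc Γ (orep Γ B) = stc Γ B := by
  obtain ⟨g, hg⟩ := orep_mem (Γ := Γ) B
  rw [← hg]
  exact (Nat.card_congr (MulAction.stabilizerEquivStabilizer (G := Γ) (g := g) (a := B)
    (b := g • B) rfl).toEquiv).symm

theorem osz_orep (B : Finset α) : osz Γ (orep Γ B) = osz Γ B := by
  unfold osz
  rw [MulAction.orbit_eq_iff.2 (orep_mem (Γ := Γ) B)]

theorem card_orep (B : Finset α) : (orep Γ B).card = B.card := by
  obtain ⟨g, hg⟩ := orep_mem (Γ := Γ) B
  rw [← hg]
  exact card_smul_finset g B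

theorem orep_mem_reps {k : ℕ} {B : Finset α} (hB : B.card = k) : orep Γ B ∈ reps Γ k :=
  mem_image_of_mem _ (mem_powersetCard_univ.2 hB)

theorem of_mem_reps {k : ℕ} {R : Finset α} (hR : R ∈ reps Γ k) : R.card = k ∧ orep Γ R = R := by
  obtain ⟨B, hB, rfl⟩ := mem_image.1 hR
  exact ⟨(card_orep B).trans (mem_powersetCard_univ.1 hB), orep_orep B⟩

/-- the number of `k`-sets with representative in a given set -/
theorem card_cls (k : ℕ) (p : Finset α → Prop) [DecidablePred p] :
    (cls Γ k p).card = ∑ R ∈ (reps Γ k).filter p, osz Γ R := by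
  have e1 : (cls Γ k p).card = ∑ R ∈ (reps (α := α) Γ k).filter p,
      ((cls Γ k p).filter fun B => orep Γ B = R).card := by
    refine card_eq_sum_card_fiberwise fun B hB => ?_
    have hB' := mem_filter.1 (mem_coe.1 hB)
    rw [mem_coe, mem_filter]
    exact ⟨mem_image_of_mem _ hB'.1, hB'.2⟩
  rw [e1]
  refine sum_congr rfl fun R hR => ?_
  have hF : ∀ (g : Γ) (x : Finset α), x ∈ powersetCard k (univ : Finset α) →
      g • x ∈ powersetCard k (univ : Finset α) := by
    intro g x hx
    rw [mem_powersetCard_univ] at hx ⊢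
    rw [card_smul_finset]
    exact hx
  have h1 := card_fiber_mul_card_stabilizer (powersetCard k (univ : Finset α)) hF
    (mem_filter.1 hR).1
  have h2 := osz_mul_stc (Γ := Γ) R
  have h3 : ((powersetCard k (univ : Finset α)).filter (fun x => orep Γ x = R)).card = osz Γ R :=
    Nat.eq_of_mul_eq_mul_right (stc_pos (Γ := Γ) R) (h1.trans h2.symm)
  rw [← h3]
  unfold cls
  rw [filter_filter]
  congr 1
  refine filter_congr fun B _ => ?_
  constructor
  · exact fun h => h.2
  · exact fun h => ⟨by rw [h]; exact (mem_filter.1 hR).2, h⟩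

/-- all `k`-sets -/
theorem sum_osz (k : ℕ) : ∑ R ∈ reps (α := α) Γ k, osz Γ R = (Fintype.card α).choose k := by
  have h := card_cls (α := α) (Γ := Γ) k (fun _ => True)
  rw [filter_true] at h
  rw [← h]
  unfold cls
  rw [filter_true, card_powersetCard, card_univ]

/-- a union of orbits is a design -/
theorem des_cls {r k : ℕ}
    (htrans : ∀ T T' : Finset α, T.card < r → T'.card = T.card → ∃ g : Γ, g • T = T')
    (p : Finset α → Prop) [DecidablePred p] : Des r (cls Γ k p) := by
  refine des_of_invariant htrans _ fun g B hB => ?_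
  have hB' := mem_filter.1 hB
  refine mem_filter.2 ⟨?_, ?_⟩
  · rw [mem_powersetCard_univ, card_smul_finset]
    exact mem_powersetCard_univ.1 hB'.1
  · rw [orep_smul]
    exact hB'.2

/-- a colouring of the orbits with equal total sizes -/
theorem good_of_reps {r k N : ℕ}
    (htrans : ∀ T T' : Finset α, T.card < r → T'.card = T.card → ∃ g : Γ, g • T = T')
    (f : Finset α → ZMod 3)
    (hf : ∀ i, ∑ R ∈ (reps Γ k).filter (fun R => f R = i), osz Γ R = N) :
    Good r (powersetCard k (univ : Finset α)) := by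
  refine ⟨fun B => f (orep Γ B), ?_⟩
  refine bal_of_invariant (Γ := Γ) (N := N) htrans _ (fun g B => by rw [orep_smul]) ?_
  intro i
  rw [← hf i, ← card_cls (Γ := Γ) k (fun R => f R = i)]
  rfl

end Pool.Agent.LS3
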