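import Pool.Agent.Lib.MP_2c0b9b_co_S3.Pgl
import Pool.Agent.Lib.MP_2c0b9b_co_S3.OrbW
import Mathlib.Combinatorics.Colex

/-!
# Large sets of strength three: soundness of the tests
-/

set_option autoImplicit false

open Finset
open scoped Pointwise

namespace Pool.Agent.LS3

variable {q : ℕ} [Fact q.Prime]

/-! ### Auxiliary facts -/

private theorem ChkA_allL {p : ℕ → Bool} {l : List ℕ} :
    allL p l = true ↔ ∀ a ∈ l, p a = true := by
  induction l with
  | nil => simp [allL]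
  | cons a l ih =>
    show (bif p a then allL p l else false) = true ↔ _
    cases h : p a with
    | false => simp [h]
    | true => simp [h, ih]

omit [Fact q.Prime] in
private theorem ChkA_ok {l : List ℕ} (h : okList q l = true) :
    (∀ a ∈ l, 0 < a ∧ a < q) ∧ l.Nodup := by
  induction l with
  | nil => simp
  | cons a l ih =>
    change ((Nat.blt 0 a && Nat.blt a q) &&
      (allL (fun b => !(Nat.beq a b)) l && okList q l)) = true at h
    rw [Bool.and_eq_true, Bool.and_eq_true, Bool.and_eq_true, ChkA_allL] at h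
    obtain ⟨⟨h1, h2⟩, h3, h4⟩ := h
    obtain ⟨i1, i2⟩ := ih h4
    have h1' : 0 < a := by rwa [Nat.blt_eq] at h1
    have h2' : a < q := by rwa [Nat.blt_eq] at h2
    refine ⟨?_, ?_⟩
    · intro b hb
      rcases List.mem_cons.1 hb with rfl | hb
      · exact ⟨h1', h2'⟩
      · exact i1 b hb
    · refine List.nodup_cons.2 ⟨fun ha => ?_, i2⟩
      have h5 := h3 a ha
      simp at h5

omit [Fact q.Prime] in
private theorem ChkA_inj {a b : ℕ} (ha : a < q) (hb : b < q) (h : ptc q a = ptc q b) : a = b := by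
  have h1 : ((a : ZMod q)) = (b : ZMod q) := OnePoint.coe_injective h
  rw [ZMod.natCast_eq_natCast_iff'] at h1
  rwa [Nat.mod_eq_of_lt ha, Nat.mod_eq_of_lt hb] at h1

omit [Fact q.Prime] in
private theorem ChkA_mem {l : List ℕ} {P : PL q} : P ∈ St q l ↔ ∃ a ∈ l, ptc q a = P := by
  rw [St, List.mem_toFinset, List.mem_map]

omit [Fact q.Prime] in
private theorem ChkA_mem' {l : List ℕ} (hl : ∀ a ∈ l, 0 < a ∧ a < q) {n : ℕ} (hn : n < q) :
    ptc q n ∈ St q l ↔ n ∈ l := by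
  rw [ChkA_mem]
  constructor
  · rintro ⟨a, ha, h⟩
    rwa [← ChkA_inj (hl a ha).2 hn h]
  · intro h
    exact ⟨n, h, rfl⟩

private theorem ChkA_mask {l : List ℕ} (hl : l.Nodup) : mask l = ∑ i ∈ l.toFinset, 2 ^ i := by
  induction l with
  | nil => rfl
  | cons a l ih =>
    obtain ⟨h1, h2⟩ := List.nodup_cons.1 hl
    rw [List.toFinset_cons, Finset.sum_insert (by simpa using h1), ← ih h2]
    rfl

private theorem ChkA_bit {l : List ℕ} (hl : l.Nodup) (x : ℕ) :
    bit (mask l) x = true ↔ x ∈ l := by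
  have h1 : bit (mask l) x = true ↔ (mask l).testBit x = true := by
    rw [Nat.testBit_eq_decide_div_mod_eq]
    show (Nat.beq (mask l / 2 ^ x % 2) 1) = true ↔ _
    rw [Nat.beq_eq, decide_eq_true_iff]
  rw [h1, ← Nat.mem_bitIndices, ← List.mem_toFinset, ChkA_mask hl,
    Finset.toFinset_bitIndices_sum_two_pow, List.mem_toFinset]

private theorem ChkA_inv (hq : 2 < q) (a : ZMod q) : a ^ (q - 2) = a⁻¹ := by
  by_cases ha : a = 0
  · rw [ha, inv_zero, zero_pow (by omega)]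
  · have h1 := ZMod.pow_card_sub_one_eq_one ha
    have h2 : q - 1 = (q - 2) + 1 := by omega
    rw [h2, pow_succ] at h1
    exact eq_inv_of_mul_eq_one_left h1

private theorem ChkA_sub {x y : ℕ} (hx : x < q) :
    ((Nat.sub (Nat.add y q) x : ℕ) : ZMod q) = (y : ZMod q) - (x : ZMod q) := by
  show ((y + q - x : ℕ) : ZMod q) = _
  rw [Nat.cast_sub (by omega), Nat.cast_add, ZMod.natCast_self, add_zero]

private theorem ChkA_cr (hq : 2 < q) {x y z b : ℕ} (hx : x < q) (hz : z < q) :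
    ((crN q x y z b : ℕ) : ZMod q) = ((b : ZMod q) - x) * ((y : ZMod q) - z) *
      (((b : ZMod q) - z) * ((y : ZMod q) - x))⁻¹ := by
  have e1 := ChkA_sub (q := q) (y := b) hx
  have e2 := ChkA_sub (q := q) (y := y) hz
  have e3 := ChkA_sub (q := q) (y := b) hz
  have e4 := ChkA_sub (q := q) (y := y) hx
  show (((Nat.sub (Nat.add b q) x * Nat.sub (Nat.add y q) z) *
    ((Nat.sub (Nat.add b q) z * Nat.sub (Nat.add y q) x) % q) ^ (q - 2) % q : ℕ) : ZMod q) = _
  rw [ZMod.natCast_mod, Nat.cast_mul, Nat.cast_mul, Nat.cast_pow, ZMod.natCast_mod, Nat.cast_mul,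
    e1, e2, e3, e4, ChkA_inv hq]

private theorem ChkA_okAll {m a b az bx : ℕ} {W : List ℕ} :
    okAll q m a b az bx W = true ↔ ∀ w ∈ W,
      bit m ((az * w + bx) * ((a * w + b) % q) ^ (q - 2) % q) = true := by
  induction W with
  | nil => simp [okAll]
  | cons w W ih =>
    show (bif bit m ((az * w + bx) * ((a * w + b) % q) ^ (q - 2) % q)
      then okAll q m a b az bx W else false) = true ↔ _
    cases h : bit m ((az * w + bx) * ((a * w + b) % q) ^ (q - 2) % q) with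
    | false => simp [h]
    | true => simp [h, ih]

/-- the algebra: the cross ratio is preserved -/
private theorem ChkA_alg {F : Type*} [Field F] {A B C D X₀ Y₀ Z₀ β : F}
    (hdet : A * D - B * C ≠ 0) {p r s : F} (hp : C * X₀ + D = p) (hr : C * Y₀ + D = r)
    (hs : C * Z₀ + D = s) (dX : p ≠ 0) (dY : r ≠ 0) (dZ : s ≠ 0)
    (h1 : X₀ ≠ Y₀) (h2 : X₀ ≠ Z₀) (h3 : Y₀ ≠ Z₀) (h4 : β ≠ Z₀)
    {X Y Z w : F} (hX : X * p = A * X₀ + B) (hY : Y * r = A * Y₀ + B)
    (hZ : Z * s = A * Z₀ + B)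
    (hw : w = (β - X₀) * (Y₀ - Z₀) * ((β - Z₀) * (Y₀ - X₀))⁻¹) :
    ∃ K : F, K ≠ 0 ∧ (Y - X) * w + (Z - Y) = K * (C * β + D) ∧
      (Y - X) * Z * w + (Z - Y) * X = K * (A * β + B) := by
  have s1 : Y₀ - X₀ ≠ 0 := sub_ne_zero.2 h1.symm
  have s2 : Z₀ - X₀ ≠ 0 := sub_ne_zero.2 h2.symm
  have s3 : Y₀ - Z₀ ≠ 0 := sub_ne_zero.2 h3
  have s4 : β - Z₀ ≠ 0 := sub_ne_zero.2 h4
  have e1 : Y - X = (A * D - B * C) * (Y₀ - X₀) / (p * r) := by
    rw [eq_div_iff (mul_ne_zero dX dY)]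
    calc (Y - X) * (p * r) = (Y * r) * p - (X * p) * r := by ring
      _ = _ := by rw [hX, hY, ← hp, ← hr]; ring
  have e2 : Z - Y = (A * D - B * C) * (Z₀ - Y₀) / (r * s) := by
    rw [eq_div_iff (mul_ne_zero dY dZ)]
    calc (Z - Y) * (r * s) = (Z * s) * r - (Y * r) * s := by ring
      _ = _ := by rw [hZ, hY, ← hs, ← hr]; ring
  have e3 : (β - X₀) * s - (β - Z₀) * p = (Z₀ - X₀) * (C * β + D) := by
    rw [← hs, ← hp]; ring
  have e4 : (β - X₀) * (Z * s) - (β - Z₀) * (X * p) = (Z₀ - X₀) * (A * β + B) := by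
    rw [hZ, hX]; ring
  refine ⟨(A * D - B * C) * (Y₀ - Z₀) / (p * r * s * (β - Z₀)) * (Z₀ - X₀), ?_, ?_, ?_⟩
  · exact mul_ne_zero (div_ne_zero (mul_ne_zero hdet s3)
      (mul_ne_zero (mul_ne_zero (mul_ne_zero dX dY) dZ) s4)) s2
  · rw [mul_assoc, ← e3, e1, e2, hw]
    generalize A * D - B * C = δ
    field_simp
    ring
  · rw [mul_assoc _ (Z₀ - X₀), ← e4, e1, e2, hw]
    generalize A * D - B * C = δ
    field_simp
    ring

/-! ### The statements -/

theorem card_St {l : List ℕ} (h : okList q l = true) : (St q l).card = l.length := by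
  obtain ⟨h1, h2⟩ := ChkA_ok h
  have h3 : (l.map (ptc q)).Nodup :=
    List.Nodup.map_on (fun a ha b hb e => ChkA_inj (h1 a ha).2 (h1 b hb).2 e) h2
  rw [St, List.toFinset_card_of_nodup h3, List.length_map]

/-- the permutation that maps the first three points of `l` to `x, y, z` maps `l` into the set
with the mask `m` if and only if the test is passed -/
theorem tst_iff {x₀ y₀ z₀ x y z : ℕ} {l l' : List ℕ} (h : okList q (x₀ :: y₀ :: z₀ :: l) = true)
    (h' : okList q l' = true) (hx : x ∈ l') (hy : y ∈ l') (hz : z ∈ l') (hxy : x ≠ y)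
    (hxz : x ≠ z) (hyz : y ≠ z) {σ : Equiv.Perm (PL q)} (hσ : σ ∈ PG q)
    (h1 : σ (ptc q x₀) = ptc q x) (h2 : σ (ptc q y₀) = ptc q y) (h3 : σ (ptc q z₀) = ptc q z) :
    tst q (mask l') (wl q (x₀ :: y₀ :: z₀ :: l)) (Nat.sub (Nat.add y q) x) x y z = true ↔
      ∀ b ∈ l, σ (ptc q b) ∈ St q l' := by
  obtain ⟨k1, k2⟩ := ChkA_ok h
  obtain ⟨k1', k2'⟩ := ChkA_ok h'
  have hx₀ := k1 x₀ (by simp)
  have hy₀ := k1 y₀ (by simp)
  have hz₀ := k1 z₀ (by simp)
  have hx' := k1' x hx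
  have hy' := k1' y hy
  have hz' := k1' z hz
  have hq : 2 < q := by omega
  simp only [List.nodup_cons, List.mem_cons, not_or] at k2
  obtain ⟨⟨n1, n2, n3⟩, ⟨n4, n5⟩, n6, n7⟩ := k2
  have hne : ∀ {a b : ℕ}, a < q → b < q → a ≠ b → (a : ZMod q) ≠ (b : ZMod q) := by
    intro a b ha hb hab e
    rw [ZMod.natCast_eq_natCast_iff', Nat.mod_eq_of_lt ha, Nat.mod_eq_of_lt hb] at e
    exact hab e
  obtain ⟨A, B, C, D, hdet, g1, g2, -, -⟩ := PG_out q hσ
  have fin : ∀ {a b : ℕ}, σ (ptc q a) = ptc q b →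
      C * (a : ZMod q) + D ≠ 0 ∧ (b : ZMod q) * (C * (a : ZMod q) + D) = A * a + B := by
    intro a b hab
    have hne0 : C * (a : ZMod q) + D ≠ 0 := by
      intro h0
      have h5 := g2 (a : ZMod q) h0
      have h6 : (OnePoint.infty : PL q) = ((b : ZMod q) : PL q) := h5.symm.trans hab
      exact OnePoint.infty_ne_coe _ h6
    refine ⟨hne0, ?_⟩
    have h5 := g1 (a : ZMod q) hne0
    have h6 : (((A * a + B) / (C * a + D) : ZMod q) : PL q) = ((b : ZMod q) : PL q) :=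
      h5.symm.trans hab
    have h7 := OnePoint.coe_injective h6
    rw [← h7, div_mul_cancel₀ _ hne0]
  obtain ⟨dX, hX⟩ := fin h1
  obtain ⟨dY, hY⟩ := fin h2
  obtain ⟨dZ, hZ⟩ := fin h3
  have key : ∀ b ∈ l, (bit (mask l') ((Nat.mul (Nat.sub (Nat.add y q) x) z * crN q x₀ y₀ z₀ b +
      Nat.mul (Nat.sub (Nat.add z q) y) x) * ((Nat.sub (Nat.add y q) x * crN q x₀ y₀ z₀ b +
        Nat.sub (Nat.add z q) y) % q) ^ (q - 2) % q) = true ↔ σ (ptc q b) ∈ St q l') := by
    intro b hb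
    have hb' := k1 b (by simp [hb])
    have hbz : b ≠ z₀ := fun e => n6 (e ▸ hb)
    obtain ⟨K, hK, e1, e2⟩ := ChkA_alg hdet rfl rfl rfl dX dY dZ (hne hx₀.2 hy₀.2 n1)
      (hne hx₀.2 hz₀.2 n2) (hne hy₀.2 hz₀.2 n4) (hne hb'.2 hz₀.2 hbz) hX hY hZ
      (ChkA_cr (q := q) (y := y₀) (b := b) hq hx₀.2 hz₀.2)
    set N : ℕ := (Nat.mul (Nat.sub (Nat.add y q) x) z * crN q x₀ y₀ z₀ b +
      Nat.mul (Nat.sub (Nat.add z q) y) x) * ((Nat.sub (Nat.add y q) x * crN q x₀ y₀ z₀ b +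
        Nat.sub (Nat.add z q) y) % q) ^ (q - 2) % q with hN
    have hNq : N < q := Nat.mod_lt _ (by omega)
    have f1 := ChkA_sub (q := q) (y := y) hx'.2
    have f2 := ChkA_sub (q := q) (y := z) hy'.2
    have hNc : (N : ZMod q) = (K * (A * b + B)) * (K * (C * b + D))⁻¹ := by
      rw [hN, ZMod.natCast_mod, Nat.cast_mul, Nat.cast_pow, ZMod.natCast_mod, Nat.cast_add,
        Nat.cast_add, Nat.cast_mul, Nat.cast_mul]
      rw [show ((Nat.mul (Nat.sub (Nat.add y q) x) z : ℕ) : ZMod q) =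
        ((Nat.sub (Nat.add y q) x : ℕ) : ZMod q) * (z : ZMod q) from Nat.cast_mul _ _,
        show ((Nat.mul (Nat.sub (Nat.add z q) y) x : ℕ) : ZMod q) =
        ((Nat.sub (Nat.add z q) y : ℕ) : ZMod q) * (x : ZMod q) from Nat.cast_mul _ _,
        f1, f2, e1, e2, ChkA_inv hq]
    rw [ChkA_bit k2']
    by_cases hd : C * (b : ZMod q) + D = 0
    · have hN0 : N = 0 := by
        have h5 : (N : ZMod q) = ((0 : ℕ) : ZMod q) := by
          rw [hNc, hd, mul_zero, inv_zero, mul_zero, Nat.cast_zero]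
        rw [ZMod.natCast_eq_natCast_iff', Nat.mod_eq_of_lt hNq, Nat.zero_mod] at h5
        exact h5
      rw [hN0]
      have h5 : σ (ptc q b) = OnePoint.infty := g2 _ hd
      rw [h5]
      constructor
      · intro h6
        exact absurd (k1' 0 h6).1 (lt_irrefl 0)
      · intro h6
        obtain ⟨c, -, hc⟩ := ChkA_mem.1 h6
        exact absurd hc.symm (OnePoint.infty_ne_coe _)
    · have h5 : σ (ptc q b) = ptc q N := by
        have h6 : σ (ptc q b) = (((A * b + B) / (C * b + D) : ZMod q) : PL q) := g1 _ hd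
        rw [h6, ptc, hNc, mul_inv, mul_mul_mul_comm, mul_inv_cancel₀ hK, one_mul, div_eq_mul_inv]
      rw [h5, ChkA_mem' k1' hNq]
  show okAll q (mask l') (Nat.sub (Nat.add y q) x) (Nat.sub (Nat.add z q) y)
    (Nat.mul (Nat.sub (Nat.add y q) x) z) (Nat.mul (Nat.sub (Nat.add z q) y) x)
    (l.map (crN q x₀ y₀ z₀)) = true ↔ _
  rw [ChkA_okAll, List.forall_mem_map]
  constructor
  · intro hh b hb
    exact (key b hb).1 (hh b hb)
  · intro hh b hb
    exact (key b hb).2 (hh b hb)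

end Pool.Agent.LS3
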