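import Pool.Agent.Lib.MP_2c0b9b_co_S3.DistA

/-!
# Large sets of strength three: distribution of items, parity
-/

set_option autoImplicit false

open Finset

namespace Pool.Agent.LS3

variable {ι : Type*} [DecidableEq ι]

/-- pairing of items of equal weight -/
private theorem DistB_pair (w : ι → ℕ) (O : Finset ι) : ∃ (Z R Q : Finset ι) (π : ι → ι),
    Z ∪ (R ∪ Q) = O ∧ Disjoint Z (R ∪ Q) ∧ Disjoint R Q ∧ (∀ y ∈ Q, w (π y) = w y) ∧
    (∀ y ∈ Q, π y ∈ R) ∧ (∀ y ∈ Q, ∀ y' ∈ Q, π y = π y' → y = y') ∧ (∀ x ∈ R, ∃ y ∈ Q, π y = x) ∧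
    ∀ x ∈ Z, ∀ y ∈ Z, w x = w y → x = y := by
  induction O using Finset.induction_on with
  | empty =>
    exact ⟨∅, ∅, ∅, id, by simp, by simp, by simp, by simp, by simp, by simp, by simp, by simp⟩
  | insert a O ha ih =>
    obtain ⟨Z, R, Q, π, h1, h2, h3, h4, h5, h6, h7, h8⟩ := ih
    have haZ : a ∉ Z := fun h => ha (h1 ▸ Finset.mem_union_left _ h)
    have haR : a ∉ R := fun h => ha (h1 ▸ Finset.mem_union_right _ (Finset.mem_union_left _ h))
    have haQ : a ∉ Q := fun h => ha (h1 ▸ Finset.mem_union_right _ (Finset.mem_union_right _ h))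
    by_cases hb : ∃ b ∈ Z, w b = w a
    · obtain ⟨b, hbZ, hba⟩ := hb
      have hbR : b ∉ R := fun h => Finset.disjoint_left.1 h2 hbZ (Finset.mem_union_left _ h)
      have hbQ : b ∉ Q := fun h => Finset.disjoint_left.1 h2 hbZ (Finset.mem_union_right _ h)
      have hab : a ≠ b := fun h => haZ (h ▸ hbZ)
      refine ⟨Z.erase b, insert b R, insert a Q, fun y => if y = a then b else π y,
        ?_, ?_, ?_, ?_, ?_, ?_, ?_, ?_⟩
      · ext x
        have h1' := Finset.ext_iff.1 h1 x
        simp only [Finset.mem_union, Finset.mem_erase, Finset.mem_insert] at h1' ⊢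
        constructor
        · rintro (⟨-, h⟩ | (rfl | h) | (rfl | h))
          · exact Or.inr (h1'.1 (Or.inl h))
          · exact Or.inr (h1'.1 (Or.inl hbZ))
          · exact Or.inr (h1'.1 (Or.inr (Or.inl h)))
          · exact Or.inl rfl
          · exact Or.inr (h1'.1 (Or.inr (Or.inr h)))
        · rintro (rfl | h)
          · exact Or.inr (Or.inr (Or.inl rfl))
          · rcases h1'.2 h with h | h | h
            · by_cases hx : x = b
              · exact Or.inr (Or.inl (Or.inl hx))
              · exact Or.inl ⟨hx, h⟩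
            · exact Or.inr (Or.inl (Or.inr h))
            · exact Or.inr (Or.inr (Or.inr h))
      · rw [Finset.disjoint_left]
        intro x hx hx'
        simp only [Finset.mem_union, Finset.mem_erase, Finset.mem_insert] at hx hx'
        rcases hx' with (h | h) | (h | h)
        · exact hx.1 h
        · exact Finset.disjoint_left.1 h2 hx.2 (Finset.mem_union_left _ h)
        · exact haZ (h ▸ hx.2)
        · exact Finset.disjoint_left.1 h2 hx.2 (Finset.mem_union_right _ h)
      · rw [Finset.disjoint_left]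
        intro x hx hx'
        simp only [Finset.mem_insert] at hx hx'
        rcases hx with rfl | hx <;> rcases hx' with h | h
        · exact hab h.symm
        · exact hbQ h
        · exact haR (h ▸ hx)
        · exact Finset.disjoint_left.1 h3 hx h
      · intro y hy
        rcases Finset.mem_insert.1 hy with rfl | hy
        · simp only [if_true]
          exact hba
        · have hya : y ≠ a := fun h => haQ (h ▸ hy)
          simp only [if_neg hya]
          exact h4 y hy
      · intro y hy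
        rcases Finset.mem_insert.1 hy with rfl | hy
        · simp only [if_true]
          exact Finset.mem_insert_self _ _
        · have hya : y ≠ a := fun h => haQ (h ▸ hy)
          simp only [if_neg hya]
          exact Finset.mem_insert_of_mem (h5 y hy)
      · intro y hy y' hy' he
        rcases Finset.mem_insert.1 hy with rfl | hy <;> rcases Finset.mem_insert.1 hy' with h | hy'
        · exact h.symm
        · have hya : y' ≠ y := fun h => haQ (h ▸ hy')
          simp only [if_true, if_neg hya] at he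
          exact absurd (h5 y' hy') (he ▸ hbR)
        · have hya : y ≠ a := fun h => haQ (h ▸ hy)
          simp only [if_neg hya, if_pos h] at he
          exact absurd (h5 y hy) (he ▸ hbR)
        · have hya : y ≠ a := fun h => haQ (h ▸ hy)
          have hya' : y' ≠ a := fun h => haQ (h ▸ hy')
          simp only [if_neg hya, if_neg hya'] at he
          exact h6 y hy y' hy' he
      · intro x hx
        rcases Finset.mem_insert.1 hx with rfl | hx
        · exact ⟨a, Finset.mem_insert_self _ _, by simp⟩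
        · obtain ⟨y, hy, hyx⟩ := h7 x hx
          have hya : y ≠ a := fun h => haQ (h ▸ hy)
          exact ⟨y, Finset.mem_insert_of_mem hy, by simp only [if_neg hya]; exact hyx⟩
      · intro x hx y hy he
        exact h8 x (Finset.mem_of_mem_erase hx) y (Finset.mem_of_mem_erase hy) he
    · push Not at hb
      refine ⟨insert a Z, R, Q, π, ?_, ?_, h3, h4, h5, h6, h7, ?_⟩
      · rw [Finset.insert_union, h1]
      · rw [Finset.disjoint_insert_left]
        refine ⟨fun h => ?_, h2⟩
        rcases Finset.mem_union.1 h with h | h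
        · exact haR h
        · exact haQ h
      · intro x hx y hy he
        rcases Finset.mem_insert.1 hx with rfl | hx <;> rcases Finset.mem_insert.1 hy with h | hy
        · exact h.symm
        · exact absurd he.symm (hb y hy)
        · rw [h] at he
          exact absurd he (hb x hx)
        · exact h8 x hx y hy he

private theorem DistB_three (g : ZMod 3 → ℕ) : ∑ i, g i = g 0 + g 1 + g 2 :=
  Fin.sum_univ_three g

/-- even targets for the classes `1` and `2` -/
theorem dist_parity (S : Finset ι) (w : ι → ℕ) (m : ZMod 3 → ℕ) (L : List ι) (hLn : L.Nodup)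
    (hLS : ∀ x ∈ L, x ∈ S) (hT : tailOK 4 (L.map w) = true) (hL2 : ∀ x ∈ L, Even (w x)) (X : ℕ)
    (hXL : 2 * X ≤ 4 + (L.map w).sum)
    (hw : ∀ x ∈ S, (Even (w x) ∧ w x ≤ X) ∨ 2 * w x ≤ X)
    (hm1 : Even (m 1)) (hm2 : Even (m 2)) (hm0 : X * X ≤ m 0)
    (hsum : ∑ i, m i = ∑ x ∈ S, w x) :
    ∃ f : ι → ZMod 3, ∀ i, ∑ x ∈ S.filter (fun x => f x = i), w x = m i := by
  classical
  obtain ⟨Z, R, Q, π, h1, h2, h3, h4, h5, h6, h7, h8⟩ :=
    DistB_pair w (S.filter fun x => ¬ Even (w x))
  set E := S.filter (fun x => Even (w x)) with hE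
  have hO : ∀ x ∈ Z ∪ (R ∪ Q), x ∈ S ∧ ¬ Even (w x) := by
    intro x hx
    rw [h1, Finset.mem_filter] at hx
    exact hx
  have hOX : ∀ x ∈ Z ∪ (R ∪ Q), 2 * w x ≤ X := by
    intro x hx
    obtain ⟨hxS, hxo⟩ := hO x hx
    rcases hw x hxS with h | h
    · exact absurd h.1 hxo
    · exact h
  have hEd : Disjoint E (Z ∪ (R ∪ Q)) := by
    rw [h1]
    exact Finset.disjoint_filter_filter_not _ _ _
  have hS : E ∪ (Z ∪ (R ∪ Q)) = S := by
    rw [h1]
    exact Finset.filter_union_filter_not_eq _ _
  have hsplit : ∀ F : ι → ℕ, ∑ x ∈ S, F x =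
      ∑ x ∈ E, F x + (∑ x ∈ Z, F x + (∑ x ∈ R, F x + ∑ x ∈ Q, F x)) := by
    intro F
    rw [← hS, Finset.sum_union hEd, Finset.sum_union h2, Finset.sum_union h3]
  have hQR : ∀ (f : ι → ZMod 3) (i : ZMod 3),
      (∑ y ∈ Q, if f (π y) = i then w y else 0) = ∑ x ∈ R, if f x = i then w x else 0 := by
    intro f i
    refine Finset.sum_bij (fun y _ => π y) h5 (fun y hy y' hy' => h6 y hy y' hy') ?_ ?_
    · intro x hx
      obtain ⟨y, hy, hyx⟩ := h7 x hx
      exact ⟨y, hy, hyx⟩
    · intro y hy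
      rw [h4 y hy]
  have hQR0 : ∑ y ∈ Q, w y = ∑ x ∈ R, w x := by
    have h9 := hQR (fun _ => 0) 0
    simpa using h9
  -- the bound for the rest
  have hZ : ∑ x ∈ Z, w x ≤ X * X := by
    have h9 : ∑ x ∈ Z, w x = ∑ v ∈ Z.image w, v :=
      (Finset.sum_image (f := fun v => v) fun x hx y hy he => h8 x hx y hy he).symm
    have h10 : Z.image w ⊆ Finset.Icc 1 X := by
      intro v hv
      obtain ⟨x, hx, rfl⟩ := Finset.mem_image.1 hv
      have h11 := hOX x (Finset.mem_union_left _ hx)
      have h12 := (hO x (Finset.mem_union_left _ hx)).2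
      rw [Finset.mem_Icc]
      refine ⟨?_, by omega⟩
      rcases Nat.eq_zero_or_pos (w x) with h | h
      · rw [h] at h12
        exact absurd (by decide) h12
      · exact h
    have h11 : (Z.image w).card ≤ X := by
      have := Finset.card_le_card h10
      rw [Nat.card_Icc] at this
      omega
    rw [h9]
    refine (Finset.sum_le_card_nsmul _ _ X fun v hv => (Finset.mem_Icc.1 (h10 hv)).2).trans ?_
    rw [smul_eq_mul]
    exact Nat.mul_le_mul_right _ h11
  have hZm : ∑ x ∈ Z, w x ≤ m 0 := hZ.trans hm0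
  -- the core
  set W : ι → ℕ := fun x => if x ∈ R then 2 * w x else w x with hW
  set m' : ZMod 3 → ℕ := fun i => if i = 0 then m 0 - ∑ x ∈ Z, w x else m i with hm'
  have hER : Disjoint E R := Finset.disjoint_left.2 fun x hx hx' =>
    Finset.disjoint_left.1 hEd hx (Finset.mem_union_right _ (Finset.mem_union_left _ hx'))
  have hLE : ∀ x ∈ L, x ∈ E := fun x hx => Finset.mem_filter.2 ⟨hLS x hx, hL2 x hx⟩
  have hWE : ∀ x ∈ E, W x = w x := by
    intro x hx
    rw [hW]
    exact if_neg (Finset.disjoint_left.1 hER hx)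
  have hWR : ∀ x ∈ R, W x = 2 * w x := by
    intro x hx
    rw [hW]
    exact if_pos hx
  have hLW : L.map W = L.map w := List.map_congr_left fun x hx => hWE x (hLE x hx)
  have hsumW : ∑ x ∈ E ∪ R, W x = ∑ x ∈ E, w x + 2 * ∑ x ∈ R, w x := by
    rw [Finset.sum_union hER, Finset.mul_sum]
    congr 1
    · exact Finset.sum_congr rfl hWE
    · exact Finset.sum_congr rfl hWR
  have hsumS := hsplit w
  rw [hQR0, ← hsum, DistB_three] at hsumS
  have hEeven : Even (∑ x ∈ E, w x) :=
    Finset.even_sum _ fun x hx => (Finset.mem_filter.1 hx).2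
  have hm'0 : m' 0 = m 0 - ∑ x ∈ Z, w x := by rw [hm']; exact if_pos rfl
  have hm'1 : m' 1 = m 1 := by rw [hm']; exact if_neg (by decide)
  have hm'2 : m' 2 = m 2 := by rw [hm']; exact if_neg (by decide)
  have hm'e : ∀ i, 2 ∣ m' i := by
    have e0 : 2 ∣ m' 0 := by
      rw [hm'0]
      obtain ⟨a, ha⟩ := hEeven
      obtain ⟨b, hb⟩ := hm1
      obtain ⟨c, hc⟩ := hm2
      omega
    have e1 : 2 ∣ m' 1 := by rw [hm'1]; exact hm1.two_dvd
    have e2 : 2 ∣ m' 2 := by rw [hm'2]; exact hm2.two_dvd
    intro i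
    fin_cases i
    · exact e0
    · exact e1
    · exact e2
  obtain ⟨f, hf⟩ := dist_core 2 (by norm_num) (E ∪ R) W m' L hLn
    (fun x hx => Finset.mem_union_left _ (hLE x hx)) (by rw [hLW]; exact hT) X
    (by
      intro x hx
      rcases Finset.mem_union.1 hx with h | h
      · rw [hWE x h]
        rcases hw x (Finset.mem_filter.1 h).1 with h' | h'
        · exact h'.2
        · omega
      · rw [hWR x h]
        exact hOX x (Finset.mem_union_right _ (Finset.mem_union_left _ h)))
    (by rw [hLW]; exact hXL)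
    (by
      intro x hx
      rcases Finset.mem_union.1 hx with h | h
      · rw [hWE x h]
        exact (Finset.mem_filter.1 h).2.two_dvd
      · rw [hWR x h]
        exact Dvd.intro _ rfl)
    hm'e
    (by
      rw [DistB_three, hm'0, hm'1, hm'2, hsumW]
      omega)
  refine ⟨fun x => if x ∈ Q then f (π x) else if x ∈ Z then 0 else f x, fun i => ?_⟩
  have hfi := hf i
  rw [Finset.sum_filter, Finset.sum_union hER] at hfi
  rw [Finset.sum_filter, hsplit]
  have eE : (∑ x ∈ E, if (if x ∈ Q then f (π x) else if x ∈ Z then 0 else f x) = i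
      then w x else 0) = ∑ x ∈ E, if f x = i then W x else 0 := by
    refine Finset.sum_congr rfl fun x hx => ?_
    have hxQ : x ∉ Q := fun h => Finset.disjoint_left.1 hEd hx
      (Finset.mem_union_right _ (Finset.mem_union_right _ h))
    have hxZ : x ∉ Z := fun h => Finset.disjoint_left.1 hEd hx (Finset.mem_union_left _ h)
    rw [if_neg hxQ, if_neg hxZ, hWE x hx]
  have eR : (∑ x ∈ R, if (if x ∈ Q then f (π x) else if x ∈ Z then 0 else f x) = i
      then w x else 0) = ∑ x ∈ R, if f x = i then w x else 0 := by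
    refine Finset.sum_congr rfl fun x hx => ?_
    have hxQ : x ∉ Q := fun h => Finset.disjoint_left.1 h3 hx h
    have hxZ : x ∉ Z := fun h => Finset.disjoint_left.1 h2 h (Finset.mem_union_left _ hx)
    rw [if_neg hxQ, if_neg hxZ]
  have eQ : (∑ x ∈ Q, if (if x ∈ Q then f (π x) else if x ∈ Z then 0 else f x) = i
      then w x else 0) = ∑ x ∈ R, if f x = i then w x else 0 := by
    rw [← hQR]
    refine Finset.sum_congr rfl fun x hx => ?_
    rw [if_pos hx]
  have eZ : (∑ x ∈ Z, if (if x ∈ Q then f (π x) else if x ∈ Z then 0 else f x) = i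
      then w x else 0) = if (0 : ZMod 3) = i then ∑ x ∈ Z, w x else 0 := by
    have h9 : (∑ x ∈ Z, if (if x ∈ Q then f (π x) else if x ∈ Z then 0 else f x) = i
        then w x else 0) = ∑ x ∈ Z, if (0 : ZMod 3) = i then w x else 0 := by
      refine Finset.sum_congr rfl fun x hx => ?_
      have hxQ : x ∉ Q := fun h => Finset.disjoint_left.1 h2 hx (Finset.mem_union_right _ h)
      rw [if_neg hxQ, if_pos hx]
    rw [h9]
    split_ifs
    · rfl
    · simp
  have eW : (∑ x ∈ R, if f x = i then W x else 0) = 2 * ∑ x ∈ R, if f x = i then w x else 0 := by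
    rw [Finset.mul_sum]
    refine Finset.sum_congr rfl fun x hx => ?_
    rw [hWR x hx]
    split_ifs <;> simp
  rw [eE, eR, eQ, eZ]
  rw [eW] at hfi
  by_cases hi : i = 0
  · subst hi
    rw [hm'0] at hfi
    rw [if_pos rfl]
    omega
  · have hi' : m' i = m i := by rw [hm']; exact if_neg hi
    rw [hi'] at hfi
    rw [if_neg (Ne.symm hi)]
    omega

/-- odd targets for the classes `1` and `2`, with the help of two items of odd weight -/
theorem dist_parity2 (S : Finset ι) (w : ι → ℕ) (m : ZMod 3 → ℕ) (o₁ o₂ : ι) (L : List ι)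
    (hLn : (o₁ :: o₂ :: L).Nodup) (hLS : ∀ x ∈ o₁ :: o₂ :: L, x ∈ S)
    (ho1 : Odd (w o₁)) (ho2 : Odd (w o₂)) (hT : tailOK 4 (L.map w) = true)
    (hL2 : ∀ x ∈ L, Even (w x)) (X : ℕ) (hXL : 2 * X ≤ 4 + (L.map w).sum)
    (hw : ∀ x ∈ S, (Even (w x) ∧ w x ≤ X) ∨ 2 * w x ≤ X)
    (hm1 : Odd (m 1)) (hm2 : Odd (m 2)) (hm1' : w o₁ ≤ m 1) (hm2' : w o₂ ≤ m 2)
    (hm0 : X * X ≤ m 0) (hsum : ∑ i, m i = ∑ x ∈ S, w x) :
    ∃ f : ι → ZMod 3, ∀ i, ∑ x ∈ S.filter (fun x => f x = i), w x = m i := by
  classical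
  rw [List.nodup_cons, List.nodup_cons] at hLn
  obtain ⟨hn1, hn2, hLn'⟩ := hLn
  have h12 : o₁ ≠ o₂ := fun h => hn1 (h ▸ List.mem_cons_self)
  have hS1 : o₁ ∈ S := hLS o₁ List.mem_cons_self
  have hS2 : o₂ ∈ S := hLS o₂ (List.mem_cons_of_mem _ List.mem_cons_self)
  set T := (S.erase o₁).erase o₂ with hTdef
  have hT1 : o₁ ∉ insert o₂ T := by
    rw [Finset.mem_insert, not_or]
    refine ⟨h12, fun h => ?_⟩
    exact (Finset.mem_erase.1 (Finset.mem_of_mem_erase h)).1 rfl
  have hT2 : o₂ ∉ T := Finset.notMem_erase _ _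
  have hins : S = insert o₁ (insert o₂ T) := by
    rw [hTdef, Finset.insert_erase (Finset.mem_erase.2 ⟨Ne.symm h12, hS2⟩), Finset.insert_erase hS1]
  have hsplit : ∀ F : ι → ℕ, ∑ x ∈ S, F x = F o₁ + (F o₂ + ∑ x ∈ T, F x) := by
    intro F
    rw [hins, Finset.sum_insert hT1, Finset.sum_insert hT2]
  set m' : ZMod 3 → ℕ := fun i => if i = 0 then m 0 else if i = 1 then m 1 - w o₁
    else m 2 - w o₂ with hm'
  have hm'0 : m' 0 = m 0 := rfl
  have hm'1 : m' 1 = m 1 - w o₁ := rfl
  have hm'2 : m' 2 = m 2 - w o₂ := rfl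
  have hs := hsplit w
  rw [← hsum, DistB_three] at hs
  obtain ⟨f, hf⟩ := dist_parity T w m' L hLn'
    (by
      intro x hx
      refine Finset.mem_erase.2 ⟨fun h => hn2 (h ▸ hx), Finset.mem_erase.2 ⟨fun h => ?_, ?_⟩⟩
      · exact hn1 (List.mem_cons_of_mem _ (h ▸ hx))
      · exact hLS x (List.mem_cons_of_mem _ (List.mem_cons_of_mem _ hx)))
    hT hL2 X hXL
    (fun x hx => hw x (Finset.mem_of_mem_erase (Finset.mem_of_mem_erase hx)))
    (by rw [hm'1]; exact Nat.Odd.sub_odd hm1 ho1)
    (by rw [hm'2]; exact Nat.Odd.sub_odd hm2 ho2)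
    (by rw [hm'0]; exact hm0)
    (by
      rw [DistB_three, hm'0, hm'1, hm'2]
      omega)
  refine ⟨fun x => if x = o₁ then 1 else if x = o₂ then 2 else f x, fun i => ?_⟩
  rw [Finset.sum_filter, hsplit]
  have eT : (∑ x ∈ T, if (if x = o₁ then (1 : ZMod 3) else if x = o₂ then 2 else f x) = i
      then w x else 0) = m' i := by
    rw [← hf i, Finset.sum_filter]
    refine Finset.sum_congr rfl fun x hx => ?_
    have hx2 : x ≠ o₂ := fun h => hT2 (h ▸ hx)
    have hx1 : x ≠ o₁ := fun h => hT1 (Finset.mem_insert_of_mem (h ▸ hx))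
    rw [if_neg hx1, if_neg hx2]
  rw [eT]
  beta_reduce
  rw [if_pos rfl, if_neg (Ne.symm h12), if_pos rfl]
  have key : ∀ i : ZMod 3, i = 0 ∨ i = 1 ∨ i = 2 := by decide
  rcases key i with rfl | rfl | rfl
  · rw [if_neg (by decide), if_neg (by decide), hm'0]
    omega
  · rw [if_pos rfl, if_neg (by decide), hm'1]
    omega
  · rw [if_neg (by decide), if_pos rfl, hm'2]
    omega

end Pool.Agent.LS3
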