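import Pool.Agent.Lib.MP_2c0b9b_co_S3.ChkB
import Pool.Agent.Lib.MP_2c0b9b_co_S3.GenA
import Pool.Agent.Lib.MP_2c0b9b_co_S3.DistB
import Pool.Agent.Lib.MP_2c0b9b_co_S3.PPart
import Pool.Agent.Lib.MP_2c0b9b_co_S3.CoinsA

/-!
# Large sets of strength three on 30 points, `k = 9`
-/

set_option autoImplicit false

open Finset
open scoped Pointwise

namespace Pool.Agent.LS3

private theorem Col9_card : Nat.card (PG 29) = 24360 := by
  rw [card_PG]

private theorem Col9_choose : (29 + 1).choose 9 = 14307150 := by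
  decide +kernel

private theorem Col9_w : ∀ s : ℕ, s ∣ 12 → ((Even (12 / s) ∧ 12 / s ≤ 12) ∨ 2 * (12 / s) ≤ 12) := by
  intro s hs
  have h1 : s ≤ 12 := Nat.le_of_dvd (by norm_num) hs
  interval_cases s <;> revert hs <;> decide

/-- the coins -/
private theorem Col9_coins : ∃ (o₁ o₂ : Finset (PL 29)) (L : List (Finset (PL 29))),
    (o₁ :: o₂ :: L).Nodup ∧ (∀ B ∈ o₁ :: o₂ :: L, B ∈ reps (PG 29) 9) ∧
    (o₁ :: o₂ :: L).map (fun B => stc (PG 29) B) = [4, 4, 3, 3, 3, 3, 6, 6] := by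
  have hC := isCoins_of (q := 29) (by norm_num) D9 D9_stab D9_ne
  obtain ⟨h1, h2, h3⟩ := crep_spec hC
  obtain ⟨L, hL⟩ : ∃ L, L = crep 29 (D9.map fun c => (c.1, c.2.length)) := ⟨_, rfl⟩
  rw [← hL] at h1 h2 h3
  have h4 : (List.map (fun c : List ℕ × ℕ => c.2) (D9.map fun c => (c.1, c.2.length))) =
      [4, 4, 3, 3, 3, 3, 6, 6] := rfl
  rw [h4] at h3
  match L, h1, h2, h3 with
  | [], _, _, h3 => simp at h3
  | [o], _, _, h3 => simp at h3
  | o₁ :: o₂ :: L, h1, h2, h3 => exact ⟨o₁, o₂, L, h1, h2, h3⟩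

/-- the colouring of the orbits: two classes of size `290 (16445 - 30)`; all orbits in the class
`0` which meet `D` -/
theorem exists_col9 (R : Finset (Finset (PL 29))) (hR : R.card ≤ 116)
    (hR2 : ∀ B : Finset (PL 29), B ∈ R → stc (PG 29) B ≤ 2) :
    ∃ f : Finset (PL 29) → ZMod 3, (∀ B ∈ R, f B = 0) ∧
      ∑ B ∈ (reps (PG 29) 9).filter (fun B => f B = 0), osz (PG 29) B = 290 * 16505 ∧
      ∑ B ∈ (reps (PG 29) 9).filter (fun B => f B = 1), osz (PG 29) B = 290 * 16415 ∧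
      ∑ B ∈ (reps (PG 29) 9).filter (fun B => f B = 2), osz (PG 29) B = 290 * 16415 := by
  classical
  have hosz : ∀ B : Finset (PL 29), osz (PG 29) B * stc (PG 29) B = 24360 := by
    intro B
    rw [osz_mul_stc, Col9_card]
  have hle : ∀ B : Finset (PL 29), osz (PG 29) B ≤ 24360 := by
    intro B
    have h1 := Nat.le_mul_of_pos_right (osz (PG 29) B) (stc_pos (Γ := PG 29) B)
    rw [hosz B] at h1
    exact h1
  obtain ⟨p, hp⟩ : ∃ p : Finset (PL 29) → Prop,
    p = fun B => 7 ∣ stc (PG 29) B ∨ B ∈ R := ⟨_, rfl⟩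
  obtain ⟨S, hS⟩ : ∃ S, S = (reps (PG 29) 9).filter fun B => ¬ p B := ⟨_, rfl⟩
  have hmemS : ∀ B, B ∈ S ↔ B ∈ reps (PG 29) 9 ∧ ¬ 7 ∣ stc (PG 29) B ∧ B ∉ R := by
    intro B
    rw [hS, mem_filter, hp]
    show B ∈ reps (PG 29) 9 ∧ ¬ (7 ∣ stc (PG 29) B ∨ B ∈ R) ↔ _
    rw [not_or]
  have hdv : ∀ B ∈ S, stc (PG 29) B ∣ 12 := by
    intro B hB
    rw [hmemS] at hB
    have h1 : stc (PG 29) B ∣ 84 := stc_dvd_of_gcd (q := 29) (k := 9) (by norm_num)
      (by decide +kernel) B (of_mem_reps hB.1).1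
    have h2 : Nat.Coprime (stc (PG 29) B) 7 := by
      rw [Nat.coprime_comm, Nat.Prime.coprime_iff_not_dvd (by norm_num)]
      exact hB.2.1
    exact h2.dvd_of_dvd_mul_left (show stc (PG 29) B ∣ 7 * 12 from h1)
  obtain ⟨w, hw⟩ : ∃ w : Finset (PL 29) → ℕ, w = fun B => 12 / stc (PG 29) B := ⟨_, rfl⟩
  have hosw : ∀ B ∈ S, osz (PG 29) B = 2030 * w B := by
    intro B hB
    obtain ⟨c, hc⟩ := hdv B hB
    have h1 : w B = c := by
      rw [hw]
      show 12 / stc (PG 29) B = c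
      rw [hc]
      exact Nat.mul_div_cancel_left _ (stc_pos B)
    rw [h1]
    refine Nat.eq_of_mul_eq_mul_right (stc_pos (Γ := PG 29) B) ?_
    rw [hosz B, mul_assoc, mul_comm c, ← hc]
    norm_num
  obtain ⟨W, hW⟩ : ∃ W, W = ∑ B ∈ S, w B := ⟨_, rfl⟩
  obtain ⟨A, hA⟩ : ∃ A, A = ∑ B ∈ (reps (PG 29) 9).filter p, osz (PG 29) B := ⟨_, rfl⟩
  have hsumS : ∀ p' : Finset (PL 29) → Prop, [DecidablePred p'] →
      ∑ B ∈ S.filter p', osz (PG 29) B = 2030 * ∑ B ∈ S.filter p', w B := by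
    intro p' _
    rw [mul_sum]
    exact sum_congr rfl fun B hB => hosw B (mem_filter.1 hB).1
  have htot : A + 2030 * W = 14307150 := by
    rw [hW, mul_sum, ← sum_congr rfl hosw, hA, hS, sum_filter_add_sum_filter_not,
      sum_osz (Γ := PG 29), card_PL, Col9_choose]
  have hAle : A ≤ 4384800 := by
    have h1 : A ≤
        ∑ B ∈ (reps (PG 29) 9).filter (fun B : Finset (PL 29) => 7 ∣ stc (PG 29) B),
          osz (PG 29) B +
        ∑ B ∈ R, osz (PG 29) B := by
      rw [hA]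
      have h2 : (reps (PG 29) 9).filter p ⊆
          (reps (PG 29) 9).filter (fun B : Finset (PL 29) => 7 ∣ stc (PG 29) B) ∪ R := by
        intro B hB
        rw [mem_filter, hp] at hB
        rcases hB.2 with h | h
        · exact mem_union_left _ (mem_filter.2 ⟨hB.1, h⟩)
        · exact mem_union_right _ h
      refine (sum_le_sum_of_subset h2).trans ?_
      rw [← sum_union_inter]
      exact Nat.le_add_right _ _
    have h3 : ∑ B ∈ R, osz (PG 29) B ≤ 116 * 24360 := by
      refine (sum_le_card_nsmul R _ 24360 fun B _ => hle B).trans ?_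
      rw [smul_eq_mul]
      exact Nat.mul_le_mul_right _ hR
    have h4 : ∑ B ∈ (reps (PG 29) 9).filter (fun B : Finset (PL 29) => 7 ∣ stc (PG 29) B),
        osz (PG 29) B ≤
        24360 * 64 := by
      rw [← card_cls (Γ := PG 29)]
      have h5 := card_ppart (sharp_PG 29) (p := 7) (by norm_num) 9
      rw [card_PL, Col9_card, show (29 + 1) / 7 = 4 from by norm_num,
        show 2 ^ (2 + 4) = 64 from by norm_num] at h5
      have h6 : cls (PG 29) 9 (fun B : Finset (PL 29) => 7 ∣ stc (PG 29) B) =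
          (powersetCard 9 (univ : Finset (PL 29))).filter fun B => 7 ∣ stc (PG 29) B := by
        unfold cls
        refine filter_congr fun B _ => ?_
        show 7 ∣ stc (PG 29) (orep (PG 29) B) ↔ 7 ∣ stc (PG 29) B
        rw [stc_orep]
      rw [h6]
      exact h5
    omega
  obtain ⟨o₁, o₂, L, hn, hr, hs⟩ := Col9_coins
  simp only [List.map_cons, List.cons.injEq] at hs
  obtain ⟨hs1, hs2, hs3⟩ := hs
  have hLst : ∀ B ∈ L, stc (PG 29) B = 3 ∨ stc (PG 29) B = 6 := by
    intro B hB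
    have h1 : stc (PG 29) B ∈ L.map (fun B => stc (PG 29) B) := List.mem_map.2 ⟨B, hB, rfl⟩
    rw [hs3] at h1
    simp only [List.mem_cons, List.not_mem_nil, or_false] at h1
    tauto
  have hLS : ∀ B ∈ o₁ :: o₂ :: L, B ∈ S := by
    intro B hB
    rw [hmemS]
    have h1 : stc (PG 29) B = 4 ∨ stc (PG 29) B = 3 ∨ stc (PG 29) B = 6 := by
      rcases List.mem_cons.1 hB with rfl | hB
      · exact Or.inl hs1
      · rcases List.mem_cons.1 hB with rfl | hB
        · exact Or.inl hs2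
        · exact Or.inr (hLst B hB)
    refine ⟨hr B hB, ?_, ?_⟩
    · rcases h1 with h | h | h <;> rw [h] <;> norm_num
    · intro h2
      have h3 := hR2 B h2
      omega
  have hLw : L.map w = [4, 4, 4, 4, 2, 2] := by
    have h1 : L.map w = (L.map fun B => stc (PG 29) B).map fun s => 12 / s := by
      rw [List.map_map, hw]
      rfl
    rw [h1, hs3]
    rfl
  have hw1 : w o₁ = 3 := by
    rw [hw]
    show 12 / stc (PG 29) o₁ = 3
    rw [hs1]
  have hw2 : w o₂ = 3 := by
    rw [hw]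
    show 12 / stc (PG 29) o₂ = 3
    rw [hs2]
  obtain ⟨m, hm⟩ : ∃ m : ZMod 3 → ℕ, m = fun i => if i = 0 then W - 4690 else 2345 := ⟨_, rfl⟩
  have hm0 : m 0 = W - 4690 := by
    rw [hm]
    exact if_pos rfl
  have hm1 : m 1 = 2345 := by
    rw [hm]
    exact if_neg (by decide)
  have hm2 : m 2 = 2345 := by
    rw [hm]
    exact if_neg (by decide)
  obtain ⟨f', hf'⟩ := dist_parity2 S w m o₁ o₂ L hn hLS (by rw [hw1]; decide)
    (by rw [hw2]; decide) (by rw [hLw]; decide)
    (by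
      intro B hB
      have h1 : w B ∈ L.map w := List.mem_map.2 ⟨B, hB, rfl⟩
      rw [hLw] at h1
      simp only [List.mem_cons, List.not_mem_nil, or_false] at h1
      rcases h1 with h | h | h | h | h | h <;> rw [h] <;> decide) 12
    (by rw [hLw]; decide)
    (by
      intro B hB
      rw [hw]
      exact Col9_w _ (hdv B hB))
    (by rw [hm1]; decide) (by rw [hm2]; decide) (by rw [hw1, hm1]; norm_num)
    (by rw [hw2, hm2]; norm_num) (by rw [hm0]; omega)
    (by
      rw [← hW]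
      have h1 : ∑ i, m i = m 0 + m 1 + m 2 := Fin.sum_univ_three m
      rw [h1, hm0, hm1, hm2]
      omega)
  obtain ⟨f, hf⟩ : ∃ f : Finset (PL 29) → ZMod 3, f = fun B => if p B then 0 else f' B := ⟨_, rfl⟩
  have hfs : ∀ i : ZMod 3, i ≠ 0 → (reps (PG 29) 9).filter (fun B => f B = i) =
      S.filter (fun B => f' B = i) := by
    intro i hi
    ext B
    rw [mem_filter, mem_filter, hS, mem_filter]
    by_cases hB : p B
    · have h1 : f B = 0 := by
        rw [hf]
        exact if_pos hB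
      rw [h1]
      constructor
      · exact fun h => absurd h.2.symm hi
      · exact fun h => absurd hB h.1.2
    · have h1 : f B = f' B := by
        rw [hf]
        exact if_neg hB
      rw [h1]
      constructor
      · exact fun h => ⟨⟨h.1, hB⟩, h.2⟩
      · exact fun h => ⟨h.1.1, h.2⟩
  have h1 : ∑ B ∈ (reps (PG 29) 9).filter (fun B => f B = 1), osz (PG 29) B = 290 * 16415 := by
    rw [hfs 1 (by decide), hsumS, hf', hm1]
  have h2 : ∑ B ∈ (reps (PG 29) 9).filter (fun B => f B = 2), osz (PG 29) B = 290 * 16415 := by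
    rw [hfs 2 (by decide), hsumS, hf', hm2]
  refine ⟨f, ?_, ?_, h1, h2⟩
  · intro B hB
    rw [hf]
    exact if_pos (by rw [hp]; exact Or.inr hB)
  · have h3 : ∑ i : ZMod 3, ∑ B ∈ (reps (PG 29) 9).filter (fun B => f B = i), osz (PG 29) B =
        14307150 := by
      rw [sum_fiberwise, sum_osz (Γ := PG 29), card_PL, Col9_choose]
    have h4 : ∀ F : ZMod 3 → ℕ, ∑ i, F i = F 0 + F 1 + F 2 := fun F => Fin.sum_univ_three F
    rw [h4, h1, h2] at h3
    omega

end Pool.Agent.LS3
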