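import Pool.Agent.Lib.MP_2c0b9b_co.Orb

/-!
# Large sets of strength three: definitions

Text: `/team-store/TEXT_2c0b9b_S3.md`.
-/

set_option autoImplicit false

open Finset
open scoped Pointwise

namespace Pool.Agent.LS3

/-! ### Designs -/

section des

variable {α : Type*} [DecidableEq α]

/-- the number of members of `D` that contain a set with fewer than `r` points depends only on the
number of its points -/
def Des (r : ℕ) (D : Finset (Finset α)) : Prop :=
  ∀ T T' : Finset α, T.card < r → T.card = T'.card →
    (D.filter (fun B => T ⊆ B)).card = (D.filter (fun B => T' ⊆ B)).card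

end des

/-! ### Sharply three-transitive groups -/

section sharp

variable {α : Type*}

/-- `Γ` is sharply transitive on the ordered triples of distinct points -/
structure Sharp (Γ : Subgroup (Equiv.Perm α)) : Prop where
  trans : ∀ x y z x' y' z' : α, x ≠ y → x ≠ z → y ≠ z → x' ≠ y' → x' ≠ z' → y' ≠ z' →
    ∃ σ ∈ Γ, σ x = x' ∧ σ y = y' ∧ σ z = z'
  free : ∀ σ ∈ Γ, ∀ x y z : α, x ≠ y → x ≠ z → y ≠ z → σ x = x → σ y = y → σ z = z → σ = 1

end sharp

/-! ### Orbits on the `k`-sets -/

section orb

variable {α : Type*} [DecidableEq α] [Fintype α] (Γ : Type*) [Group Γ] [MulAction Γ α]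

/-- representatives of the orbits on the `k`-sets -/
noncomputable def reps (k : ℕ) : Finset (Finset α) :=
  (powersetCard k (univ : Finset α)).image (orep Γ)

/-- the order of the stabiliser of a set -/
noncomputable def stc (B : Finset α) : ℕ := Nat.card (MulAction.stabilizer Γ B)

/-- the size of the orbit of a set -/
noncomputable def osz (B : Finset α) : ℕ := Nat.card (MulAction.orbit Γ B)

/-- the `k`-sets whose representative satisfies `p` -/
noncomputable def cls (k : ℕ) (p : Finset α → Prop) [DecidablePred p] : Finset (Finset α) :=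
  (powersetCard k (univ : Finset α)).filter (fun B => p (orep Γ B))

end orb

/-! ### Distribution of items -/

/-- every entry is at most half of `e` plus the sum of the later entries -/
def tailOK (e : ℕ) : List ℕ → Bool
  | [] => true
  | a :: l => decide (2 * a ≤ e + l.sum) && tailOK e l

/-! ### The projective line over the field with `q` elements -/

section pg

/-- the projective line -/
abbrev PL (q : ℕ) : Type := OnePoint (ZMod q)

instance (q : ℕ) : DecidableEq (PL q) := inferInstanceAs (DecidableEq (Option (ZMod q)))

/-- the group `PGL(2, q)` as a group of permutations of the projective line -/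
noncomputable def PG (q : ℕ) [Fact q.Prime] : Subgroup (Equiv.Perm (PL q)) :=
  (MulAction.toPermHom (Matrix.GeneralLinearGroup (Fin 2) (ZMod q)) (PL q)).range

/-- the point with the code `n` -/
def ptc (q n : ℕ) : PL q := ((n : ZMod q) : OnePoint (ZMod q))

/-- the set with the code `l` -/
def St (q : ℕ) (l : List ℕ) : Finset (PL q) := (l.map (ptc q)).toFinset

/-! ### The test -/

/-- all entries of the list satisfy `p` -/
def allL (p : ℕ → Bool) : List ℕ → Bool
  | [] => true
  | a :: l => bif p a then allL p l else false

/-- all entries are `> 0` and `< q`, and distinct -/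
def okList (q : ℕ) : List ℕ → Bool
  | [] => true
  | a :: l => (Nat.blt 0 a && Nat.blt a q) && (allL (fun b => !(Nat.beq a b)) l && okList q l)

/-- the binary mask of a list -/
def mask : List ℕ → ℕ
  | [] => 0
  | a :: l => Nat.add (Nat.pow 2 a) (mask l)

/-- bit `x` of `m` -/
def bit (m x : ℕ) : Bool := Nat.beq (Nat.mod (Nat.div m (Nat.pow 2 x)) 2) 1

/-- the cross ratio `(b - x) (y - z) / ((b - z) (y - x))` -/
def crN (q x y z b : ℕ) : ℕ :=
  Nat.mod (Nat.mul (Nat.mul (Nat.sub (Nat.add b q) x) (Nat.sub (Nat.add y q) z))
    (Nat.pow (Nat.mod (Nat.mul (Nat.sub (Nat.add b q) z) (Nat.sub (Nat.add y q) x)) q)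
      (Nat.sub q 2))) q

/-- the cross ratios of the fourth, fifth, ... entry with the first three -/
def wl (q : ℕ) : List ℕ → List ℕ
  | x :: y :: z :: l => l.map (crN q x y z)
  | _ => []

/-- all points `(a z w + b x) / (a w + b)` belong to the set with the mask `m` -/
def okAll (q m a b az bx : ℕ) : List ℕ → Bool
  | [] => true
  | w :: l => bif bit m (Nat.mod (Nat.mul (Nat.add (Nat.mul az w) bx)
      (Nat.pow (Nat.mod (Nat.add (Nat.mul a w) b) q) (Nat.sub q 2))) q)
    then okAll q m a b az bx l else false

/-- the test for the triple `x, y, z` -/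
def tst (q m : ℕ) (W : List ℕ) (a x y z : ℕ) : Bool :=
  (fun b => okAll q m a b (Nat.mul a z) (Nat.mul b x) W) (Nat.sub (Nat.add z q) y)

/-- every triple of distinct entries of `l` which passes the test has its code in `P` -/
def chkAll (q m : ℕ) (W l P : List ℕ) : Bool :=
  allL (fun x => allL (fun y => Nat.beq x y || (fun a => allL (fun z => (Nat.beq x z || Nat.beq y z) ||
    (!(tst q m W a x y z) || P.elem (Nat.add (Nat.mul (Nat.add (Nat.mul x 100) y) 100) z))) l)
      (Nat.sub (Nat.add y q) x)) l) l

/-- the triple with the code `c` passes the test and consists of distinct entries of `l` -/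
def chkOne (q m : ℕ) (W l : List ℕ) (c : ℕ) : Bool :=
  (fun x y z => (l.elem x && (l.elem y && l.elem z)) &&
    ((!(Nat.beq x y) && (!(Nat.beq x z) && !(Nat.beq y z))) &&
      (tst q m W (Nat.sub (Nat.add y q) x) x y z)))
    (Nat.div c 10000) (Nat.mod (Nat.div c 100) 100) (Nat.mod c 100)

/-- certificate: the stabiliser of the set `l` has order `P.length` -/
def chkStab (q : ℕ) (l P : List ℕ) : Bool :=
  (Nat.blt 2 l.length && okList q l) && (okList 1000000 P &&
    (chkAll q (mask l) (wl q l) l P && allL (chkOne q (mask l) (wl q l) l) P))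

/-- certificate: the sets `l` and `l'` lie in different orbits -/
def chkNe (q : ℕ) (l l' : List ℕ) : Bool :=
  (Nat.blt 2 l.length && (okList q l && okList q l')) && chkAll q (mask l') (wl q l) l' []

end pg

/-- pairwise inequivalent `k`-sets together with the orders of their stabilisers -/
structure IsCoins (q k : ℕ) [Fact q.Prime] (C : List (List ℕ × ℕ)) : Prop where
  card : ∀ c ∈ C, (St q c.1).card = k
  stab : ∀ c ∈ C, stc (PG q) (St q c.1) = c.2
  ne : C.Pairwise (fun c d => c.2 = d.2 → ∀ g : PG q, g • St q c.1 ≠ St q d.1)

instance fact_prime29 : Fact (Nat.Prime 29) := ⟨by norm_num⟩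

instance fact_prime83 : Fact (Nat.Prime 83) := ⟨by norm_num⟩

end Pool.Agent.LS3
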