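import Pool.Agent.Lib.MP_2c0b9b_co_S3.Defs

/-!
# Large sets of strength three: distribution of items to three classes with prescribed sums
-/

set_option autoImplicit false

open Finset

namespace Pool.Agent.LS3

variable {ι : Type*} [DecidableEq ι]

/-- the items in `T` can be distributed -/
private def DistA_P (d : ℕ) (w : ι → ℕ) (T : Finset ι) : Prop :=
  ∀ m : ZMod 3 → ℕ, (∀ i, d ∣ m i) → ∑ i, m i = ∑ x ∈ T, w x →
    ∃ f : ι → ZMod 3, ∀ i, ∑ x ∈ T.filter (fun x => f x = i), w x = m i

private theorem DistA_arith (d : ℕ) (hd : 0 < d) (m : ZMod 3 → ℕ) (hm : ∀ i, d ∣ m i) {a R : ℕ}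
    (ha : d ∣ a) (h : 2 * a ≤ 2 * d + R) (hsum : ∑ i, m i = a + R) : ∃ i, a ≤ m i := by
  obtain ⟨i, -, hi⟩ := Finset.exists_max_image (univ : Finset (ZMod 3)) m ⟨0, mem_univ _⟩
  refine ⟨i, ?_⟩
  have h1 : ∑ j, m j ≤ 3 * m i := by
    have h2 := Finset.sum_le_card_nsmul (univ : Finset (ZMod 3)) m (m i) (fun j hj => hi j hj)
    rwa [Finset.card_univ, ZMod.card, smul_eq_mul] at h2
  obtain ⟨b, hb⟩ := ha
  obtain ⟨c, hc⟩ := hm i
  rw [hb, hc]
  refine Nat.mul_le_mul_left d ?_
  by_contra hcon
  have h3 : c + 1 ≤ b := not_le.1 hcon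
  have h4 : d * (c + 1) ≤ d * b := Nat.mul_le_mul_left d h3
  rw [mul_add, mul_one] at h4
  omega

private theorem DistA_step (d : ℕ) (hd : 0 < d) (w : ι → ℕ) {T : Finset ι} (hT : DistA_P d w T)
    {x : ι} (hx : x ∉ T) (hwx : d ∣ w x) (h : 2 * w x ≤ 2 * d + ∑ y ∈ T, w y) :
    DistA_P d w (insert x T) := by
  intro m hm hsum
  rw [sum_insert hx] at hsum
  obtain ⟨i, hi⟩ := DistA_arith d hd m hm hwx h hsum
  obtain ⟨f, hf⟩ := hT (Function.update m i (m i - w x)) (by
    intro j
    by_cases hj : j = i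
    · rw [hj, Function.update_self]
      exact Nat.dvd_sub (hm i) hwx
    · rw [Function.update_of_ne hj]
      exact hm j) (by
    have h1 : ∑ j, Function.update m i (m i - w x) j =
        (m i - w x) + ∑ j ∈ univ.erase i, m j := by
      rw [← Finset.add_sum_erase univ _ (mem_univ i), Function.update_self]
      congr 1
      refine sum_congr rfl fun j hj => ?_
      rw [Function.update_of_ne (mem_erase.1 hj).1]
    rw [← Finset.add_sum_erase univ _ (mem_univ i)] at hsum
    rw [h1]
    omega)
  refine ⟨Function.update f x i, fun j => ?_⟩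
  have h2 : T.filter (fun y => Function.update f x i y = j) = T.filter (fun y => f y = j) := by
    refine filter_congr fun y hy => ?_
    have hyx : y ≠ x := by
      rintro rfl
      exact hx hy
    rw [Function.update_of_ne hyx]
  rw [filter_insert, Function.update_self, h2]
  by_cases hj : i = j
  · subst hj
    rw [if_pos rfl, sum_insert (fun h3 => hx (mem_filter.1 h3).1), hf, Function.update_self]
    omega
  · rw [if_neg hj, hf, Function.update_of_ne (Ne.symm hj)]

omit [DecidableEq ι] in
private theorem DistA_empty (d : ℕ) (w : ι → ℕ) : DistA_P d w ∅ := by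
  intro m _ hsum
  refine ⟨fun _ => 0, fun i => ?_⟩
  rw [sum_empty] at hsum
  rw [filter_empty, sum_empty]
  exact ((Finset.sum_eq_zero_iff.1 hsum) i (mem_univ i)).symm

private theorem DistA_list (d : ℕ) (hd : 0 < d) (w : ι → ℕ) (L : List ι) (hLn : L.Nodup)
    (hT : tailOK (2 * d) (L.map w) = true) (hw : ∀ x ∈ L, d ∣ w x) :
    DistA_P d w L.toFinset := by
  induction L with
  | nil => exact DistA_empty d w
  | cons a l ih =>
    rw [List.nodup_cons] at hLn
    rw [List.map_cons, tailOK, Bool.and_eq_true, decide_eq_true_eq] at hT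
    rw [List.toFinset_cons]
    refine DistA_step d hd w (ih hLn.2 hT.2 fun x hx => hw x (List.mem_cons_of_mem a hx)) ?_
      (hw a List.mem_cons_self) ?_
    · rw [List.mem_toFinset]
      exact hLn.1
    · rw [List.sum_toFinset w hLn.2]
      exact hT.1

/-- all weights and all targets are divisible by `d` -/
theorem dist_core (d : ℕ) (hd : 0 < d) (S : Finset ι) (w : ι → ℕ) (m : ZMod 3 → ℕ)
    (L : List ι) (hLn : L.Nodup) (hLS : ∀ x ∈ L, x ∈ S) (hT : tailOK (2 * d) (L.map w) = true)
    (X : ℕ) (hX : ∀ x ∈ S, w x ≤ X) (hXL : 2 * X ≤ 2 * d + (L.map w).sum)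
    (hw : ∀ x ∈ S, d ∣ w x) (hm : ∀ i, d ∣ m i) (hsum : ∑ i, m i = ∑ x ∈ S, w x) :
    ∃ f : ι → ZMod 3, ∀ i, ∑ x ∈ S.filter (fun x => f x = i), w x = m i := by
  have key : ∀ U : Finset ι, U ⊆ S \ L.toFinset → DistA_P d w (U ∪ L.toFinset) := by
    intro U
    induction U using Finset.induction_on with
    | empty =>
      intro _
      rw [empty_union]
      exact DistA_list d hd w L hLn hT fun x hx => hw x (hLS x hx)
    | insert x U hxU ih =>
      intro hU
      rw [insert_union]
      have h1 := mem_sdiff.1 (hU (mem_insert_self x U))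
      refine DistA_step d hd w (ih ((subset_insert x U).trans hU)) ?_ (hw x h1.1) ?_
      · rw [mem_union]
        rintro (h2 | h2)
        · exact hxU h2
        · exact h1.2 h2
      · have h2 : ∑ y ∈ L.toFinset, w y ≤ ∑ y ∈ U ∪ L.toFinset, w y :=
          sum_le_sum_of_subset subset_union_right
        rw [List.sum_toFinset w hLn] at h2
        have h3 := hX x h1.1
        omega
  have h1 : S \ L.toFinset ∪ L.toFinset = S := by
    refine sdiff_union_of_subset fun x hx => ?_
    exact hLS x (List.mem_toFinset.1 hx)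
  have h2 := key (S \ L.toFinset) (Subset.refl _)
  rw [h1] at h2
  exact h2 m hm hsum

end Pool.Agent.LS3
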