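import Pool.Agent.Lib.MP_2c0b9b_co.Calc2
import Pool.Agent.Lib.MP_2c0b9b_co.Digits
import Pool.Agent.Lib.MP_2c0b9b_co.Reduce
import Pool.Agent.Lib.MP_2c0b9b_co.Absorb
import Pool.Agent.Lib.MP_2c0b9b_co.NumThree
import Pool.Agent.Lib.MP_2c0b9b_co.BaseTwelve
import Pool.Agent.Lib.MP_2c0b9b_co_S3.Base9
import Pool.Agent.Lib.MP_2c0b9b_co_S3.Base30
import Pool.Agent.Lib.MP_2c0b9b_co_S3.Base84

/-!
# Large sets of size three and strength three
-/

set_option autoImplicit false

open Finset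

namespace Pool.Agent.LS3

theorem special_three (m k : ℕ) (h1 : 3 ^ m ≤ k) (h2 : k ≤ 3 ^ m + 3) (h3 : 3 < k)
    (h4 : k < 3 ^ (m + 1)) : G (3 + 1) k (3 ^ (m + 1) + 3) := by
  rcases Nat.lt_or_ge m 4 with hm | hm
  · interval_cases m
    · norm_num at h1 h2 h3 h4; omega
    · norm_num at h1 h2 h3 h4 ⊢
      interval_cases k
      · exact base_4_12
      · exact base_5_12
      · exact base_6_12
    · norm_num at h1 h2 h3 h4 ⊢
      interval_cases k
      · exact base_9_30
      · exact base_10_30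
      · exact base_11_30
      · exact base_12_30
    · norm_num at h1 h2 h3 h4 ⊢
      interval_cases k
      · exact base_27_84
      · exact base_28_84
      · exact base_29_84
      · exact base_30_84
  · have h3m : 81 ≤ 3 ^ m := by
      calc 81 = 3 ^ 4 := by norm_num
        _ ≤ 3 ^ m := Nat.pow_le_pow_right (by norm_num) hm
    have hkv : k ≤ 3 ^ (m + 1) + 3 := by omega
    have hmod : (3 ^ (m + 1) + 3) % 3 ^ (m + 1) = 3 := by
      rw [Nat.add_mod_left]
      exact Nat.mod_eq_of_lt (by rw [pow_succ]; omega)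
    have hkmod : k % 3 ^ (m + 1) = k := Nat.mod_eq_of_lt h4
    refine absorb 3 k _ hkv (dvd_of_digits 3 k _ (m + 1) hkv ?_ ?_) (cost_three m k hm h1 h2)
    · rw [hmod]
    · rw [hmod, hkmod]; exact h3

theorem all_three (v k l : ℕ) (h1 : 3 ≤ v % 3 ^ l) (h2 : v % 3 ^ l < k % 3 ^ l) : G 4 k v :=
  reduce 3 (fun m k h1 h2 h3 h4 => special_three m k h1 h2 h3 h4) v k l h1 h2

theorem strength_three : ∀ k v : ℕ, 3 ≤ k → k ≤ v →
      ((∃ f : Finset (Fin v) → Fin 3, ∀ j : Fin 3, ∀ T : Finset (Fin v), T.card = 3 →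
          3 * ((Finset.powersetCard k (Finset.univ : Finset (Fin v))).filter
                (fun B => f B = j ∧ T ⊆ B)).card = (v - 3).choose (k - 3))
        ↔ ∀ i : ℕ, i ≤ 3 → 3 ∣ (v - i).choose (k - i)) := by
  intro k v hk hkv
  constructor
  · intro h
    exact dvd_of_LS hk hkv h
  · intro h
    obtain ⟨l, hl1, hl2⟩ := digits 3 k v hk hkv h
    exact LS_of_G hk hkv (all_three v k l hl1 hl2)

end Pool.Agent.LS3
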