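import Pool.Agent.Lib.MP_2c0b9b_co_S3.K9T
import Pool.Agent.Lib.MP_2c0b9b_co_S3.Pgl

/-!
# Large sets of strength three, `k = 9`: a design with ten disjoint images
-/

set_option autoImplicit false

open Finset
open scoped Pointwise

namespace Pool.Agent.LS3

private theorem K9Orb_roots (a : ZMod 29) (ha : a ≠ 0) : ∃ j < 4,
    (([1, 7, 16, 20, 23, 24, 25] : List ℕ).map fun x => ((x : ℕ) : ZMod 29)).toFinset.image
      (fun z => a * z) =
    (([1, 7, 16, 20, 23, 24, 25] : List ℕ).map fun x => ((x : ℕ) : ZMod 29)).toFinset.image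
      (fun z => (2 : ZMod 29) ^ j * z) := by
  revert a
  decide +kernel

private theorem K9Orb_aux (L : List ℕ) (a b : ZMod 29) (j : ℕ)
    (hR : (L.map fun x => ((x : ℕ) : ZMod 29)).toFinset.image (fun z => a * z) =
      (L.map fun x => ((x : ℕ) : ZMod 29)).toFinset.image (fun z => (2 : ZMod 29) ^ j * z)) :
    (((0 :: L).map fun x => ((x : ℕ) : ZMod 29)).toFinset.image fun z => a * z + b) =
      ((b.val :: L.map fun w => Nat.mod (Nat.add (Nat.mul (2 ^ j) w) b.val) 29).map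
        fun x => ((x : ℕ) : ZMod 29)).toFinset := by
  rw [List.map_cons, List.map_cons, List.toFinset_cons, List.toFinset_cons, image_insert,
    Nat.cast_zero, mul_zero, zero_add, ZMod.natCast_zmod_val]
  congr 1
  have e3 : (fun z : ZMod 29 => a * z + b) = (fun z => z + b) ∘ fun z => a * z := rfl
  rw [e3, ← image_image, hR, image_image]
  ext y
  simp only [mem_image, List.mem_toFinset, List.mem_map, Function.comp_apply]
  constructor
  · rintro ⟨_, ⟨x, hx, rfl⟩, rfl⟩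
    refine ⟨_, ⟨x, hx, rfl⟩, ?_⟩
    show (((2 ^ j * x + b.val) % 29 : ℕ) : ZMod 29) = _
    rw [ZMod.natCast_mod]
    push_cast
    rw [ZMod.natCast_zmod_val]
  · rintro ⟨_, ⟨x, hx, rfl⟩, rfl⟩
    refine ⟨_, ⟨x, hx, rfl⟩, ?_⟩
    show _ = (((2 ^ j * x + b.val) % 29 : ℕ) : ZMod 29)
    rw [ZMod.natCast_mod]
    push_cast
    rw [ZMod.natCast_zmod_val]

private theorem K9Orb_lab {L : List ℕ} (hL : ∀ x ∈ L, x < 29) : tS (L.map (gt k9lab)) =
    (L.map fun x => ((x : ℕ) : ZMod 29)).toFinset.image (fun z : ZMod 29 => (z : PL 29)) := by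
  ext y
  unfold tS
  simp only [List.mem_toFinset, List.mem_map, mem_image]
  constructor
  · rintro ⟨_, ⟨x, hx, rfl⟩, rfl⟩
    exact ⟨_, ⟨x, hx, rfl⟩, (tp_lab (hL x hx)).symm⟩
  · rintro ⟨_, ⟨x, hx, rfl⟩, rfl⟩
    exact ⟨_, ⟨x, hx, rfl⟩, tp_lab (hL x hx)⟩

private theorem K9Orb_lab_cons {L : List ℕ} (hL : ∀ x ∈ L, x < 29) :
    tS ((29 :: L).map (gt k9lab)) = insert OnePoint.infty
      ((L.map fun x => ((x : ℕ) : ZMod 29)).toFinset.image (fun z : ZMod 29 => (z : PL 29))) := by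
  rw [← K9Orb_lab hL]
  unfold tS
  rw [List.map_cons, List.map_cons, List.toFinset_cons]
  congr 1

private theorem K9Orb_pow {T : Equiv.Perm (PL 29)} (hTp : ∀ j, T (tp j) = tp (j + 1)) :
    ∀ i : ℕ, (T ^ i) (tp 0) = tp i
  | 0 => rfl
  | i + 1 => by
    rw [pow_succ', Equiv.Perm.mul_apply, K9Orb_pow hTp i, hTp i]

private theorem K9Orb_smul {s : Equiv.Perm (PL 29)} {a b : ZMod 29}
    (h0 : s OnePoint.infty = OnePoint.infty)
    (h : ∀ x : ZMod 29, s (x : PL 29) = ((a * x + b : ZMod 29) : PL 29)) (A : Finset (ZMod 29)) :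
    s • insert (OnePoint.infty : PL 29) (A.image (fun z : ZMod 29 => (z : PL 29))) =
      insert OnePoint.infty ((A.image fun z => a * z + b).image
        (fun z : ZMod 29 => (z : PL 29))) := by
  rw [smul_finset_def, image_insert, Equiv.Perm.smul_def, h0, image_image, image_image]
  congr 2
  funext z
  exact h z

/-- every image of `B₇` (the points `∞, 0` and the seventh roots of unity) is a power of `T`
applied to a set `2^j B₇ + b` -/
theorem orbit_B7 {T : Equiv.Perm (PL 29)} (hT : T ∈ PG 29) (hTp : ∀ j, T (tp j) = tp (j + 1))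
    {g : Equiv.Perm (PL 29)} (hg : g ∈ PG 29) :
    ∃ i < 30, ∃ j < 4, ∃ b < 29, g • tS ([29, 0, 1, 7, 16, 20, 23, 24, 25].map (gt k9lab)) =
      T ^ i • tS ((29 :: b :: [1, 7, 16, 20, 23, 24, 25].map
        fun w => Nat.mod (Nat.add (Nat.mul (2 ^ j) w) b) 29).map (gt k9lab)) := by
  obtain ⟨i, hi, hgi⟩ := tp_surj (g OnePoint.infty)
  obtain ⟨s, hsdef⟩ : ∃ s, s = (T ^ i)⁻¹ * g := ⟨_, rfl⟩
  have hs : s ∈ PG 29 := by
    rw [hsdef]
    exact (PG 29).mul_mem ((PG 29).inv_mem ((PG 29).pow_mem hT i)) hg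
  have hs0 : s OnePoint.infty = (OnePoint.infty : PL 29) := by
    rw [hsdef, Equiv.Perm.mul_apply, ← hgi, ← K9Orb_pow hTp i, ← Equiv.Perm.mul_apply,
      inv_mul_cancel]
    rfl
  obtain ⟨a, b, c, d, hdet, h1, -, h3, -⟩ := PG_out 29 hs
  have hc : c = 0 := by
    by_contra hc
    have h4 := h3 hc
    rw [hs0] at h4
    exact OnePoint.infty_ne_coe _ h4
  rw [hc, mul_zero, sub_zero] at hdet
  have hd : d ≠ 0 := right_ne_zero_of_mul hdet
  have ha : a ≠ 0 := left_ne_zero_of_mul hdet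
  have hval : ∀ x : ZMod 29, s (x : PL 29) = ((a / d * x + b / d : ZMod 29) : PL 29) := by
    intro x
    have h5 : (a * x + b) / (c * x + d) = a / d * x + b / d := by
      rw [hc, zero_mul, zero_add, add_div, mul_div_right_comm]
    rw [h1 x (by rw [hc, zero_mul, zero_add]; exact hd), h5]
  obtain ⟨j, hj, hR⟩ := K9Orb_roots (a / d) (div_ne_zero ha hd)
  refine ⟨i, hi, j, hj, (b / d).val, ZMod.val_lt _, ?_⟩
  have hlt : ∀ x ∈ (b / d).val :: ([1, 7, 16, 20, 23, 24, 25] : List ℕ).map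
      (fun w => Nat.mod (Nat.add (Nat.mul (2 ^ j) w) (b / d).val) 29), x < 29 := by
    intro x hx
    rw [List.mem_cons] at hx
    rcases hx with rfl | hx
    · exact ZMod.val_lt _
    · obtain ⟨w, -, rfl⟩ := List.mem_map.1 hx
      exact Nat.mod_lt _ (by norm_num)
  have e1 : s • tS ([29, 0, 1, 7, 16, 20, 23, 24, 25].map (gt k9lab)) =
      tS ((29 :: (b / d).val :: [1, 7, 16, 20, 23, 24, 25].map
        fun w => Nat.mod (Nat.add (Nat.mul (2 ^ j) w) (b / d).val) 29).map (gt k9lab)) := by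
    rw [K9Orb_lab_cons (L := [0, 1, 7, 16, 20, 23, 24, 25]) (by decide), K9Orb_lab_cons hlt,
      K9Orb_smul hs0 hval]
    rw [K9Orb_aux [1, 7, 16, 20, 23, 24, 25] (a / d) (b / d) j hR]
  rw [← e1, hsdef, smul_smul, mul_inv_cancel_left]

end Pool.Agent.LS3
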