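import Pool.Agent.Lib.MP_2c0b9b_co_S3.ChkA
import Pool.Agent.Lib.MP_2c0b9b_co_S3.K9Data

/-!
# Large sets of strength three, `k = 9`: the coordinates
-/

set_option autoImplicit false

open Finset
open scoped Pointwise

namespace Pool.Agent.LS3

/-- the point with the coordinate `j` -/
noncomputable def tp (j : ℕ) : PL 29 :=
  if j % 30 = 0 then OnePoint.infty else ptc 29 (gt k9pt (j % 30))

/-- the set with the coordinates `B` -/
noncomputable def tS (B : List ℕ) : Finset (PL 29) := (B.map tp).toFinset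

/-! ### Codes -/

/-- the point with the code `c < 30` (`29` stands for the point at infinity) -/
private noncomputable def cd (c : ℕ) : PL 29 := if c = 29 then OnePoint.infty else ptc 29 c

private lemma cd_eq {c : ℕ} (h : c < 29) : cd c = ptc 29 c := by
  unfold cd
  rw [if_neg (by omega)]

private lemma ptc_inj29 {a b : ℕ} (ha : a < 29) (hb : b < 29) (h : ptc 29 a = ptc 29 b) :
    a = b := by
  unfold ptc at h
  have h1 : ((a : ZMod 29)) = (b : ZMod 29) := OnePoint.coe_injective h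
  rw [ZMod.natCast_eq_natCast_iff'] at h1
  rwa [Nat.mod_eq_of_lt ha, Nat.mod_eq_of_lt hb] at h1

private lemma cd_inj {a b : ℕ} (ha : a < 30) (hb : b < 30) (h : cd a = cd b) : a = b := by
  rcases Nat.lt_or_ge a 29 with h1 | h1 <;> rcases Nat.lt_or_ge b 29 with h2 | h2
  · rw [cd_eq h1, cd_eq h2] at h
    exact ptc_inj29 h1 h2 h
  · have hb' : b = 29 := by omega
    rw [cd_eq h1, hb'] at h
    exact absurd h (OnePoint.coe_ne_infty _)
  · have ha' : a = 29 := by omega
    rw [cd_eq h2, ha'] at h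
    exact absurd h.symm (OnePoint.coe_ne_infty _)
  · omega

private lemma k9_pt0 : gt k9pt 0 = 29 := rfl

private lemma k9_pt_lt : ∀ j < 30, gt k9pt j < 30 := by decide

private lemma k9_pt_lt' : ∀ j < 30, j ≠ 0 → gt k9pt j < 29 := by decide

private lemma k9_lab_lt : ∀ c < 30, gt k9lab c < 30 := by decide

private lemma k9_lab_pt : ∀ j < 30, gt k9lab (gt k9pt j) = j := by decide

private lemma k9_pt_lab : ∀ c < 30, gt k9pt (gt k9lab c) = c := by decide

private lemma tp_cd (j : ℕ) : tp j = cd (gt k9pt (j % 30)) := by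
  have hj : j % 30 < 30 := Nat.mod_lt _ (by norm_num)
  unfold tp
  by_cases h : j % 30 = 0
  · rw [if_pos h, h, k9_pt0]
    rfl
  · rw [if_neg h, cd_eq (k9_pt_lt' _ hj h)]

private lemma tp_cd' {j : ℕ} (hj : j < 30) : tp j = cd (gt k9pt j) := by
  rw [tp_cd, Nat.mod_eq_of_lt hj]

/-- the map with the matrix `(a, b; c, d)` maps the code `x` to the code `y` -/
private def mchk (a b c d x y : ℕ) : Bool :=
  if x = 29 then
    (if c % 29 = 0 then decide (y = 29) else (decide (y < 29) && decide (y * c % 29 = a % 29)))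
  else
    (if (c * x + d) % 29 = 0 then decide (y = 29) else
      (decide (y < 29) && decide (y * (c * x + d) % 29 = (a * x + b) % 29)))

private lemma cast_zero_iff {n : ℕ} : ((n : ZMod 29) = 0) ↔ n % 29 = 0 := by
  rw [ZMod.natCast_eq_zero_iff]
  exact Nat.dvd_iff_mod_eq_zero

private lemma mob_chk {a b c d : ℕ} {σ : Equiv.Perm (PL 29)}
    (h1 : ∀ x : ZMod 29, (c : ZMod 29) * x + (d : ZMod 29) ≠ 0 →
      σ (x : PL 29) = ((((a : ZMod 29) * x + (b : ZMod 29)) /
        ((c : ZMod 29) * x + (d : ZMod 29)) : ZMod 29) : PL 29))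
    (h2 : ∀ x : ZMod 29, (c : ZMod 29) * x + (d : ZMod 29) = 0 → σ (x : PL 29) = OnePoint.infty)
    (h3 : (c : ZMod 29) ≠ 0 → σ OnePoint.infty =
      (((a : ZMod 29) / (c : ZMod 29) : ZMod 29) : PL 29))
    (h4 : (c : ZMod 29) = 0 → σ OnePoint.infty = OnePoint.infty)
    {x y : ℕ} (hx : x < 30) (hc : mchk a b c d x y = true) : σ (cd x) = cd y := by
  unfold mchk at hc
  by_cases hx9 : x = 29
  · rw [if_pos hx9] at hc
    have e1 : cd x = OnePoint.infty := by
      unfold cd
      rw [if_pos hx9]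
    rw [e1]
    by_cases hc0 : c % 29 = 0
    · rw [if_pos hc0] at hc
      have hy : y = 29 := of_decide_eq_true hc
      rw [h4 (cast_zero_iff.2 hc0), hy]
      rfl
    · rw [if_neg hc0, Bool.and_eq_true] at hc
      have hy : y < 29 := of_decide_eq_true hc.1
      have hm : y * c % 29 = a % 29 := of_decide_eq_true hc.2
      have hc' : (c : ZMod 29) ≠ 0 := fun h => hc0 (cast_zero_iff.1 h)
      rw [h3 hc', cd_eq hy]
      unfold ptc
      congr 1
      rw [div_eq_iff hc']
      have h5 : ((y * c : ℕ) : ZMod 29) = ((a : ℕ) : ZMod 29) :=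
        (ZMod.natCast_eq_natCast_iff' _ _ _).2 hm
      push_cast at h5
      exact h5.symm
  · rw [if_neg hx9] at hc
    have hx' : x < 29 := by omega
    have e1 : cd x = ((x : ZMod 29) : PL 29) := by
      rw [cd_eq hx']
      rfl
    rw [e1]
    have e2 : ((c * x + d : ℕ) : ZMod 29) = (c : ZMod 29) * (x : ZMod 29) + (d : ZMod 29) := by
      push_cast
      rfl
    by_cases hc0 : (c * x + d) % 29 = 0
    · rw [if_pos hc0] at hc
      have hy : y = 29 := of_decide_eq_true hc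
      rw [h2 _ (by rw [← e2]; exact cast_zero_iff.2 hc0), hy]
      rfl
    · rw [if_neg hc0, Bool.and_eq_true] at hc
      have hy : y < 29 := of_decide_eq_true hc.1
      have hm : y * (c * x + d) % 29 = (a * x + b) % 29 := of_decide_eq_true hc.2
      have hc' : (c : ZMod 29) * (x : ZMod 29) + (d : ZMod 29) ≠ 0 := by
        rw [← e2]
        exact fun h => hc0 (cast_zero_iff.1 h)
      rw [h1 _ hc', cd_eq hy]
      unfold ptc
      congr 1
      rw [div_eq_iff hc']
      have h5 : ((y * (c * x + d) : ℕ) : ZMod 29) = ((a * x + b : ℕ) : ZMod 29) :=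
        (ZMod.natCast_eq_natCast_iff' _ _ _).2 hm
      push_cast at h5
      exact h5.symm

private lemma chk_T : ∀ j < 30, mchk 1 15 1 0 (gt k9pt j) (gt k9pt ((j + 1) % 30)) = true := by
  decide

private lemma chk_h : ∀ j < 30, mchk 25 27 1 17 (gt k9pt j)
    (gt k9pt (gt (k9ht.getD 1 []) j)) = true := by
  decide

private lemma ht_lt : ∀ l < 6, ∀ j < 30, gt (k9ht.getD l []) j < 30 := by decide

private lemma ht_step : ∀ l < 5, ∀ j < 30,
    gt (k9ht.getD 1 []) (gt (k9ht.getD l []) j) = gt (k9ht.getD (l + 1) []) j := by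
  decide

private lemma ht_zero : ∀ j < 30, gt (k9ht.getD 0 []) j = j := by decide

private lemma ht_inv : ∀ j < 30, gt (k9ht.getD 5 []) (gt (k9ht.getD 5 []) j) = j := by decide

private lemma mask_sum : ∀ {B : List ℕ}, B.Nodup → mask B = ∑ j ∈ B.toFinset, 2 ^ j
  | [], _ => rfl
  | a :: l, h => by
    have h1 := List.nodup_cons.1 h
    have ih := mask_sum h1.2
    rw [List.toFinset_cons, Finset.sum_insert (by simpa using h1.1), ← ih]
    rfl

private lemma tS_image (B : List ℕ) : tS B = B.toFinset.image tp := by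
  unfold tS
  ext x
  simp [List.mem_toFinset, Finset.mem_image]

theorem tp_mod (j : ℕ) : tp (j % 30) = tp j := by
  rw [tp_cd, tp_cd, Nat.mod_mod]

theorem tp_inj {i j : ℕ} (hi : i < 30) (hj : j < 30) (h : tp i = tp j) : i = j := by
  rw [tp_cd' hi, tp_cd' hj] at h
  have h1 := cd_inj (k9_pt_lt i hi) (k9_pt_lt j hj) h
  rw [← k9_lab_pt i hi, ← k9_lab_pt j hj, h1]

theorem tp_surj (x : PL 29) : ∃ j < 30, tp j = x := by
  induction x using OnePoint.rec with
  | infty => exact ⟨0, by norm_num, rfl⟩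
  | coe z =>
    have hz : z.val < 29 := ZMod.val_lt z
    refine ⟨gt k9lab z.val, k9_lab_lt _ (by omega), ?_⟩
    rw [tp_cd' (k9_lab_lt _ (by omega)), k9_pt_lab _ (by omega), cd_eq hz]
    unfold ptc
    rw [ZMod.natCast_zmod_val]

/-- the point with the code `x` has the coordinate `gt k9lab x` -/
theorem tp_lab {x : ℕ} (hx : x < 29) : tp (gt k9lab x) = ptc 29 x := by
  rw [tp_cd' (k9_lab_lt _ (by omega)), k9_pt_lab _ (by omega), cd_eq hx]

/-- the map `T x = (x + 15) / x` -/
theorem exists_T : ∃ T ∈ PG 29, ∀ j, T (tp j) = tp (j + 1) := by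
  obtain ⟨σ, hσ, h1, h2, h3, h4⟩ := PG_mk 29 ((1 : ℕ) : ZMod 29) ((15 : ℕ) : ZMod 29)
    ((1 : ℕ) : ZMod 29) ((0 : ℕ) : ZMod 29) (by decide)
  refine ⟨σ, hσ, fun j => ?_⟩
  have hj : j % 30 < 30 := Nat.mod_lt _ (by norm_num)
  have h5 := mob_chk h1 h2 h3 h4 (k9_pt_lt _ hj) (chk_T _ hj)
  rw [tp_cd, tp_cd, h5]
  congr 2
  omega

/-- the map `h x = (25 x + 27) / (x + 17)` -/
theorem exists_h : ∃ h ∈ PG 29, h ^ 10 = 1 ∧
    ∀ l, 1 ≤ l → l ≤ 5 → ∀ j, (h ^ l) (tp j) = tp (gt (k9ht.getD l []) (j % 30)) := by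
  obtain ⟨σ, hσ, h1, h2, h3, h4⟩ := PG_mk 29 ((25 : ℕ) : ZMod 29) ((27 : ℕ) : ZMod 29)
    ((1 : ℕ) : ZMod 29) ((17 : ℕ) : ZMod 29) (by decide)
  have hs : ∀ j < 30, σ (tp j) = tp (gt (k9ht.getD 1 []) j) := by
    intro j hj
    rw [tp_cd' hj, tp_cd' (ht_lt 1 (by norm_num) j hj)]
    exact mob_chk h1 h2 h3 h4 (k9_pt_lt _ hj) (chk_h _ hj)
  have hp : ∀ l ≤ 5, ∀ j < 30, (σ ^ l) (tp j) = tp (gt (k9ht.getD l []) j) := by
    intro l
    induction l with
    | zero =>
      intro _ j hj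
      rw [pow_zero, ht_zero j hj]
      rfl
    | succ l ih =>
      intro hl j hj
      rw [pow_succ', Equiv.Perm.mul_apply, ih (by omega) j hj,
        hs _ (ht_lt l (by omega) j hj), ht_step l (by omega) j hj]
  refine ⟨σ, hσ, ?_, fun l _ hl j => ?_⟩
  · apply Equiv.ext
    intro x
    obtain ⟨j, hj, rfl⟩ := tp_surj x
    have e : σ ^ 10 = σ ^ 5 * σ ^ 5 := by rw [← pow_add]
    rw [e, Equiv.Perm.mul_apply, hp 5 le_rfl j hj, hp 5 le_rfl _ (ht_lt 5 (by norm_num) j hj),
      ht_inv j hj]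
    rfl
  · rw [← tp_mod j]
    exact hp l hl _ (Nat.mod_lt _ (by norm_num))

/-- the permutation `π` -/
theorem exists_pi : ∃ π : Equiv.Perm (PL 29), ∀ j, π (tp j) = tp (11 * j) := by
  have hbij : Function.Bijective (fun j : Fin 30 => tp j.1) := by
    constructor
    · intro i j h
      exact Fin.ext (tp_inj i.2 j.2 h)
    · intro x
      obtain ⟨j, hj, h⟩ := tp_surj x
      exact ⟨⟨j, hj⟩, h⟩
  let E : Fin 30 ≃ PL 29 := Equiv.ofBijective _ hbij
  have hE : ∀ j : Fin 30, E j = tp j.1 := fun j => rfl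
  let f : Fin 30 → Fin 30 := fun j => ⟨11 * j.1 % 30, Nat.mod_lt _ (by norm_num)⟩
  have hf : Function.Involutive f := by
    intro j
    apply Fin.ext
    show 11 * (11 * j.1 % 30) % 30 = j.1
    have := j.2
    omega
  refine ⟨(E.symm.trans (hf.toPerm f)).trans E, fun j => ?_⟩
  have hj : j % 30 < 30 := Nat.mod_lt _ (by norm_num)
  have e1 : tp j = E ⟨j % 30, hj⟩ := by rw [hE, tp_mod]
  rw [e1]
  simp only [Equiv.trans_apply, Equiv.symm_apply_apply, Function.Involutive.coe_toPerm]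
  rw [hE]
  show tp (11 * (j % 30) % 30) = tp (11 * j)
  have e2 : 11 * (j % 30) % 30 = 11 * j % 30 := by omega
  rw [e2, tp_mod]

/-- sets with the same mask are equal -/
theorem tS_eq_of_mask {B B' : List ℕ} (hB : B.Nodup) (hB' : B'.Nodup) (h : ∀ j ∈ B, j < 30)
    (h' : ∀ j ∈ B', j < 30) (hm : mask B = mask B') : tS B = tS B' := by
  rw [mask_sum hB, mask_sum hB'] at hm
  have h1 : B.toFinset = B'.toFinset := Finset.geomSum_injective le_rfl hm
  rw [tS_image, tS_image, h1]

theorem mask_eq_of_tS {B B' : List ℕ} (hB : B.Nodup) (hB' : B'.Nodup) (h : ∀ j ∈ B, j < 30)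
    (h' : ∀ j ∈ B', j < 30) (hm : tS B = tS B') : mask B = mask B' := by
  have key : ∀ {A A' : List ℕ}, (∀ j ∈ A, j < 30) → (∀ j ∈ A', j < 30) → tS A = tS A' →
      A.toFinset ⊆ A'.toFinset := by
    intro A A' hA hA' he j hj
    have h1 : tp j ∈ tS A := by
      rw [tS_image]
      exact Finset.mem_image_of_mem _ hj
    rw [he, tS_image, Finset.mem_image] at h1
    obtain ⟨i, hi, h2⟩ := h1
    have h3 := tp_inj (hA' i (List.mem_toFinset.1 hi)) (hA j (List.mem_toFinset.1 hj)) h2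
    rwa [h3] at hi
  have h1 : B.toFinset = B'.toFinset :=
    Finset.Subset.antisymm (key h h' hm) (key h' h hm.symm)
  rw [mask_sum hB, mask_sum hB', h1]

end Pool.Agent.LS3
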